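import Mathlib
import Pool.Agent.Lib.P1aceS.Final

set_option autoImplicit false

/-!
# The integers with restricted digits and their exponential sums
-/

namespace Pool.Agent.Lib.P1aceP

open Finset Pool.Agent.Lib.P1aceS

open Classical in
/-- The integers below `s ^ L` with all digits in `D`. -/
noncomputable def KS (s : ℕ) (D : Finset ℕ) (L : ℕ) : Finset ℕ :=
  (range (s ^ L)).filter fun x => ∀ i, x / s ^ i % s ∈ D

lemma mem_KS {s : ℕ} {D : Finset ℕ} {L x : ℕ} :
    x ∈ KS s D L ↔ x < s ^ L ∧ ∀ i, x / s ^ i % s ∈ D := by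
  classical
  unfold KS
  rw [mem_filter, mem_range]

/-- Splitting the digits. -/
lemma sum_KS_add {M : Type*} [AddCommMonoid M] {s : ℕ} (hs : 2 ≤ s) {D : Finset ℕ} (h0D : 0 ∈ D)
    (m n : ℕ) (F : ℕ → M) :
    ∑ x ∈ KS s D (m + n), F x = ∑ v ∈ KS s D n, ∑ u ∈ KS s D m, F (u + s ^ m * v) := by
  have hs0 : 0 < s := by omega
  have hsm : 0 < s ^ m := pow_pos hs0 m
  rw [← sum_product']
  symm
  refine sum_nbij' (fun p => p.2 + s ^ m * p.1) (fun x => (x / s ^ m, x % s ^ m)) ?_ ?_ ?_ ?_ ?_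
  · rintro ⟨v, u⟩ h
    rw [mem_product, mem_KS, mem_KS] at h
    obtain ⟨⟨hv, hv'⟩, hu, hu'⟩ := h
    rw [mem_KS]
    refine ⟨?_, allIn_add hs0 hu hu' hv'⟩
    simp only at hu hv ⊢
    calc u + s ^ m * v < s ^ m + s ^ m * v := by omega
      _ = s ^ m * (v + 1) := by ring
      _ ≤ s ^ m * s ^ n := Nat.mul_le_mul_left _ hv
      _ = s ^ (m + n) := (pow_add s m n).symm
  · intro x hx
    rw [mem_KS] at hx
    obtain ⟨hx, hx'⟩ := hx
    rw [mem_product, mem_KS, mem_KS]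
    refine ⟨⟨?_, fun i => ?_⟩, Nat.mod_lt _ hsm, fun i => ?_⟩
    · rw [pow_add] at hx
      exact Nat.div_lt_of_lt_mul hx
    · simp only
      rw [Nat.div_div_eq_div_mul, ← pow_add]
      exact hx' _
    · simp only
      rcases lt_or_ge i m with hi | hi
      · have h1 : x % s ^ m / s ^ i % s = x / s ^ i % s := by
          obtain ⟨k, rfl⟩ : ∃ k, m = i + (k + 1) := ⟨m - i - 1, by omega⟩
          have h2 := Nat.mod_add_div x (s ^ (i + (k + 1)))
          have h3 : s ^ (i + (k + 1)) * (x / s ^ (i + (k + 1))) =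
              s ^ i * (s * (s ^ k * (x / s ^ (i + (k + 1))))) := by
            rw [pow_add, pow_succ]; ring
          conv_rhs => rw [← h2, h3]
          rw [Nat.add_mul_div_left _ _ (pow_pos hs0 i), Nat.add_mul_mod_self_left]
        rw [h1]
        exact hx' i
      · have h1 : x % s ^ m / s ^ i = 0 :=
          Nat.div_eq_of_lt (lt_of_lt_of_le (Nat.mod_lt _ hsm) (Nat.pow_le_pow_right hs0 hi))
        rw [h1, Nat.zero_mod]
        exact h0D
  · rintro ⟨v, u⟩ h
    rw [mem_product, mem_KS, mem_KS] at h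
    have hu : u < s ^ m := h.2.1
    simp only
    rw [Nat.add_mul_div_left _ _ hsm, Nat.div_eq_of_lt hu, zero_add, Nat.add_mul_mod_self_left,
      Nat.mod_eq_of_lt hu]
  · intro x _
    exact Nat.mod_add_div x (s ^ m)
  · rintro ⟨v, u⟩ _
    rfl

lemma KS_zero {s : ℕ} {D : Finset ℕ} (h0D : 0 ∈ D) : KS s D 0 = {0} := by
  ext x
  rw [mem_KS, mem_singleton, pow_zero]
  constructor
  · intro h; omega
  · rintro rfl
    refine ⟨by omega, fun i => ?_⟩
    rw [Nat.zero_div, Nat.zero_mod]; exact h0D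

lemma KS_one {s : ℕ} {D : Finset ℕ} (h0D : 0 ∈ D) (hD : ∀ d ∈ D, d < s) : KS s D 1 = D := by
  ext x
  rw [mem_KS, pow_one]
  constructor
  · rintro ⟨h1, h2⟩
    have := h2 0
    rw [pow_zero, Nat.div_one, Nat.mod_eq_of_lt h1] at this
    exact this
  · intro h
    exact ⟨hD x h, allIn_digit h0D hD h⟩

lemma card_KS {s : ℕ} (hs : 2 ≤ s) {D : Finset ℕ} (h0D : 0 ∈ D) (hD : ∀ d ∈ D, d < s) (L : ℕ) :
    (KS s D L).card = D.card ^ L := by
  induction L with
  | zero => rw [KS_zero h0D, card_singleton, pow_zero]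
  | succ L ih =>
    have h := sum_KS_add hs h0D L 1 fun _ => 1
    rw [KS_one h0D hD] at h
    simp only [sum_const, smul_eq_mul, mul_one] at h
    rw [h, ih, pow_succ, mul_comm]

section

variable {q : ℕ} [NeZero q]

/-- The exponential sum. -/
noncomputable def kh (D : Finset ℕ) (s L : ℕ) (r : ZMod q) : ℂ :=
  ∑ x ∈ KS s D L, ZMod.stdAddChar (r * (x : ZMod q))

lemma kh_eq {s : ℕ} (hs : 2 ≤ s) {D : Finset ℕ} (h0D : 0 ∈ D) (hD : ∀ d ∈ D, d < s) (L : ℕ)
    (r : ZMod q) : kh D s L r = ∏ i : Fin L, tm D s r i := by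
  have h1 : ∏ i : Fin L, tm D s r i = ∏ i ∈ range L, tm D s r i := by rw [Finset.prod_range]
  rw [h1]
  induction L with
  | zero =>
    unfold kh
    rw [KS_zero h0D, sum_singleton, Nat.cast_zero, mul_zero, AddChar.map_zero_eq_one, range_zero,
      prod_empty]
  | succ L ih =>
    rw [prod_range_succ, ← ih (by rw [Finset.prod_range])]
    unfold kh
    rw [sum_KS_add hs h0D L 1, KS_one h0D hD]
    unfold tm
    rw [mul_sum]
    refine sum_congr rfl fun v _ => ?_
    rw [sum_mul]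
    refine sum_congr rfl fun u _ => ?_
    rw [← AddChar.map_add_eq_mul]
    congr 1
    push_cast
    ring

lemma norm_kh_le {s : ℕ} (hs : 2 ≤ s) {D : Finset ℕ} (h0D : 0 ∈ D) (hD : ∀ d ∈ D, d < s) {ρ : ℝ}
    (hρ : ∀ θ : ℝ, 1 / (s : ℝ) ^ 2 ≤ θ → θ ≤ 1 - 1 / (s : ℝ) ^ 2 → ‖ph D θ‖ ≤ ρ * D.card)
    (L : ℕ) (r : ZMod q) : ‖kh D s L r‖ ≤ (D.card : ℝ) ^ L * ρ ^ fq s r.val q L := by
  rw [kh_eq hs h0D hD]
  exact norm_prod_le hs D hρ r L

lemma kh_zero {s : ℕ} (hs : 2 ≤ s) {D : Finset ℕ} (h0D : 0 ∈ D) (hD : ∀ d ∈ D, d < s) (L : ℕ) :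
    kh D s L (0 : ZMod q) = (D.card : ℂ) ^ L := by
  unfold kh
  simp only [zero_mul, AddChar.map_zero_eq_one, sum_const, nsmul_eq_mul, mul_one]
  rw [card_KS hs h0D hD]
  push_cast
  rfl

/-- The number of elements of `KS` in a class. -/
noncomputable def cnt (D : Finset ℕ) (s L : ℕ) (z : ZMod q) : ℕ :=
  ((KS s D L).filter fun x : ℕ => (x : ZMod q) = z).card

/-- Fourier expansion of the counting function. -/
lemma cnt_eq (D : Finset ℕ) (s L : ℕ) (z : ZMod q) :
    (q : ℂ) * (cnt D s L z : ℂ) = ∑ r : ZMod q, kh D s L r * ZMod.stdAddChar (-(r * z)) := by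
  have h1 : ∀ x : ℕ, ∑ r : ZMod q, (ZMod.stdAddChar (r * ((x : ZMod q) - z)) : ℂ) =
      if (x : ZMod q) = z then (q : ℂ) else 0 := by
    intro x
    rw [AddChar.sum_mulShift _ (ZMod.isPrimitive_stdAddChar q), ZMod.card]
    by_cases h : (x : ZMod q) = z
    · rw [if_pos h, if_pos (sub_eq_zero.2 h)]
      try simp
    · rw [if_neg h, if_neg (sub_ne_zero.2 h)]
      try simp
  calc (q : ℂ) * (cnt D s L z : ℂ)
      = ∑ x ∈ KS s D L, if (x : ZMod q) = z then (q : ℂ) else 0 := by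
        unfold cnt
        rw [← sum_filter, sum_const, nsmul_eq_mul, mul_comm]
    _ = ∑ x ∈ KS s D L, ∑ r : ZMod q, (ZMod.stdAddChar (r * ((x : ZMod q) - z)) : ℂ) :=
        sum_congr rfl fun x _ => (h1 x).symm
    _ = ∑ r : ZMod q, ∑ x ∈ KS s D L, (ZMod.stdAddChar (r * ((x : ZMod q) - z)) : ℂ) := sum_comm
    _ = _ := by
        refine sum_congr rfl fun r _ => ?_
        unfold kh
        rw [sum_mul]
        refine sum_congr rfl fun x _ => ?_
        rw [← AddChar.map_add_eq_mul]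
        congr 1
        ring

end

end Pool.Agent.Lib.P1aceP
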