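import Mathlib
import Pool.Agent.Lib.P1aceS.Fourier
import Pool.Agent.Lib.P1aceS.Count

set_option autoImplicit false

/-!
# The sum over the frequencies with a power of the denominator
-/

namespace Pool.Agent.Lib.P1aceP

open Finset Pool.Agent.Lib.P1aceS

/-- The denominator of `r / q`. -/
def den (q : ℕ) (r : ZMod q) : ℕ := q / Nat.gcd r.val q

section

variable {q : ℕ} [NeZero q]

lemma gcd_pos' (r : ZMod q) : 0 < Nat.gcd r.val q := Nat.gcd_pos_of_pos_right _ (NeZero.pos q)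

lemma den_pos (r : ZMod q) : 0 < den q r :=
  Nat.div_pos (Nat.le_of_dvd (NeZero.pos q) (Nat.gcd_dvd_right _ _)) (gcd_pos' r)

lemma den_dvd (r : ZMod q) : den q r ∣ q := Nat.div_dvd_of_dvd (Nat.gcd_dvd_right _ _)

lemma gcd_mul_den (r : ZMod q) : Nat.gcd r.val q * den q r = q :=
  Nat.mul_div_cancel' (Nat.gcd_dvd_right _ _)

lemma den_le (r : ZMod q) : den q r ≤ q := Nat.le_of_dvd (NeZero.pos q) (den_dvd r)

lemma one_lt_den {r : ZMod q} (hr : r ≠ 0) : 1 < den q r := by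
  by_contra hcon
  have h1 : den q r = 1 := by have := den_pos r; omega
  have h2 := gcd_mul_den r
  rw [h1, mul_one] at h2
  have h3 : q ∣ r.val := by
    conv_lhs => rw [← h2]
    exact Nat.gcd_dvd_left _ _
  have h4 := ZMod.val_lt r
  have h5 : r.val = 0 := Nat.eq_zero_of_dvd_of_lt h3 h4
  exact hr ((ZMod.val_eq_zero r).1 h5)

lemma den_unit {u : ZMod q} (hu : IsUnit u) (r : ZMod q) : den q (r * u) = den q r := by
  unfold den
  congr 1
  rw [ZMod.val_mul]
  have h1 : Nat.Coprime u.val q := by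
    rw [← ZMod.natCast_zmod_val u] at hu
    exact (ZMod.isUnit_iff_coprime _ _).1 hu
  have h2 : Nat.gcd (r.val * u.val % q) q = Nat.gcd (r.val * u.val) q := by
    rw [← Nat.gcd_rec, Nat.gcd_comm]
  rw [h2]
  exact Nat.Coprime.gcd_mul_right_cancel _ h1

lemma dvd_val_mul_den (r : ZMod q) : q ∣ r.val * den q r := by
  obtain ⟨c, hc⟩ := Nat.gcd_dvd_left r.val q
  refine ⟨c, ?_⟩
  calc r.val * den q r = (Nat.gcd r.val q * c) * den q r := by rw [← hc]
    _ = (Nat.gcd r.val q * den q r) * c := by ring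
    _ = q * c := by rw [gcd_mul_den]

/-- The spacing of the fractions. -/
lemma spacing {r r' : ZMod q} (h : r.val < r'.val) :
    r.val * (den q r * den q r') + q ≤ r'.val * (den q r * den q r') := by
  have h1 : q ∣ r.val * (den q r * den q r') := by
    rw [← mul_assoc]; exact Dvd.dvd.mul_right (dvd_val_mul_den r) _
  have h2 : q ∣ r'.val * (den q r * den q r') := by
    rw [mul_comm (den q r), ← mul_assoc]; exact Dvd.dvd.mul_right (dvd_val_mul_den r') _
  have h0 : 0 < den q r * den q r' := Nat.mul_pos (den_pos r) (den_pos r')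
  have h3 : r.val * (den q r * den q r') < r'.val * (den q r * den q r') :=
    Nat.mul_lt_mul_of_pos_right h h0
  have h4 := Nat.le_of_dvd (by omega) (Nat.dvd_sub h2 h1)
  omega

/-- The frequencies whose denominators have a given size. -/
def cls (s q n : ℕ) [NeZero q] : Finset (ZMod q) :=
  univ.filter fun r => r ≠ 0 ∧ Nat.clog s (den q r) = n

lemma mem_cls {s n : ℕ} {r : ZMod q} : r ∈ cls s q n ↔ r ≠ 0 ∧ Nat.clog s (den q r) = n := by
  unfold cls
  rw [mem_filter]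
  simp

lemma cls_shift {s n : ℕ} {u : ZMod q} (hu : IsUnit u) (f : ZMod q → ℝ) :
    ∑ a ∈ cls s q n, f (a * u) = ∑ a ∈ cls s q n, f a := by
  obtain ⟨v, rfl⟩ := hu
  refine Finset.sum_equiv (Units.mulRight v) (fun a => ?_) fun a _ => rfl
  rw [mem_cls, mem_cls, Units.mulRight_apply, den_unit v.isUnit, Ne, Ne, Units.mul_left_eq_zero]

lemma den_le_pow {s n : ℕ} (hs : 2 ≤ s) {r : ZMod q} (hr : r ∈ cls s q n) : den q r ≤ s ^ n := by
  rw [mem_cls] at hr
  rw [← hr.2]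
  exact Nat.le_pow_clog (by omega) _

lemma cls_pos {s n : ℕ} (hs : 2 ≤ s) {r : ZMod q} (hr : r ∈ cls s q n) : 0 < n := by
  rw [mem_cls] at hr
  rw [← hr.2]
  exact Nat.clog_pos (by omega) (one_lt_den hr.1)

lemma cls_inj {s n : ℕ} (hs : 2 ≤ s) :
    Set.InjOn (fun a : ZMod q => a.val * s ^ (2 * n + 1) / q) (cls s q n : Set (ZMod q)) := by
  have hq0 : 0 < q := NeZero.pos q
  have key : ∀ x y : ZMod q, x ∈ cls s q n → y ∈ cls s q n → x.val < y.val →
      x.val * s ^ (2 * n + 1) / q < y.val * s ^ (2 * n + 1) / q := by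
    intro x y hx hy hxy
    rw [Nat.lt_iff_add_one_le, Nat.le_div_iff_mul_le hq0]
    have h1 : x.val * s ^ (2 * n + 1) / q * q ≤ x.val * s ^ (2 * n + 1) := Nat.div_mul_le_self _ _
    have h2 := spacing hxy
    have h3 : den q x * den q y ≤ s ^ (2 * n + 1) := by
      calc den q x * den q y ≤ s ^ n * s ^ n := Nat.mul_le_mul (den_le_pow hs hx) (den_le_pow hs hy)
        _ = s ^ (2 * n) := by rw [← pow_add]; congr 1; ring
        _ ≤ _ := Nat.pow_le_pow_right (by omega) (Nat.le_succ _)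
    obtain ⟨k, hk⟩ : ∃ k, y.val = x.val + k := ⟨y.val - x.val, by omega⟩
    rw [hk] at h2 ⊢
    have h4 : q ≤ k * (den q x * den q y) := by
      rw [add_mul] at h2; omega
    calc (x.val * s ^ (2 * n + 1) / q + 1) * q = x.val * s ^ (2 * n + 1) / q * q + q := by ring
      _ ≤ x.val * s ^ (2 * n + 1) + k * s ^ (2 * n + 1) :=
          Nat.add_le_add h1 (h4.trans (Nat.mul_le_mul_left _ h3))
      _ = (x.val + k) * s ^ (2 * n + 1) := by ring
  intro a ha a' ha' h
  simp only at h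
  rw [mem_coe] at ha ha'
  apply ZMod.val_injective q
  rcases lt_trichotomy a.val a'.val with h' | h' | h'
  · exact absurd h (key _ _ ha ha' h').ne
  · exact h'
  · exact absurd h (key _ _ ha' ha h').ne'

lemma cls_sum {s n : ℕ} (hs : 2 ≤ s) {t : ℝ} (ht : 0 ≤ t) :
    ∑ a ∈ cls s q n, t ^ fq s a.val q (2 * n) ≤ s * (1 + t * s) ^ (2 * n) := by
  classical
  have hq0 : 0 < q := NeZero.pos q
  have hs0 : 0 < s := by omega
  refine le_trans ?_ (transfer hs0 ht (2 * n))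
  calc ∑ a ∈ cls s q n, t ^ fq s a.val q (2 * n)
      = ∑ M ∈ (cls s q n).image (fun a : ZMod q => a.val * s ^ (2 * n + 1) / q),
          t ^ nq s M (2 * n) := by
        rw [sum_image (cls_inj hs)]
        exact sum_congr rfl fun a _ => by rw [nq_frac hs0]
    _ ≤ _ := by
        refine sum_le_sum_of_subset_of_nonneg (fun M hM => ?_) fun M _ _ => pow_nonneg ht _
        obtain ⟨a, _, rfl⟩ := mem_image.1 hM
        rw [mem_range, Nat.div_lt_iff_lt_mul hq0, mul_comm]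
        exact Nat.mul_lt_mul_of_pos_left (ZMod.val_lt a) (pow_pos hs0 _)

lemma one_le_change {s n : ℕ} (hs : 2 ≤ s) {r : ZMod q} (hr : r ∈ cls s q n) :
    1 ≤ fq s r.val q (2 * n) := by
  have hn := cls_pos hs hr
  have hd := den_le_pow hs hr
  have h1 := one_lt_den (mem_cls.1 hr).1
  obtain ⟨c, hc⟩ := Nat.gcd_dvd_left r.val q
  have hg := gcd_pos' r
  have hd2 := gcd_mul_den r
  have hlt := ZMod.val_lt r
  have hc0 : 0 < c := by
    rcases Nat.eq_zero_or_pos c with h | h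
    · exfalso
      rw [h, mul_zero] at hc
      exact (mem_cls.1 hr).1 ((ZMod.val_eq_zero r).1 hc)
    · exact h
  have hcd : c < den q r := by
    by_contra hcon
    push Not at hcon
    have := Nat.mul_le_mul_left (Nat.gcd r.val q) hcon
    omega
  have h2 : fq s r.val q (2 * n) = fq s c (den q r) (2 * n) := by
    have := fq_scale (s := s) (a := c) (b := den q r) hg (2 * n)
    rw [hd2, ← hc] at this
    exact this
  rw [h2]
  refine one_le_fq hs hc0 hcd (by omega) (hd.trans (Nat.pow_le_pow_right (by omega) (by omega)))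

/-- The sum over one class. -/
lemma cls_bound {s n : ℕ} (hs : 2 ≤ s) (hcop : Nat.Coprime s q) {ρ : ℝ} (hρ0 : 0 < ρ)
    (hρ1 : ρ < 1) {J : ℕ} (hJ : 0 < J) {L : ℕ} (hL : 2 * J * (2 * n) ≤ L) :
    ∑ a ∈ cls s q n, ρ ^ fq s a.val q L ≤
      2 * J * ρ ^ J * s * (1 + ρ ^ J * s) ^ (2 * n) := by
  have hsu : IsUnit (s : ZMod q) := (ZMod.isUnit_iff_coprime s q).2 hcop
  set τ := ρ ^ J with hτ
  have hτ0 : 0 < τ := pow_pos hρ0 _
  have hτ1 : τ ≤ 1 := pow_le_one₀ hρ0.le hρ1.le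
  have hτ2 : ρ ^ (2 * J) = τ ^ 2 := by rw [hτ, ← pow_mul]; congr 1; ring
  calc ∑ a ∈ cls s q n, ρ ^ fq s a.val q L
      ≤ ∑ a ∈ cls s q n, ρ ^ fq s a.val q (2 * J * (2 * n)) :=
        sum_le_sum fun a _ => pow_le_pow_of_le_one hρ0.le hρ1.le (fq_mono hL)
    _ ≤ ∑ a ∈ cls s q n, ∑ k ∈ range (2 * J),
          (ρ ^ (2 * J)) ^ fq s (a * (s : ZMod q) ^ (k * (2 * n))).val q (2 * n) :=
        sum_le_sum fun a _ => pow_windows s hρ0.le hρ1.le (2 * n) (by omega) a
    _ = ∑ k ∈ range (2 * J), ∑ a ∈ cls s q n,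
          (ρ ^ (2 * J)) ^ fq s (a * (s : ZMod q) ^ (k * (2 * n))).val q (2 * n) := sum_comm
    _ = ∑ k ∈ range (2 * J), ∑ a ∈ cls s q n, (τ ^ 2) ^ fq s a.val q (2 * n) := by
        refine sum_congr rfl fun k _ => ?_
        rw [hτ2]
        exact cls_shift (hsu.pow _) fun a => (τ ^ 2) ^ fq s a.val q (2 * n)
    _ = 2 * J * ∑ a ∈ cls s q n, (τ ^ 2) ^ fq s a.val q (2 * n) := by
        rw [sum_const, card_range, nsmul_eq_mul]; push_cast; ring
    _ ≤ 2 * J * ∑ a ∈ cls s q n, τ * τ ^ fq s a.val q (2 * n) := by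
        refine mul_le_mul_of_nonneg_left (sum_le_sum fun a ha => ?_) (by positivity)
        have h1 := one_le_change hs ha
        obtain ⟨m, hm⟩ : ∃ m, fq s a.val q (2 * n) = m + 1 := ⟨_, (Nat.sub_add_cancel h1).symm⟩
        rw [hm, ← pow_mul, ← pow_succ']
        exact pow_le_pow_of_le_one hτ0.le hτ1 (by omega)
    _ = 2 * J * τ * ∑ a ∈ cls s q n, τ ^ fq s a.val q (2 * n) := by rw [← mul_sum]; ring
    _ ≤ 2 * J * τ * (s * (1 + τ * s) ^ (2 * n)) :=
        mul_le_mul_of_nonneg_left (cls_sum hs hτ0.le) (by positivity)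
    _ = _ := by ring

end

/-- **The sum over the frequencies**, with a small power of the denominators. -/
theorem key {s : ℕ} (hs : 2 ≤ s) {ρ η ε : ℝ} (hρ0 : 0 < ρ) (hρ1 : ρ < 1) (hη : 0 < η)
    (hε : 0 < ε) : ∃ A : ℕ, 0 < A ∧ ∀ (q : ℕ) [NeZero q], Nat.Coprime s q → ∀ L : ℕ,
      A * Nat.clog s q ≤ L →
        ∑ r ∈ univ.erase (0 : ZMod q), ρ ^ fq s r.val q L * ((den q r : ℕ) : ℝ) ^ (-η) ≤ ε := by
  have hsr : (2 : ℝ) ≤ s := by exact_mod_cast hs
  have hs0 : (0 : ℝ) < s := by linarith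
  set γ : ℝ := (s : ℝ) ^ (-(η / 2)) with hγ
  have hγ0 : 0 < γ := Real.rpow_pos_of_pos hs0 _
  have hγ1 : γ < 1 := Real.rpow_lt_one_of_one_lt_of_neg (by linarith) (by linarith)
  have hγ2 : (s : ℝ) ^ (-η) = γ ^ 2 := by
    rw [hγ, ← Real.rpow_natCast, ← Real.rpow_mul hs0.le]
    congr 1; push_cast; ring
  -- the choice of the number of windows
  obtain ⟨J, hJ0, hJ1, hJ2⟩ : ∃ J : ℕ, 0 < J ∧ (1 + ρ ^ J * s) ^ 2 ≤ 1 / γ ∧
      2 * J * ρ ^ J * s * (1 / γ) * (γ⁻¹ * (1 - γ)⁻¹) ≤ ε := by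
    have t1 : Filter.Tendsto (fun J : ℕ => (1 + ρ ^ J * s) ^ 2) Filter.atTop (nhds 1) := by
      have h := tendsto_pow_atTop_nhds_zero_of_lt_one hρ0.le hρ1
      have h2 : Filter.Tendsto (fun J : ℕ => (1 + ρ ^ J * s) ^ 2) Filter.atTop
          (nhds ((1 + 0 * (s : ℝ)) ^ 2)) := ((h.mul_const _).const_add 1).pow 2
      simpa using h2
    have t2 : Filter.Tendsto (fun J : ℕ => 2 * J * ρ ^ J * s * (1 / γ) * (γ⁻¹ * (1 - γ)⁻¹)) Filter.atTop
        (nhds 0) := by
      have h := tendsto_self_mul_const_pow_of_lt_one hρ0.le hρ1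
      have h2 : Filter.Tendsto (fun J : ℕ => (J * ρ ^ J) * (2 * s * (1 / γ) * (γ⁻¹ * (1 - γ)⁻¹)))
          Filter.atTop (nhds (0 * (2 * s * (1 / γ) * (γ⁻¹ * (1 - γ)⁻¹)))) := h.mul_const _
      rw [zero_mul] at h2
      refine h2.congr fun J => by ring
    have e1 : ∀ᶠ J : ℕ in Filter.atTop, (1 + ρ ^ J * s) ^ 2 < 1 / γ :=
      t1.eventually_lt_const (by rw [lt_div_iff₀ hγ0]; linarith)
    have e2 : ∀ᶠ J : ℕ in Filter.atTop, 2 * J * ρ ^ J * s * (1 / γ) * (γ⁻¹ * (1 - γ)⁻¹) < ε :=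
      t2.eventually_lt_const hε
    obtain ⟨J, h1, h2, h3⟩ := (e1.and (e2.and (Filter.eventually_gt_atTop 0))).exists
    exact ⟨J, h3, h1.le, h2.le⟩
  refine ⟨4 * J, by omega, fun q _ hcop L hL => ?_⟩
  classical
  have hq0 : 0 < q := NeZero.pos q
  set τ := ρ ^ J with hτ
  have hτ0 : 0 < τ := pow_pos hρ0 _
  -- the classes
  have hsplit : ∑ r ∈ univ.erase (0 : ZMod q), ρ ^ fq s r.val q L * ((den q r : ℕ) : ℝ) ^ (-η) =
      ∑ n ∈ range (Nat.clog s q + 1), ∑ r ∈ cls s q n,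
        ρ ^ fq s r.val q L * ((den q r : ℕ) : ℝ) ^ (-η) := by
    rw [← Finset.sum_fiberwise_of_maps_to (s := univ.erase (0 : ZMod q))
      (t := range (Nat.clog s q + 1)) (g := fun r => Nat.clog s (den q r))]
    · refine sum_congr rfl fun n _ => sum_congr ?_ fun _ _ => rfl
      ext r
      rw [mem_filter, mem_erase, mem_cls]
      simp
    · intro r _
      rw [mem_range, Nat.lt_succ_iff]
      exact Nat.clog_mono_right _ (den_le r)
  rw [hsplit]
  have hcls : ∀ n ∈ range (Nat.clog s q + 1), ∑ r ∈ cls s q n,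
      ρ ^ fq s r.val q L * ((den q r : ℕ) : ℝ) ^ (-η) ≤
        2 * J * τ * s * (1 / γ) * (γ⁻¹ * γ ^ n) := by
    intro n hn
    rw [mem_range, Nat.lt_succ_iff] at hn
    rcases Nat.eq_zero_or_pos n with rfl | hn0
    · have h0 : cls s q 0 = ∅ := by
        rw [eq_empty_iff_forall_notMem]
        intro r hr
        exact absurd (cls_pos hs hr) (lt_irrefl 0)
      rw [h0, sum_empty]
      positivity
    obtain ⟨m, rfl⟩ : ∃ m, n = m + 1 := ⟨n - 1, by omega⟩
    have hden : ∀ r ∈ cls s q (m + 1), ((den q r : ℕ) : ℝ) ^ (-η) ≤ (γ ^ 2) ^ m := by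
      intro r hr
      have hr' := mem_cls.1 hr
      have h1 : s ^ m < den q r := by
        have := Nat.pow_pred_clog_lt_self (b := s) (by omega) (one_lt_den hr'.1)
        rw [hr'.2] at this
        exact this
      have h2 : ((s : ℝ) ^ m) ≤ ((den q r : ℕ) : ℝ) := by exact_mod_cast h1.le
      calc ((den q r : ℕ) : ℝ) ^ (-η) ≤ ((s : ℝ) ^ m) ^ (-η) :=
            Real.rpow_le_rpow_of_nonpos (by positivity) h2 (by linarith)
        _ = ((s : ℝ) ^ (-η)) ^ m := by
            rw [← Real.rpow_natCast, ← Real.rpow_natCast, ← Real.rpow_mul hs0.le,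
              ← Real.rpow_mul hs0.le, mul_comm]
        _ = _ := by rw [hγ2]
    have hLn : 2 * J * (2 * (m + 1)) ≤ L := by
      refine le_trans ?_ hL
      calc 2 * J * (2 * (m + 1)) = 4 * J * (m + 1) := by ring
        _ ≤ 4 * J * Nat.clog s q := Nat.mul_le_mul_left _ hn
    calc ∑ r ∈ cls s q (m + 1), ρ ^ fq s r.val q L * ((den q r : ℕ) : ℝ) ^ (-η)
        ≤ ∑ r ∈ cls s q (m + 1), ρ ^ fq s r.val q L * (γ ^ 2) ^ m :=
          sum_le_sum fun r hr => mul_le_mul_of_nonneg_left (hden r hr) (by positivity)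
      _ = (∑ r ∈ cls s q (m + 1), ρ ^ fq s r.val q L) * (γ ^ 2) ^ m := by rw [sum_mul]
      _ ≤ (2 * J * τ * s * (1 + τ * s) ^ (2 * (m + 1))) * (γ ^ 2) ^ m :=
          mul_le_mul_of_nonneg_right (cls_bound hs hcop hρ0 hρ1 hJ0 hLn) (by positivity)
      _ ≤ (2 * J * τ * s * (1 / γ) ^ (m + 1)) * (γ ^ 2) ^ m := by
          refine mul_le_mul_of_nonneg_right ?_ (by positivity)
          refine mul_le_mul_of_nonneg_left ?_ (by positivity)
          rw [pow_mul]
          exact pow_le_pow_left₀ (by positivity) hJ1 _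
      _ = _ := by
          rw [one_div, inv_pow, ← pow_mul, pow_mul' γ 2 m]
          field_simp
          ring
  calc ∑ n ∈ range (Nat.clog s q + 1), ∑ r ∈ cls s q n,
        ρ ^ fq s r.val q L * ((den q r : ℕ) : ℝ) ^ (-η)
      ≤ ∑ n ∈ range (Nat.clog s q + 1), 2 * J * τ * s * (1 / γ) * (γ⁻¹ * γ ^ n) := sum_le_sum hcls
    _ = 2 * J * τ * s * (1 / γ) * (γ⁻¹ * ∑ n ∈ range (Nat.clog s q + 1), γ ^ n) := by
        rw [mul_sum, mul_sum]
    _ ≤ 2 * J * τ * s * (1 / γ) * (γ⁻¹ * (1 - γ)⁻¹) := by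
        refine mul_le_mul_of_nonneg_left ?_ (by positivity)
        refine mul_le_mul_of_nonneg_left ?_ (by positivity)
        rw [← tsum_geometric_of_lt_one hγ0.le hγ1]
        exact (summable_geometric_of_lt_one hγ0.le hγ1).sum_le_tsum _ fun n _ => by positivity
    _ ≤ ε := hJ2

end Pool.Agent.Lib.P1aceP
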