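import Mathlib
import Pool.Agent.Lib.P1aceP.KeyL
import Pool.Agent.Lib.P1aceP.Defs

set_option autoImplicit false

/-!
# The bilinear sum over products of two integers with restricted digits

PROOF of `bilin`. `d = den r`, `k = clog_s d`, `m = min l (k - 1)`, `x = u + s ^ m v`, `u ∈ KS m`, `v ∈ KS (l - m)`. For fixed `v` the residues
`r x` are distinct (as `u < s ^ m ≤ d`) and are killed by `d`, and `|kh (r x)| ≤ |D| ^ L ρ ^ fq (r x)`. The sum of `ρ ^ fq z` over all `z` killed by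
`d` is at most `1 + d ^ η ∑_{z ≠ 0} ρ ^ fq z den(z) ^ (-η) ≤ 1 + d ^ η`. Last, `m ≥ β (k - 1)` and `d ^ (2 η) ≤ 2 ^ (β k)`.
-/

namespace Pool.Agent.Lib.P1aceP

open Finset Pool.Agent.Lib.P1aceS

section

variable {q : ℕ} [NeZero q]

lemma den_dvd_of {n : ℕ} {z : ZMod q} (h : (n : ZMod q) * z = 0) : den q z ∣ n := by
  have h1 : q ∣ n * z.val := by
    rw [← ZMod.natCast_eq_zero_iff]
    push_cast
    rw [ZMod.natCast_zmod_val, h]
  have hg := gcd_pos' z
  have hcop : Nat.Coprime (den q z) (z.val / Nat.gcd z.val q) := by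
    unfold den
    rw [Nat.coprime_comm]
    exact Nat.coprime_div_gcd_div_gcd hg
  have h2 : den q z ∣ n * (z.val / Nat.gcd z.val q) := by
    have h3 : Nat.gcd z.val q * den q z ∣ Nat.gcd z.val q * (n * (z.val / Nat.gcd z.val q)) := by
      rw [gcd_mul_den]
      have : Nat.gcd z.val q * (n * (z.val / Nat.gcd z.val q)) = n * z.val := by
        rw [mul_left_comm, Nat.mul_div_cancel' (Nat.gcd_dvd_left _ _)]
      rw [this]; exact h1
    exact Nat.dvd_of_mul_dvd_mul_left hg h3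
  exact hcop.dvd_of_dvd_mul_right h2

lemma den_mul_self (r : ZMod q) : ((den q r : ℕ) : ZMod q) * r = 0 := by
  have h := dvd_val_mul_den r
  rw [← ZMod.natCast_eq_zero_iff] at h
  push_cast at h
  rw [ZMod.natCast_zmod_val] at h
  rw [mul_comm]; exact h

lemma mul_inj_lt {r : ZMod q} {x y : ℕ} (hxy : x ≤ y) (hlt : y - x < den q r)
    (h : r * (x : ZMod q) = r * (y : ZMod q)) : x = y := by
  have h1 : ((y - x : ℕ) : ZMod q) * r = 0 := by
    rw [Nat.cast_sub hxy]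
    linear_combination (-1 : ZMod q) * h
  have h2 := Nat.eq_zero_of_dvd_of_lt (den_dvd_of h1) hlt
  omega

/-- The sum over the frequencies killed by `d`. -/
lemma killed_sum {s : ℕ} {ρ η : ℝ} (hρ0 : 0 < ρ) (hρ1 : ρ ≤ 1) (hη : 0 < η) {L : ℕ}
    (hkey : ∑ r ∈ univ.erase (0 : ZMod q), ρ ^ fq s r.val q L * ((den q r : ℕ) : ℝ) ^ (-η) ≤ 1)
    {d : ℕ} (hd : 0 < d) :
    ∑ z ∈ univ.filter (fun z : ZMod q => (d : ZMod q) * z = 0), ρ ^ fq s z.val q L ≤
      1 + (d : ℝ) ^ η := by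
  classical
  have hdr : (0 : ℝ) < d := by exact_mod_cast hd
  have h0 : (0 : ZMod q) ∈ univ.filter (fun z : ZMod q => (d : ZMod q) * z = 0) := by simp
  rw [← Finset.add_sum_erase _ _ h0]
  refine add_le_add (pow_le_one₀ hρ0.le hρ1) ?_
  calc ∑ z ∈ (univ.filter (fun z : ZMod q => (d : ZMod q) * z = 0)).erase 0, ρ ^ fq s z.val q L
      ≤ ∑ z ∈ (univ.filter (fun z : ZMod q => (d : ZMod q) * z = 0)).erase 0,
          (d : ℝ) ^ η * (ρ ^ fq s z.val q L * ((den q z : ℕ) : ℝ) ^ (-η)) := by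
        refine sum_le_sum fun z hz => ?_
        rw [mem_erase, mem_filter] at hz
        have h1 : den q z ≤ d := Nat.le_of_dvd hd (den_dvd_of hz.2.2)
        have h2 : (0 : ℝ) < den q z := by exact_mod_cast den_pos z
        have h3 : (d : ℝ) ^ (-η) ≤ ((den q z : ℕ) : ℝ) ^ (-η) :=
          Real.rpow_le_rpow_of_nonpos h2 (by exact_mod_cast h1) (by linarith)
        have h4 : (1 : ℝ) = (d : ℝ) ^ η * (d : ℝ) ^ (-η) := by
          rw [← Real.rpow_add hdr, add_neg_cancel, Real.rpow_zero]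
        have h5 : (0 : ℝ) ≤ ρ ^ fq s z.val q L := pow_nonneg hρ0.le _
        have h6 : (0 : ℝ) ≤ (d : ℝ) ^ η := Real.rpow_nonneg hdr.le _
        calc ρ ^ fq s z.val q L = ((d : ℝ) ^ η * (d : ℝ) ^ (-η)) * ρ ^ fq s z.val q L := by
              rw [← h4, one_mul]
          _ = (d : ℝ) ^ η * (ρ ^ fq s z.val q L * (d : ℝ) ^ (-η)) := by ring
          _ ≤ _ := by gcongr
    _ ≤ ∑ z ∈ univ.erase (0 : ZMod q),
          (d : ℝ) ^ η * (ρ ^ fq s z.val q L * ((den q z : ℕ) : ℝ) ^ (-η)) := by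
        refine sum_le_sum_of_subset_of_nonneg (erase_subset_erase _ (filter_subset _ _)) ?_
        intro z _ _
        have h2 : (0 : ℝ) < den q z := by exact_mod_cast den_pos z
        positivity
    _ = (d : ℝ) ^ η * ∑ z ∈ univ.erase (0 : ZMod q), ρ ^ fq s z.val q L * ((den q z : ℕ) : ℝ) ^ (-η) := by
        rw [mul_sum]
    _ ≤ (d : ℝ) ^ η * 1 := mul_le_mul_of_nonneg_left hkey (Real.rpow_nonneg hdr.le _)
    _ = _ := mul_one _

/-- The sum over the low digits. -/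
lemma low_sum {s : ℕ} (D : Finset ℕ) {ρ : ℝ} (hρ0 : 0 < ρ) (L : ℕ) (r : ZMod q) {m : ℕ}
    (hm : s ^ m ≤ den q r) (v : ℕ) :
    ∑ u ∈ KS s D m, ρ ^ fq s (r * ((u + s ^ m * v : ℕ) : ZMod q)).val q L ≤
      ∑ z ∈ univ.filter (fun z : ZMod q => ((den q r : ℕ) : ZMod q) * z = 0), ρ ^ fq s z.val q L := by
  classical
  have hinj : Set.InjOn (fun u : ℕ => r * ((u + s ^ m * v : ℕ) : ZMod q)) (KS s D m : Set ℕ) := by
    intro x hx y hy hxy
    have hx' : x < s ^ m := (mem_KS.1 (mem_coe.1 hx)).1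
    have hy' : y < s ^ m := (mem_KS.1 (mem_coe.1 hy)).1
    simp only at hxy
    rcases le_total x y with h | h
    · have := mul_inj_lt (r := r) (x := x + s ^ m * v) (y := y + s ^ m * v) (by omega) (by omega) hxy
      omega
    · have := mul_inj_lt (r := r) (x := y + s ^ m * v) (y := x + s ^ m * v) (by omega) (by omega) hxy.symm
      omega
  calc ∑ u ∈ KS s D m, ρ ^ fq s (r * ((u + s ^ m * v : ℕ) : ZMod q)).val q L
      = ∑ z ∈ (KS s D m).image (fun u : ℕ => r * ((u + s ^ m * v : ℕ) : ZMod q)),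
          ρ ^ fq s z.val q L := by
        rw [sum_image hinj]
    _ ≤ _ := by
        refine sum_le_sum_of_subset_of_nonneg (fun z hz => ?_) fun z _ _ => pow_nonneg hρ0.le _
        obtain ⟨u, _, rfl⟩ := mem_image.1 hz
        rw [mem_filter]
        refine ⟨mem_univ _, ?_⟩
        rw [← mul_assoc, den_mul_self, zero_mul]

end

lemma two_le_card {D : Finset ℕ} (h0D : 0 ∈ D) (hg : D.gcd id = 1) : 2 ≤ D.card := by
  by_contra hcon
  have h1 : D.card = 1 := by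
    have : 0 < D.card := card_pos.2 ⟨0, h0D⟩
    omega
  obtain ⟨a, ha⟩ := card_eq_one.1 h1
  rw [ha, mem_singleton] at h0D
  rw [ha, ← h0D] at hg
  simp at hg

theorem bilin {s : ℕ} (hs : 2 ≤ s) {D : Finset ℕ} (h0D : 0 ∈ D) (hD : ∀ d ∈ D, d < s)
    (h2 : 2 ≤ D.card) {ρ : ℝ} (hρ0 : 0 < ρ) (hρ1 : ρ < 1)
    (hρ : ∀ θ : ℝ, 1 / (s : ℝ) ^ 2 ≤ θ → θ ≤ 1 - 1 / (s : ℝ) ^ 2 → ‖ph D θ‖ ≤ ρ * D.card)
    {q : ℕ} [NeZero q] {L l : ℕ} {β : ℝ} (hβ0 : 0 < β) (hβ1 : β ≤ 1)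
    (hl : β * Nat.clog s q ≤ l)
    (hX : ∑ r ∈ univ.erase (0 : ZMod q), ρ ^ fq s r.val q L *
      ((den q r : ℕ) : ℝ) ^ (-(β * (Real.log 2 / (2 * Real.log s)))) ≤ 1) (r : ZMod q) :
    ‖∑ x ∈ KS s D l, kh D s L (r * (x : ZMod q))‖ ≤ 4 * (D.card : ℝ) ^ (l + L) *
      ((den q r : ℕ) : ℝ) ^ (-(β * (Real.log 2 / (2 * Real.log s)))) := by
  have hcr : (2 : ℝ) ≤ D.card := by exact_mod_cast h2
  have hc0 : (0 : ℝ) < D.card := by linarith
  have hsr : (2 : ℝ) ≤ s := by exact_mod_cast hs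
  have hs0 : (0 : ℝ) < s := by linarith
  have hls : 0 < Real.log s := Real.log_pos (by linarith)
  have hl2 : 0 < Real.log 2 := Real.log_pos (by norm_num)
  set η : ℝ := β * (Real.log 2 / (2 * Real.log s)) with hη
  have hη0 : 0 < η := by positivity
  have hsη : (s : ℝ) ^ (2 * η) = (2 : ℝ) ^ β := by
    rw [Real.rpow_def_of_pos hs0, Real.rpow_def_of_pos (by norm_num : (0 : ℝ) < 2), hη]
    congr 1
    field_simp
  have hd := den_pos r
  have hdr : (1 : ℝ) ≤ den q r := by exact_mod_cast hd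
  have hdr0 : (0 : ℝ) < den q r := by linarith
  set d : ℕ := den q r with hdd
  set k : ℕ := Nat.clog s d with hk
  have hkq : k ≤ Nat.clog s q := Nat.clog_mono_right s (den_le r)
  have hdk : d ≤ s ^ k := Nat.le_pow_clog (by omega) d
  obtain ⟨m, hml, hmd, hmβ⟩ : ∃ m : ℕ, m ≤ l ∧ s ^ m ≤ d ∧ β * ((k : ℝ) - 1) ≤ m := by
    refine ⟨min l (k - 1), min_le_left _ _, ?_, ?_⟩
    · rcases Nat.eq_zero_or_pos k with h | h
      · rw [h]
        simp only [Nat.zero_sub, Nat.min_zero, pow_zero]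
        exact hd
      · have h1 : s ^ (k - 1) < d := by
          have h3 : k - 1 < Nat.clog s d := by omega
          exact (Nat.lt_clog_iff_pow_lt (by omega)).1 h3
        exact (Nat.pow_le_pow_right (by omega) (min_le_right _ _)).trans h1.le
    · rcases Nat.eq_zero_or_pos k with h | h
      · rw [h]
        have h1 : (0 : ℝ) ≤ ((min l (0 - 1) : ℕ) : ℝ) := Nat.cast_nonneg _
        push_cast at h1 ⊢
        nlinarith
      · have h1 : ((k - 1 : ℕ) : ℝ) = (k : ℝ) - 1 := by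
          rw [Nat.cast_sub h]; push_cast; ring
        have hk1 : (1 : ℝ) ≤ k := by exact_mod_cast h
        rw [Nat.cast_min, h1]
        refine le_min ?_ ?_
        · have h2 : (k : ℝ) ≤ Nat.clog s q := by exact_mod_cast hkq
          calc β * ((k : ℝ) - 1) ≤ β * Nat.clog s q := by
                apply mul_le_mul_of_nonneg_left _ hβ0.le
                linarith
            _ ≤ l := hl
        · nlinarith
  obtain ⟨n, hn⟩ : ∃ n, l = m + n := ⟨l - m, by omega⟩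
  have hlow : ∀ v : ℕ, ∑ u ∈ KS s D m, ρ ^ fq s (r * ((u + s ^ m * v : ℕ) : ZMod q)).val q L ≤
      2 * (d : ℝ) ^ η := by
    intro v
    refine (low_sum D hρ0 L r hmd v).trans ((killed_sum hρ0 hρ1.le hη0 hX hd).trans ?_)
    have : (1 : ℝ) ≤ (d : ℝ) ^ η := Real.one_le_rpow hdr hη0.le
    linarith
  have hsum : ‖∑ x ∈ KS s D l, kh D s L (r * (x : ZMod q))‖ ≤
      (D.card : ℝ) ^ L * ((D.card : ℝ) ^ n * (2 * (d : ℝ) ^ η)) := by
    calc ‖∑ x ∈ KS s D l, kh D s L (r * (x : ZMod q))‖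
        ≤ ∑ x ∈ KS s D l, (D.card : ℝ) ^ L * ρ ^ fq s (r * (x : ZMod q)).val q L :=
          norm_sum_le_of_le _ fun x _ => norm_kh_le hs h0D hD hρ L _
      _ = (D.card : ℝ) ^ L * ∑ x ∈ KS s D l, ρ ^ fq s (r * (x : ZMod q)).val q L := by
          rw [mul_sum]
      _ = (D.card : ℝ) ^ L * ∑ v ∈ KS s D n, ∑ u ∈ KS s D m,
            ρ ^ fq s (r * ((u + s ^ m * v : ℕ) : ZMod q)).val q L := by
          congr 1
          have hK : KS s D l = KS s D (m + n) := by rw [← hn]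
          rw [hK]
          exact sum_KS_add hs h0D m n (fun x => ρ ^ fq s (r * (x : ZMod q)).val q L)
      _ ≤ (D.card : ℝ) ^ L * ∑ v ∈ KS s D n, 2 * (d : ℝ) ^ η := by
          gcongr with v hv
          exact hlow v
      _ = _ := by
          rw [sum_const, card_KS hs h0D hD, nsmul_eq_mul]
          push_cast
          ring
  refine hsum.trans ?_
  have hbig : (d : ℝ) ^ (2 * η) ≤ 2 * (D.card : ℝ) ^ m := by
    have h1 : (d : ℝ) ≤ (s : ℝ) ^ k := by exact_mod_cast hdk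
    calc (d : ℝ) ^ (2 * η) ≤ ((s : ℝ) ^ k) ^ (2 * η) :=
          Real.rpow_le_rpow hdr0.le h1 (by positivity)
      _ = ((s : ℝ) ^ (2 * η)) ^ k := by
          rw [← Real.rpow_natCast, ← Real.rpow_mul hs0.le, ← Real.rpow_natCast ((s : ℝ) ^ (2 * η)),
            ← Real.rpow_mul hs0.le, mul_comm]
      _ = (2 : ℝ) ^ (β * k) := by
          rw [hsη, ← Real.rpow_natCast, ← Real.rpow_mul (by norm_num)]
      _ ≤ (2 : ℝ) ^ (1 + (m : ℝ)) := by
          apply Real.rpow_le_rpow_of_exponent_le (by norm_num)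
          linarith
      _ = 2 * (2 : ℝ) ^ m := by
          rw [Real.rpow_add (by norm_num), Real.rpow_one, Real.rpow_natCast]
      _ ≤ _ := by gcongr
  have e1 : (d : ℝ) ^ η = (d : ℝ) ^ (2 * η) * (d : ℝ) ^ (-η) := by
    rw [← Real.rpow_add hdr0]; congr 1; ring
  have hneg : (0 : ℝ) ≤ (d : ℝ) ^ (-η) := Real.rpow_nonneg hdr0.le _
  calc (D.card : ℝ) ^ L * ((D.card : ℝ) ^ n * (2 * (d : ℝ) ^ η))
      = (D.card : ℝ) ^ L * ((D.card : ℝ) ^ n * (2 * ((d : ℝ) ^ (2 * η) * (d : ℝ) ^ (-η)))) := by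
        rw [← e1]
    _ ≤ (D.card : ℝ) ^ L * ((D.card : ℝ) ^ n * (2 * ((2 * (D.card : ℝ) ^ m) * (d : ℝ) ^ (-η)))) := by
        gcongr
    _ = 4 * (D.card : ℝ) ^ (l + L) * (d : ℝ) ^ (-η) := by
        rw [hn, pow_add, pow_add]
        ring

end Pool.Agent.Lib.P1aceP
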