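import Mathlib
import Pool.Agent.Lib.P1aceP.BilinB

set_option autoImplicit false

/-!
# Sums `x + a y`: most multipliers `a` work for all classes

PROOF of `dil_bad`. `q · #{x + a y = lam} - |D|^(2L) = ∑_{r ≠ 0} kh(r) kh(ra) e(-r lam)`, at most `F(a) = ∑_{r ≠ 0} |kh(r)| |kh(ra)|`. Now
`∑_{a ∈ T} |kh(ra)| ≤ |D|^L ∑_{z mod d} #{a ∈ T : a = z mod d} ρ^(fq(rz)) ≤ |D|^L 2 |T| d^(-2η) (1 + d^η) ≤ 4 |T| |D|^L d^(-η)`, `d = den r`.
So `∑_{a ∈ T} F(a) ≤ 4 |T| |D|^(2L) ε'`, and the `a` with `F(a) > ε |D|^(2L)` are at most `4 ε' |T| / ε ≤ ε |T|`.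
-/

namespace Pool.Agent.Lib.P1aceP

open Finset Pool.Agent.Lib.P1aceS

section

variable {q : ℕ} [NeZero q]

/-- The number of pairs of integers with restricted digits with `x + a y = lam` modulo `q`. -/
noncomputable def dil (D : Finset ℕ) (s L a : ℕ) (lam : ZMod q) : ℕ :=
  ((KS s D L ×ˢ KS s D L).filter fun p : ℕ × ℕ => ((p.1 + a * p.2 : ℕ) : ZMod q) = lam).card

lemma dil_eq (D : Finset ℕ) (s L a : ℕ) (lam : ZMod q) :
    dil D s L a lam = ∑ y ∈ KS s D L, cnt D s L (lam - (a : ZMod q) * (y : ZMod q)) := by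
  classical
  unfold dil cnt
  rw [card_filter, sum_product_right]
  refine sum_congr rfl fun y _ => ?_
  rw [card_filter]
  refine sum_congr rfl fun z _ => ?_
  congr 1
  push_cast
  rw [eq_sub_iff_add_eq]

lemma dil_fourier (D : Finset ℕ) (s L a : ℕ) (lam : ZMod q) :
    (q : ℂ) * (dil D s L a lam : ℂ) = ∑ r : ZMod q, kh D s L r * ZMod.stdAddChar (-(r * lam)) *
      kh D s L (r * (a : ZMod q)) := by
  rw [dil_eq]
  push_cast
  rw [mul_sum]
  calc ∑ y ∈ KS s D L, (q : ℂ) * (cnt D s L (lam - (a : ZMod q) * (y : ZMod q)) : ℂ)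
      = ∑ y ∈ KS s D L, ∑ r : ZMod q,
          kh D s L r * ZMod.stdAddChar (-(r * (lam - (a : ZMod q) * (y : ZMod q)))) :=
        sum_congr rfl fun y _ => cnt_eq D s L _
    _ = ∑ r : ZMod q, ∑ y ∈ KS s D L,
          kh D s L r * ZMod.stdAddChar (-(r * (lam - (a : ZMod q) * (y : ZMod q)))) := sum_comm
    _ = _ := by
        refine sum_congr rfl fun r _ => ?_
        have h1 : kh D s L (r * (a : ZMod q)) =
            ∑ y ∈ KS s D L, ZMod.stdAddChar (r * (a : ZMod q) * (y : ZMod q)) := rfl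
        rw [h1, mul_sum]
        refine sum_congr rfl fun y _ => ?_
        rw [mul_assoc, ← AddChar.map_add_eq_mul]
        congr 2
        ring

/-- The sum over a complete residue system modulo the denominator. -/
lemma res_sum {s : ℕ} {ρ : ℝ} (hρ0 : 0 < ρ) (L : ℕ) (r : ZMod q) :
    ∑ z ∈ range (den q r), ρ ^ fq s (r * (z : ZMod q)).val q L ≤
      ∑ z ∈ univ.filter (fun z : ZMod q => ((den q r : ℕ) : ZMod q) * z = 0), ρ ^ fq s z.val q L := by
  classical
  have hinj : Set.InjOn (fun u : ℕ => r * (u : ZMod q)) (range (den q r) : Set ℕ) := by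
    intro x hx y hy hxy
    rw [mem_coe, mem_range] at hx hy
    simp only at hxy
    rcases le_total x y with h | h
    · exact mul_inj_lt (r := r) h (by omega) hxy
    · exact (mul_inj_lt (r := r) h (by omega) hxy.symm).symm
  calc ∑ z ∈ range (den q r), ρ ^ fq s (r * (z : ZMod q)).val q L
      = ∑ z ∈ (range (den q r)).image (fun u : ℕ => r * (u : ZMod q)), ρ ^ fq s z.val q L := by
        rw [sum_image hinj]
    _ ≤ _ := by
        refine sum_le_sum_of_subset_of_nonneg (fun z hz => ?_) fun z _ _ => pow_nonneg hρ0.le _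
        obtain ⟨u, _, rfl⟩ := mem_image.1 hz
        rw [mem_filter]
        refine ⟨mem_univ _, ?_⟩
        rw [← mul_assoc, den_mul_self, zero_mul]

/-- The average over the multipliers. -/
lemma mult_sum {s : ℕ} {ρ η : ℝ} (hρ0 : 0 < ρ) (hρ1 : ρ ≤ 1) (hη : 0 < η) {L : ℕ}
    (hkey : ∑ r ∈ univ.erase (0 : ZMod q), ρ ^ fq s r.val q L * ((den q r : ℕ) : ℝ) ^ (-η) ≤ 1)
    (T : Finset ℕ) (hmult : ∀ d : ℕ, 0 < d → d ≤ q → ∀ z : ℕ,
      ((T.filter fun a => a % d = z).card : ℝ) ≤ 2 * T.card * (d : ℝ) ^ (-(2 * η))) (r : ZMod q) :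
    ∑ a ∈ T, ρ ^ fq s (r * (a : ZMod q)).val q L ≤
      4 * T.card * ((den q r : ℕ) : ℝ) ^ (-η) := by
  classical
  have hd := den_pos r
  have hdq := den_le r
  have hdr : (1 : ℝ) ≤ den q r := by exact_mod_cast hd
  have hdr0 : (0 : ℝ) < den q r := by linarith
  have hT : (0 : ℝ) ≤ T.card := by positivity
  set d : ℕ := den q r with hdd
  have hred : ∀ a : ℕ, r * (a : ZMod q) = r * ((a % d : ℕ) : ZMod q) := by
    intro a
    have h1 : (a : ZMod q) = ((a % d : ℕ) : ZMod q) + (d : ZMod q) * ((a / d : ℕ) : ZMod q) := by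
      have := Nat.mod_add_div a d
      conv_lhs => rw [← this]
      push_cast
      ring
    have h2 : (d : ZMod q) * r = 0 := den_mul_self r
    rw [h1]
    linear_combination ((a / d : ℕ) : ZMod q) * h2
  have h1 : ∑ a ∈ T, ρ ^ fq s (r * (a : ZMod q)).val q L =
      ∑ z ∈ range d, ∑ a ∈ T.filter (fun a => a % d = z), ρ ^ fq s (r * (a : ZMod q)).val q L := by
    rw [sum_fiberwise_of_maps_to]
    intro a _
    rw [mem_range]
    exact Nat.mod_lt _ hd
  have h2 : ∑ z ∈ range d, ∑ a ∈ T.filter (fun a => a % d = z), ρ ^ fq s (r * (a : ZMod q)).val q L ≤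
      ∑ z ∈ range d, (2 * T.card * (d : ℝ) ^ (-(2 * η))) * ρ ^ fq s (r * (z : ZMod q)).val q L := by
    refine sum_le_sum fun z _ => ?_
    have h3 : ∑ a ∈ T.filter (fun a => a % d = z), ρ ^ fq s (r * (a : ZMod q)).val q L =
        ((T.filter fun a => a % d = z).card : ℝ) * ρ ^ fq s (r * (z : ZMod q)).val q L := by
      rw [sum_congr rfl (g := fun _ => ρ ^ fq s (r * (z : ZMod q)).val q L), sum_const, nsmul_eq_mul]
      intro a ha
      rw [mem_filter] at ha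
      rw [hred a, ha.2]
    rw [h3]
    exact mul_le_mul_of_nonneg_right (hmult d hd hdq z) (pow_nonneg hρ0.le _)
  have hdη : (1 : ℝ) ≤ (d : ℝ) ^ η := Real.one_le_rpow hdr hη.le
  have h4 : ∑ z ∈ range d, ρ ^ fq s (r * (z : ZMod q)).val q L ≤ 2 * (d : ℝ) ^ η := by
    refine (res_sum hρ0 L r).trans ((killed_sum hρ0 hρ1 hη hkey hd).trans ?_)
    linarith
  have hneg : (0 : ℝ) ≤ (d : ℝ) ^ (-(2 * η)) := Real.rpow_nonneg hdr0.le _
  calc ∑ a ∈ T, ρ ^ fq s (r * (a : ZMod q)).val q L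
      ≤ ∑ z ∈ range d, (2 * T.card * (d : ℝ) ^ (-(2 * η))) * ρ ^ fq s (r * (z : ZMod q)).val q L :=
        h1.le.trans h2
    _ = (2 * T.card * (d : ℝ) ^ (-(2 * η))) * ∑ z ∈ range d, ρ ^ fq s (r * (z : ZMod q)).val q L := by
        rw [mul_sum]
    _ ≤ (2 * T.card * (d : ℝ) ^ (-(2 * η))) * (2 * (d : ℝ) ^ η) :=
        mul_le_mul_of_nonneg_left h4 (mul_nonneg (mul_nonneg (by norm_num) hT) hneg)
    _ = 4 * T.card * ((d : ℝ) ^ (-(2 * η)) * (d : ℝ) ^ η) := by ring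
    _ = 4 * T.card * (d : ℝ) ^ (-η) := by
        rw [← Real.rpow_add hdr0]
        congr 2
        ring

end

theorem dil_bad {s : ℕ} (hs : 2 ≤ s) {D : Finset ℕ} (h0D : 0 ∈ D) (hD : ∀ d ∈ D, d < s) {ρ : ℝ}
    (hρ0 : 0 < ρ) (hρ1 : ρ < 1)
    (hρ : ∀ θ : ℝ, 1 / (s : ℝ) ^ 2 ≤ θ → θ ≤ 1 - 1 / (s : ℝ) ^ 2 → ‖ph D θ‖ ≤ ρ * D.card)
    {q : ℕ} [NeZero q] {L : ℕ} (T : Finset ℕ) {η ε ε' : ℝ} (hη : 0 < η) (hε : 0 < ε)
    (hmult : ∀ d : ℕ, 0 < d → d ≤ q → ∀ z : ℕ,
      ((T.filter fun a => a % d = z).card : ℝ) ≤ 2 * T.card * (d : ℝ) ^ (-(2 * η)))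
    (hX : ∑ r ∈ univ.erase (0 : ZMod q), ρ ^ fq s r.val q L * ((den q r : ℕ) : ℝ) ^ (-η) ≤ ε')
    (hε' : ε' ≤ 1) (h4 : 4 * ε' ≤ ε ^ 2) :
    ∃ B : Finset ℕ, B ⊆ T ∧ (B.card : ℝ) ≤ ε * T.card ∧ ∀ a ∈ T, a ∉ B → ∀ lam : ZMod q,
      |(q : ℝ) * dil D s L a lam - (D.card : ℝ) ^ (2 * L)| ≤ ε * (D.card : ℝ) ^ (2 * L) := by
  classical
  have hcpos : 0 < D.card := card_pos.2 ⟨0, h0D⟩
  have hc0 : (0 : ℝ) < D.card := by exact_mod_cast hcpos
  have hDL : (0 : ℝ) < (D.card : ℝ) ^ (2 * L) := by positivity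
  set F : ℕ → ℝ := fun a => ∑ r ∈ univ.erase (0 : ZMod q),
    ‖kh D s L r‖ * ‖kh D s L (r * (a : ZMod q))‖ with hF
  have hF0 : ∀ a, 0 ≤ F a := fun a => sum_nonneg fun r _ => mul_nonneg (norm_nonneg _) (norm_nonneg _)
  refine ⟨T.filter fun a => ε * (D.card : ℝ) ^ (2 * L) < F a, filter_subset _ _, ?_, ?_⟩
  · have h1 : ((T.filter fun a => ε * (D.card : ℝ) ^ (2 * L) < F a).card : ℝ) *
        (ε * (D.card : ℝ) ^ (2 * L)) ≤ ∑ a ∈ T, F a := by
      calc ((T.filter fun a => ε * (D.card : ℝ) ^ (2 * L) < F a).card : ℝ) *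
            (ε * (D.card : ℝ) ^ (2 * L))
          = ∑ a ∈ T.filter (fun a => ε * (D.card : ℝ) ^ (2 * L) < F a),
              ε * (D.card : ℝ) ^ (2 * L) := by rw [sum_const, nsmul_eq_mul]
        _ ≤ ∑ a ∈ T.filter (fun a => ε * (D.card : ℝ) ^ (2 * L) < F a), F a :=
            sum_le_sum fun a ha => (mem_filter.1 ha).2.le
        _ ≤ ∑ a ∈ T, F a := sum_le_sum_of_subset_of_nonneg (filter_subset _ _) fun a _ _ => hF0 a
    have h2 : ∑ a ∈ T, F a ≤ 4 * T.card * (D.card : ℝ) ^ (2 * L) * ε' := by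
      calc ∑ a ∈ T, F a = ∑ r ∈ univ.erase (0 : ZMod q),
            ‖kh D s L r‖ * ∑ a ∈ T, ‖kh D s L (r * (a : ZMod q))‖ := by
            rw [hF, sum_comm]
            refine sum_congr rfl fun r _ => ?_
            rw [mul_sum]
        _ ≤ ∑ r ∈ univ.erase (0 : ZMod q), (4 * T.card * (D.card : ℝ) ^ (2 * L)) *
              (ρ ^ fq s r.val q L * ((den q r : ℕ) : ℝ) ^ (-η)) := by
            refine sum_le_sum fun r _ => ?_
            have e1 := norm_kh_le hs h0D hD hρ L r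
            have e2 : ∑ a ∈ T, ‖kh D s L (r * (a : ZMod q))‖ ≤
                (D.card : ℝ) ^ L * (4 * T.card * ((den q r : ℕ) : ℝ) ^ (-η)) := by
              calc ∑ a ∈ T, ‖kh D s L (r * (a : ZMod q))‖
                  ≤ ∑ a ∈ T, (D.card : ℝ) ^ L * ρ ^ fq s (r * (a : ZMod q)).val q L :=
                    sum_le_sum fun a _ => norm_kh_le hs h0D hD hρ L _
                _ = (D.card : ℝ) ^ L * ∑ a ∈ T, ρ ^ fq s (r * (a : ZMod q)).val q L := by
                    rw [mul_sum]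
                _ ≤ _ := mul_le_mul_of_nonneg_left
                    (mult_sum hρ0 hρ1.le hη (hX.trans hε') T hmult r) (by positivity)
            calc ‖kh D s L r‖ * ∑ a ∈ T, ‖kh D s L (r * (a : ZMod q))‖
                ≤ ((D.card : ℝ) ^ L * ρ ^ fq s r.val q L) *
                    ((D.card : ℝ) ^ L * (4 * T.card * ((den q r : ℕ) : ℝ) ^ (-η))) :=
                  mul_le_mul e1 e2 (sum_nonneg fun a _ => norm_nonneg _) (by positivity)
              _ = (4 * T.card * ((D.card : ℝ) ^ L * (D.card : ℝ) ^ L)) *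
                    (ρ ^ fq s r.val q L * ((den q r : ℕ) : ℝ) ^ (-η)) := by ring
              _ = _ := by
                  rw [← pow_add]
                  congr 3
                  ring
        _ = (4 * T.card * (D.card : ℝ) ^ (2 * L)) * ∑ r ∈ univ.erase (0 : ZMod q),
              ρ ^ fq s r.val q L * ((den q r : ℕ) : ℝ) ^ (-η) := by rw [mul_sum]
        _ ≤ _ := mul_le_mul_of_nonneg_left hX (by positivity)
    have h3 : ((T.filter fun a => ε * (D.card : ℝ) ^ (2 * L) < F a).card : ℝ) *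
        (ε * (D.card : ℝ) ^ (2 * L)) ≤ (ε * T.card) * (ε * (D.card : ℝ) ^ (2 * L)) := by
      refine (h1.trans h2).trans ?_
      calc 4 * T.card * (D.card : ℝ) ^ (2 * L) * ε' = (4 * ε') * (T.card * (D.card : ℝ) ^ (2 * L)) := by
            ring
        _ ≤ ε ^ 2 * (T.card * (D.card : ℝ) ^ (2 * L)) :=
            mul_le_mul_of_nonneg_right h4 (by positivity)
        _ = _ := by ring
    exact le_of_mul_le_mul_right h3 (by positivity)
  · intro a ha haB lam
    have hFa : F a ≤ ε * (D.card : ℝ) ^ (2 * L) := by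
      by_contra hcon
      push Not at hcon
      exact haB (mem_filter.2 ⟨ha, hcon⟩)
    have h0 : kh D s L (0 : ZMod q) * ZMod.stdAddChar (-((0 : ZMod q) * lam)) *
        kh D s L ((0 : ZMod q) * (a : ZMod q)) = (D.card : ℂ) ^ (2 * L) := by
      simp only [zero_mul, neg_zero, AddChar.map_zero_eq_one, mul_one, kh_zero hs h0D hD]
      rw [← pow_add]
      congr 1
      ring
    have hmain := dil_fourier D s L a lam
    rw [← Finset.add_sum_erase _ _ (mem_univ (0 : ZMod q)), h0] at hmain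
    have hdiff : (((q : ℝ) * (dil D s L a lam : ℝ) - (D.card : ℝ) ^ (2 * L) : ℝ) : ℂ) =
        ∑ r ∈ univ.erase (0 : ZMod q), kh D s L r * ZMod.stdAddChar (-(r * lam)) *
          kh D s L (r * (a : ZMod q)) := by
      push_cast
      rw [hmain]
      ring
    have habs : |(q : ℝ) * (dil D s L a lam : ℝ) - (D.card : ℝ) ^ (2 * L)| =
        ‖∑ r ∈ univ.erase (0 : ZMod q), kh D s L r * ZMod.stdAddChar (-(r * lam)) *
          kh D s L (r * (a : ZMod q))‖ := by
      rw [← hdiff, Complex.norm_real, Real.norm_eq_abs]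
    rw [habs]
    refine le_trans (norm_sum_le_of_le _ fun r _ => ?_) hFa
    rw [norm_mul, norm_mul, AddChar.norm_apply, mul_one]

end Pool.Agent.Lib.P1aceP
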