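import Mathlib
import Pool.Agent.Lib.P1aceP.KeyU

set_option autoImplicit false

/-!
# The sum over the frequencies, with an explicit dependence on the exponent and on the bound
-/

namespace Pool.Agent.Lib.P1aceP

open Finset Pool.Agent.Lib.P1aceS

/-- **The sum over the frequencies**: `L ≥ R (1 + log (1/(ε η))) clog q` digits are enough, `R`
depending on `s` and `ρ` only. -/
theorem key_eps {s : ℕ} (hs : 2 ≤ s) {ρ : ℝ} (hρ0 : 0 < ρ) (hρ1 : ρ < 1) :
    ∃ R : ℝ, 0 < R ∧ ∀ ε η : ℝ, 0 < ε → ε ≤ 1 → 0 < η → η ≤ 1 → ∀ (q : ℕ) [NeZero q],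
      Nat.Coprime s q → ∀ L : ℕ, R * (1 + Real.log (1 / (ε * η))) * Nat.clog s q ≤ L →
        ∑ r ∈ univ.erase (0 : ZMod q), ρ ^ fq s r.val q L * ((den q r : ℕ) : ℝ) ^ (-η) ≤ ε := by
  have hsr : (2 : ℝ) ≤ s := by exact_mod_cast hs
  have hs0 : (0 : ℝ) < s := by linarith
  set a : ℝ := -Real.log ρ with ha
  have ha0 : 0 < a := by rw [ha]; linarith [Real.log_neg hρ0 hρ1]
  set c₀ : ℝ := 1 / (8 * (s : ℝ) ^ 2) with hc₀
  have hc0 : 0 < c₀ := by positivity
  set M : ℝ := max 0 (Real.log (2 / (a * c₀))) with hM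
  have hM0 : 0 ≤ M := le_max_left _ _
  have hM1 : Real.log (2 / (a * c₀)) ≤ M := le_max_right _ _
  set R₀ : ℝ := 2 / a * (1 + M) with hR₀
  have hR0 : 0 < R₀ := by positivity
  refine ⟨4 * (R₀ + 1), by positivity, ?_⟩
  intro ε η hε hε1 hη hη1 q _ hcop L hL
  set δ : ℝ := ε * η with hδ
  have hδ0 : 0 < δ := by positivity
  have hδη : δ ≤ η := by rw [hδ]; nlinarith
  have hlog : 0 ≤ Real.log (1 / δ) := Real.log_nonneg (by rw [le_div_iff₀ hδ0]; linarith)
  set T : ℝ := 1 + Real.log (1 / δ) with hT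
  have hT1 : 1 ≤ T := by linarith
  set J : ℕ := ⌈R₀ * T⌉₊ with hJ
  have hJpos : 0 < J := Nat.ceil_pos.2 (by positivity)
  have hJge : R₀ * T ≤ J := Nat.le_ceil _
  have hJle : (J : ℝ) ≤ (R₀ + 1) * T := by
    have h1 : (J : ℝ) < R₀ * T + 1 := Nat.ceil_lt_add_one (by positivity)
    nlinarith
  have hJr : (1 : ℝ) ≤ J := by exact_mod_cast hJpos
  -- the size of `J ρ ^ J`
  have hρJ : ρ ^ J = Real.exp (-(a * J)) := by
    rw [← Real.rpow_natCast, Real.rpow_def_of_pos hρ0, ha]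
    congr 1; ring
  have hmain : (J : ℝ) * ρ ^ J ≤ c₀ * δ := by
    have h1 : a * J / 2 ≤ Real.exp (a * J / 2) := by
      have := Real.add_one_le_exp (a * J / 2)
      linarith
    have h2 : Real.exp (-(a * J)) = Real.exp (-(a * J / 2)) * Real.exp (-(a * J / 2)) := by
      rw [← Real.exp_add]; congr 1; ring
    have h3 : (J : ℝ) * Real.exp (-(a * J / 2)) ≤ 2 / a := by
      rw [Real.exp_neg, le_div_iff₀ ha0]
      have hpos := Real.exp_pos (a * J / 2)
      rw [← div_eq_mul_inv, div_mul_eq_mul_div, div_le_iff₀ hpos]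
      linarith
    have h4 : Real.exp (-(a * J / 2)) ≤ a * c₀ / 2 * δ := by
      have h5 : Real.log (2 / (a * c₀)) + Real.log (1 / δ) ≤ a * J / 2 := by
        have h6 : (1 + M) * T ≤ a * J / 2 := by
          have : a / 2 * (R₀ * T) ≤ a / 2 * J := mul_le_mul_of_nonneg_left hJge (by positivity)
          have h7 : a / 2 * (R₀ * T) = (1 + M) * T := by
            rw [hR₀]; field_simp
          linarith
        have h8 : Real.log (2 / (a * c₀)) + Real.log (1 / δ) ≤ (1 + M) * T := by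
          rw [hT]; nlinarith
        linarith
      have h9 : Real.exp (-(a * J / 2)) ≤ Real.exp (-(Real.log (2 / (a * c₀)) + Real.log (1 / δ))) :=
        Real.exp_le_exp.2 (by linarith)
      refine h9.trans (le_of_eq ?_)
      rw [Real.exp_neg, Real.exp_add, Real.exp_log (by positivity), Real.exp_log (by positivity)]
      field_simp
    calc (J : ℝ) * ρ ^ J = ((J : ℝ) * Real.exp (-(a * J / 2))) * Real.exp (-(a * J / 2)) := by
          rw [hρJ, h2]; ring
      _ ≤ 2 / a * (a * c₀ / 2 * δ) := mul_le_mul h3 h4 (Real.exp_pos _).le (by positivity)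
      _ = c₀ * δ := by field_simp
  have hρJ0 : 0 < ρ ^ J := pow_pos hρ0 _
  -- the two conditions
  set y : ℝ := η / 2 * Real.log s with hy
  have hlog2 : (1 : ℝ) / 2 ≤ Real.log 2 := by linarith [Real.log_two_gt_d9]
  have hlog2' : (2 : ℝ) / 3 ≤ Real.log 2 := by linarith [Real.log_two_gt_d9]
  have hlogs : Real.log 2 ≤ Real.log s := Real.log_le_log (by norm_num) hsr
  have hy0 : 0 < y := by
    have : 0 < Real.log s := by linarith
    positivity
  have hyη : η / 3 ≤ y := by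
    have : η / 2 * (2 / 3) ≤ η / 2 * Real.log s := mul_le_mul_of_nonneg_left (by linarith) (by positivity)
    linarith
  have hγ : (s : ℝ) ^ (-(η / 2)) = Real.exp (-y) := by
    rw [Real.rpow_def_of_pos hs0, hy]; congr 1; ring
  have hγi : 1 / (s : ℝ) ^ (-(η / 2)) = Real.exp y := by
    rw [hγ, Real.exp_neg, one_div, inv_inv]
  have hey : 1 + y ≤ Real.exp y := by linarith [Real.add_one_le_exp y]
  refine key_of hs hρ0 hρ1 hη J hJpos ?_ ?_ q hcop L ?_
  · rw [hγi]
    have h1 : ρ ^ J * s ≤ η / 8 := by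
      have h2 : (J : ℝ) * ρ ^ J ≤ 1 / (8 * s) * η := by
        refine hmain.trans (mul_le_mul ?_ hδη hδ0.le (by positivity))
        rw [hc₀]
        refine one_div_le_one_div_of_le (by positivity) ?_
        nlinarith
      have h3 : ρ ^ J ≤ (J : ℝ) * ρ ^ J := le_mul_of_one_le_left hρJ0.le hJr
      calc ρ ^ J * s ≤ (1 / (8 * s) * η) * s := mul_le_mul_of_nonneg_right (h3.trans h2) hs0.le
        _ = η / 8 := by field_simp
    have h0 : 0 ≤ ρ ^ J * s := by positivity
    calc (1 + ρ ^ J * s) ^ 2 ≤ (1 + η / 8) ^ 2 := by gcongr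
      _ ≤ 1 + y := by nlinarith
      _ ≤ Real.exp y := hey
  · have h1 : (1 - (s : ℝ) ^ (-(η / 2)))⁻¹ ≤ 4 / η := by
      rw [hγ]
      have h2 : Real.exp (-y) ≤ 1 / (1 + y) := by
        rw [Real.exp_neg, one_div]
        exact inv_anti₀ (by linarith) hey
      have h3 : y / (1 + y) ≤ 1 - Real.exp (-y) := by
        have : y / (1 + y) = 1 - 1 / (1 + y) := by field_simp; ring
        linarith
      have h4 : η / 4 ≤ y / (1 + y) := by
        rw [div_le_div_iff₀ (by norm_num) (by linarith)]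
        nlinarith
      have h5 : 0 < η / 4 := by positivity
      calc (1 - Real.exp (-y))⁻¹ ≤ (η / 4)⁻¹ := inv_anti₀ h5 (h4.trans h3)
        _ = 4 / η := by rw [inv_div]
    have h6 : (1 / (s : ℝ) ^ (-(η / 2))) * ((s : ℝ) ^ (-(η / 2)))⁻¹ ≤ s := by
      rw [one_div, ← Real.rpow_neg hs0.le, ← Real.rpow_add hs0]
      calc (s : ℝ) ^ (-(-(η / 2)) + -(-(η / 2))) = (s : ℝ) ^ η := by congr 1; ring
        _ ≤ (s : ℝ) ^ (1 : ℝ) := Real.rpow_le_rpow_of_exponent_le (by linarith) hη1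
        _ = s := Real.rpow_one _
    have h7 : (J : ℝ) * ρ ^ J ≤ ε / (8 * (s : ℝ) ^ 2) * η := by
      refine hmain.trans (le_of_eq ?_)
      rw [hc₀, hδ]
      ring
    have h8 : 0 < 1 - (s : ℝ) ^ (-(η / 2)) := by
      rw [hγ]
      have : Real.exp (-y) < 1 := by rw [Real.exp_lt_one_iff]; linarith
      linarith
    calc 2 * J * ρ ^ J * s * (1 / (s : ℝ) ^ (-(η / 2))) *
          (((s : ℝ) ^ (-(η / 2)))⁻¹ * (1 - (s : ℝ) ^ (-(η / 2)))⁻¹)
        = 2 * s * (J * ρ ^ J) * ((1 / (s : ℝ) ^ (-(η / 2))) * ((s : ℝ) ^ (-(η / 2)))⁻¹) *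
            (1 - (s : ℝ) ^ (-(η / 2)))⁻¹ := by ring
      _ ≤ 2 * s * (ε / (8 * (s : ℝ) ^ 2) * η) * s * (4 / η) := by
          have hp : 0 < (s : ℝ) ^ (-(η / 2)) := Real.rpow_pos_of_pos hs0 _
          gcongr
      _ = ε := by field_simp; ring
  · have h1 : ((4 * J * Nat.clog s q : ℕ) : ℝ) ≤ L := by
      push_cast
      refine le_trans ?_ hL
      have hc : (0 : ℝ) ≤ Nat.clog s q := by positivity
      refine mul_le_mul_of_nonneg_right ?_ hc
      linarith
    exact_mod_cast h1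

end Pool.Agent.Lib.P1aceP
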