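import Mathlib
import Pool.Agent.Lib.P1aceP.Defs

set_option autoImplicit false

/-!
# The number of elements of a residue class modulo `d` in `KS s D l` and in `[1, H]`
-/

namespace Pool.Agent.Lib.P1aceP

open Finset Pool.Agent.Lib.P1aceS

theorem mult_KS {s : ℕ} (hs : 2 ≤ s) {D : Finset ℕ} (h0D : 0 ∈ D) (hD : ∀ d ∈ D, d < s) (h2 : 2 ≤ D.card)
    {q l : ℕ} {β : ℝ} (hβ0 : 0 < β) (hβ1 : β ≤ 1) (hl : β * Nat.clog s q ≤ l) (d : ℕ) (hd : 0 < d)
    (hdq : d ≤ q) (z : ℕ) :
    (((KS s D l).filter fun a => a % d = z).card : ℝ) ≤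
      2 * (KS s D l).card * (d : ℝ) ^ (-(2 * (β * (Real.log 2 / (2 * Real.log s))))) := by
  classical
  have hcr : (2 : ℝ) ≤ D.card := by exact_mod_cast h2
  have hc0 : (0 : ℝ) < D.card := by linarith
  have hsr : (2 : ℝ) ≤ s := by exact_mod_cast hs
  have hs0 : (0 : ℝ) < s := by linarith
  have hls : 0 < Real.log s := Real.log_pos (by linarith)
  have hl2 : 0 < Real.log 2 := Real.log_pos (by norm_num)
  set η : ℝ := β * (Real.log 2 / (2 * Real.log s)) with hη
  have hη0 : 0 < η := by positivity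
  have hsη : (s : ℝ) ^ (2 * η) = (2 : ℝ) ^ β := by
    rw [Real.rpow_def_of_pos hs0, Real.rpow_def_of_pos (by norm_num : (0 : ℝ) < 2), hη]
    congr 1
    field_simp
  have hdr : (1 : ℝ) ≤ d := by exact_mod_cast hd
  have hdr0 : (0 : ℝ) < d := by linarith
  set k : ℕ := Nat.clog s d with hk
  have hkq : k ≤ Nat.clog s q := Nat.clog_mono_right s hdq
  have hdk : d ≤ s ^ k := Nat.le_pow_clog (by omega) d
  obtain ⟨m, hml, hmd, hmβ⟩ : ∃ m : ℕ, m ≤ l ∧ s ^ m ≤ d ∧ β * ((k : ℝ) - 1) ≤ m := by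
    refine ⟨min l (k - 1), min_le_left _ _, ?_, ?_⟩
    · rcases Nat.eq_zero_or_pos k with h | h
      · rw [h]
        simp only [Nat.zero_sub, Nat.min_zero, pow_zero]
        exact hd
      · have h1 : s ^ (k - 1) < d := by
          have h3 : k - 1 < Nat.clog s d := by omega
          exact (Nat.lt_clog_iff_pow_lt (by omega)).1 h3
        exact (Nat.pow_le_pow_right (by omega) (min_le_right _ _)).trans h1.le
    · rcases Nat.eq_zero_or_pos k with h | h
      · rw [h]
        have h1 : (0 : ℝ) ≤ ((min l (0 - 1) : ℕ) : ℝ) := Nat.cast_nonneg _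
        push_cast at h1 ⊢
        nlinarith
      · have h1 : ((k - 1 : ℕ) : ℝ) = (k : ℝ) - 1 := by
          rw [Nat.cast_sub h]; push_cast; ring
        have hk1 : (1 : ℝ) ≤ k := by exact_mod_cast h
        rw [Nat.cast_min, h1]
        refine le_min ?_ ?_
        · have h2 : (k : ℝ) ≤ Nat.clog s q := by exact_mod_cast hkq
          calc β * ((k : ℝ) - 1) ≤ β * Nat.clog s q := by
                apply mul_le_mul_of_nonneg_left _ hβ0.le
                linarith
            _ ≤ l := hl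
        · nlinarith
  obtain ⟨n, hn⟩ : ∃ n, l = m + n := ⟨l - m, by omega⟩
  have hcount : ((KS s D l).filter fun a => a % d = z).card ≤ D.card ^ n := by
    have hK : KS s D l = KS s D (m + n) := by rw [← hn]
    rw [Finset.card_filter, hK, sum_KS_add hs h0D m n (fun a => if a % d = z then 1 else 0)]
    rw [← card_KS hs h0D hD n, Finset.card_eq_sum_ones]
    refine Finset.sum_le_sum fun v _ => ?_
    rw [← Finset.card_filter, Finset.card_le_one]
    intro a ha b hb
    rw [mem_filter, mem_KS] at ha hb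
    have ha' : a < s ^ m := ha.1.1
    have hb' : b < s ^ m := hb.1.1
    have h3 : (a + s ^ m * v) ≡ (b + s ^ m * v) [MOD d] := by
      unfold Nat.ModEq
      rw [ha.2, hb.2]
    have h4 : a ≡ b [MOD d] := Nat.ModEq.add_right_cancel' _ h3
    have h5 : a % d = b % d := h4
    rwa [Nat.mod_eq_of_lt (by omega), Nat.mod_eq_of_lt (by omega)] at h5
  have hbig : (d : ℝ) ^ (2 * η) ≤ 2 * (D.card : ℝ) ^ m := by
    have h1 : (d : ℝ) ≤ (s : ℝ) ^ k := by exact_mod_cast hdk
    calc (d : ℝ) ^ (2 * η) ≤ ((s : ℝ) ^ k) ^ (2 * η) :=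
          Real.rpow_le_rpow hdr0.le h1 (by positivity)
      _ = ((s : ℝ) ^ (2 * η)) ^ k := by
          rw [← Real.rpow_natCast, ← Real.rpow_mul hs0.le, ← Real.rpow_natCast ((s : ℝ) ^ (2 * η)),
            ← Real.rpow_mul hs0.le, mul_comm]
      _ = (2 : ℝ) ^ (β * k) := by
          rw [hsη, ← Real.rpow_natCast, ← Real.rpow_mul (by norm_num)]
      _ ≤ (2 : ℝ) ^ (1 + (m : ℝ)) := by
          apply Real.rpow_le_rpow_of_exponent_le (by norm_num)
          linarith
      _ = 2 * (2 : ℝ) ^ m := by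
          rw [Real.rpow_add (by norm_num), Real.rpow_one, Real.rpow_natCast]
      _ ≤ _ := by gcongr
  have hcount' : (((KS s D l).filter fun a => a % d = z).card : ℝ) ≤ (D.card : ℝ) ^ n := by
    exact_mod_cast hcount
  have e1 : (1 : ℝ) = (d : ℝ) ^ (2 * η) * (d : ℝ) ^ (-(2 * η)) := by
    rw [← Real.rpow_add hdr0, add_neg_cancel, Real.rpow_zero]
  have hneg : (0 : ℝ) ≤ (d : ℝ) ^ (-(2 * η)) := Real.rpow_nonneg hdr0.le _
  calc (((KS s D l).filter fun a => a % d = z).card : ℝ) ≤ (D.card : ℝ) ^ n * 1 := by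
        rw [mul_one]; exact hcount'
    _ = (D.card : ℝ) ^ n * ((d : ℝ) ^ (2 * η) * (d : ℝ) ^ (-(2 * η))) := by rw [← e1]
    _ ≤ (D.card : ℝ) ^ n * ((2 * (D.card : ℝ) ^ m) * (d : ℝ) ^ (-(2 * η))) := by gcongr
    _ = 2 * (KS s D l).card * (d : ℝ) ^ (-(2 * η)) := by
        rw [card_KS hs h0D hD, hn]
        push_cast
        rw [pow_add]
        ring

theorem mult_Icc {q H : ℕ} (hH : 2 ≤ H) (hHq : H ≤ q) (d : ℕ) (hd : 0 < d) (hdq : d ≤ q) (z : ℕ) :
    (((Icc 1 H).filter fun a => a % d = z).card : ℝ) ≤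
      2 * (Icc 1 H).card * (d : ℝ) ^ (-(2 * (Real.log H / (2 * Real.log q)))) := by
  classical
  have hHr : (2 : ℝ) ≤ H := by exact_mod_cast hH
  have hqr : (H : ℝ) ≤ q := by exact_mod_cast hHq
  have hlH : 0 < Real.log H := Real.log_pos (by linarith)
  have hlHq : Real.log H ≤ Real.log q := Real.log_le_log (by linarith) hqr
  have hlq : 0 < Real.log q := by linarith
  set c : ℝ := Real.log H / Real.log q with hc
  have hc0 : 0 < c := by positivity
  have hc1 : c ≤ 1 := by rw [hc, div_le_one hlq]; exact hlHq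
  have hce : 2 * (Real.log H / (2 * Real.log q)) = c := by rw [hc]; field_simp
  rw [hce, Nat.card_Icc, Nat.add_sub_cancel]
  have hdr : (1 : ℝ) ≤ d := by exact_mod_cast hd
  have hdr0 : (0 : ℝ) < d := by linarith
  have hcard : ((Icc 1 H).filter fun a => a % d = z).card ≤ H / d + 1 := by
    rw [← Finset.card_range (H / d + 1)]
    refine Finset.card_le_card_of_injOn (fun a => a / d) ?_ ?_
    · intro a ha
      rw [mem_coe, mem_filter, mem_Icc] at ha
      rw [mem_coe, mem_range, Nat.lt_succ_iff]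
      exact Nat.div_le_div_right ha.1.2
    · intro a ha b hb hab
      rw [mem_coe, mem_filter] at ha hb
      have h1 := Nat.div_add_mod a d
      have h2 := Nat.div_add_mod b d
      simp only at hab
      rw [ha.2, hab] at h1
      rw [hb.2] at h2
      omega
  rcases le_or_gt d H with h | h
  · have h1 : ((H / d : ℕ) : ℝ) ≤ (H : ℝ) / d := Nat.cast_div_le
    have h2 : (1 : ℝ) ≤ (H : ℝ) / d := by
      rw [le_div_iff₀ hdr0, one_mul]; exact_mod_cast h
    have h3 : (d : ℝ) ^ (-1 : ℝ) ≤ (d : ℝ) ^ (-c) := Real.rpow_le_rpow_of_exponent_le hdr (by linarith)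
    have hcard' : (((Icc 1 H).filter fun a => a % d = z).card : ℝ) ≤ ((H / d : ℕ) : ℝ) + 1 := by
      exact_mod_cast hcard
    calc (((Icc 1 H).filter fun a => a % d = z).card : ℝ) ≤ ((H / d : ℕ) : ℝ) + 1 := hcard'
      _ ≤ 2 * ((H : ℝ) / d) := by linarith
      _ = 2 * H * (d : ℝ) ^ (-1 : ℝ) := by rw [Real.rpow_neg_one]; ring
      _ ≤ 2 * H * (d : ℝ) ^ (-c) := by gcongr
  · have h1 : H / d = 0 := Nat.div_eq_of_lt h
    rw [h1, zero_add] at hcard
    have hcard' : (((Icc 1 H).filter fun a => a % d = z).card : ℝ) ≤ 1 := by exact_mod_cast hcard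
    have hqpos : (0 : ℝ) < q := by linarith
    have h2 : (q : ℝ) ^ (-c) ≤ (d : ℝ) ^ (-c) :=
      Real.rpow_le_rpow_of_nonpos hdr0 (by exact_mod_cast hdq) (by linarith)
    have h3 : (q : ℝ) ^ (-c) = (H : ℝ)⁻¹ := by
      rw [Real.rpow_def_of_pos hqpos, hc]
      have : Real.log q * -(Real.log H / Real.log q) = -Real.log H := by field_simp
      rw [this, Real.exp_neg, Real.exp_log (by linarith)]
    have hH0 : (0 : ℝ) < H := by linarith
    calc (((Icc 1 H).filter fun a => a % d = z).card : ℝ) ≤ 1 := hcard'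
      _ ≤ 2 * H * (H : ℝ)⁻¹ := by rw [mul_assoc, mul_inv_cancel₀ hH0.ne']; norm_num
      _ = 2 * H * (q : ℝ) ^ (-c) := by rw [h3]
      _ ≤ _ := by gcongr

end Pool.Agent.Lib.P1aceP
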