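import Mathlib
import Pool.Agent.Lib.P07318f.Kloo

/-!
# Kloosterman sums modulo `q`: a bound for the ratio `|S(u,v;q)| / φ(q)` in the denominators of `u/q` and `v/q`

`q1 = q / gcd(u,v,q)`; the units modulo `q` map onto the units modulo `q1` with equal fibres, so
`|S(u,v;q)|/φ(q) = |S(u',v';q1)|/φ(q1)`, `gcd(u',v',q1) = 1`; then `KlooAux.four_le` for `(u',v')` or `(v',u')`.
-/

set_option autoImplicit false

namespace Pool.Agent.Lib.P1aceP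

open Finset Pool.Agent.P07318f.KlooAux

lemma S_comm {q : ℕ} [NeZero q] (u v : ZMod q) : S u v = S v u := by
  unfold S
  refine Fintype.sum_equiv (Equiv.inv _) _ _ fun x => ?_
  simp only [Equiv.inv_apply, inv_inv]
  rw [add_comm]

/-- a sum over the units modulo `q` of a function of the unit modulo `q1` -/
lemma sum_units (q q1 : ℕ) [NeZero q] [NeZero q1] (h : q1 ∣ q) :
    ∃ c : ℕ, ∀ F : (ZMod q1)ˣ → ℂ, ∑ x : (ZMod q)ˣ, F (ZMod.unitsMap h x) = (c : ℂ) * ∑ y : (ZMod q1)ˣ, F y := by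
  classical
  have hs := ZMod.unitsMap_surjective h
  refine ⟨(univ.filter fun x : (ZMod q)ˣ => ZMod.unitsMap h x = 1).card, fun F => ?_⟩
  rw [← Finset.sum_fiberwise_of_maps_to (s := univ) (t := univ) (g := fun x => ZMod.unitsMap h x)
    (fun x _ => mem_univ _), Finset.mul_sum]
  refine Finset.sum_congr rfl fun y _ => ?_
  have h1 : ∀ x ∈ univ.filter (fun x : (ZMod q)ˣ => ZMod.unitsMap h x = y), F (ZMod.unitsMap h x) = F y := by
    intro x hx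
    rw [(mem_filter.mp hx).2]
  rw [Finset.sum_congr rfl h1, Finset.sum_const, nsmul_eq_mul]
  congr 2
  obtain ⟨x₀, hx₀⟩ := hs y
  refine Finset.card_bij' (fun x _ => x * x₀⁻¹) (fun x _ => x * x₀) ?_ ?_ ?_ ?_
  · intro x hx
    have := (mem_filter.mp hx).2
    simp [this, hx₀]
  · intro x hx
    have := (mem_filter.mp hx).2
    simp [this, hx₀]
  · intro x _; simp
  · intro x _; simp

lemma char_red (q g q1 : ℕ) [NeZero q] [NeZero q1] (h : q1 ∣ q) (hq : q = g * q1) (a b : ℕ) (x : (ZMod q)ˣ) :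
    (ZMod.stdAddChar (((g * a : ℕ) : ZMod q) * (x : ZMod q) + ((g * b : ℕ) : ZMod q) * ((x⁻¹ : (ZMod q)ˣ) : ZMod q)) : ℂ) =
      ZMod.stdAddChar ((a : ZMod q1) * ((ZMod.unitsMap h x : (ZMod q1)ˣ) : ZMod q1) +
        (b : ZMod q1) * (((ZMod.unitsMap h x)⁻¹ : (ZMod q1)ˣ) : ZMod q1)) := by
  have hg : (g : ℂ) ≠ 0 := by
    have : q ≠ 0 := NeZero.ne q
    rintro h0
    apply this
    rw [hq]
    have : g = 0 := by exact_mod_cast h0
    simp [this]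
  have hq1 : (q1 : ℂ) ≠ 0 := by exact_mod_cast NeZero.ne q1
  set X : ℕ := (x : ZMod q).val with hX
  set Y : ℕ := ((x⁻¹ : (ZMod q)ˣ) : ZMod q).val with hY
  have e1 : (x : ZMod q) = ((X : ℕ) : ZMod q) := (ZMod.natCast_zmod_val _).symm
  have e2 : ((x⁻¹ : (ZMod q)ˣ) : ZMod q) = ((Y : ℕ) : ZMod q) := (ZMod.natCast_zmod_val _).symm
  have e3 : ((ZMod.unitsMap h x : (ZMod q1)ˣ) : ZMod q1) = ((X : ℕ) : ZMod q1) := by
    rw [ZMod.unitsMap_def, Units.coe_map]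
    have : (x : ZMod q) = ((X : ℕ) : ZMod q) := e1
    rw [MonoidHom.coe_coe, this, map_natCast]
  have e4 : (((ZMod.unitsMap h x)⁻¹ : (ZMod q1)ˣ) : ZMod q1) = ((Y : ℕ) : ZMod q1) := by
    rw [← map_inv, ZMod.unitsMap_def, Units.coe_map]
    rw [MonoidHom.coe_coe, e2, map_natCast]
  rw [e3, e4, e1, e2]
  have l : ((g * a : ℕ) : ZMod q) * ((X : ℕ) : ZMod q) + ((g * b : ℕ) : ZMod q) * ((Y : ℕ) : ZMod q) =
      (((g * (a * X + b * Y) : ℕ) : ℤ) : ZMod q) := by push_cast; ring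
  have r : (a : ZMod q1) * ((X : ℕ) : ZMod q1) + (b : ZMod q1) * ((Y : ℕ) : ZMod q1) =
      (((a * X + b * Y : ℕ) : ℤ) : ZMod q1) := by push_cast; ring
  rw [l, r, ZMod.stdAddChar_coe, ZMod.stdAddChar_coe]
  congr 1
  rw [hq]
  push_cast
  field_simp

lemma prim_bound : ∃ C : ℝ, 0 < C ∧ ∀ (q : ℕ) [NeZero q] (u v : ZMod q),
    Nat.Coprime (Nat.gcd u.val q) (Nat.gcd v.val q) →
      ‖S u v‖ ≤ C * (q.totient : ℝ) * (q : ℝ) ^ (-(1/16) : ℝ) := by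
  obtain ⟨C₀, hC₀, hdiv⟩ := Pool.Agent.Lib.P5632c9.card_divisors_le (1/28) (by norm_num)
  refine ⟨2 * (1 + C₀) ^ 2, by positivity, ?_⟩
  intro q _ u v hcop
  have hq : 0 < q := NeZero.pos q
  have hq' : (0 : ℝ) < q := by exact_mod_cast hq
  have hd := hdiv q hq.ne'
  have hdpos : (0 : ℝ) < q.divisors.card := by
    exact_mod_cast Finset.card_pos.mpr ⟨1, Nat.one_mem_divisors.mpr hq.ne'⟩
  have hφ : (q : ℝ) ≤ q.divisors.card * q.totient := by exact_mod_cast q_le q hq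
  -- the smaller gcd is at most the square root
  have hprod : Nat.gcd u.val q * Nat.gcd v.val q ≤ q :=
    Nat.le_of_dvd hq (hcop.mul_dvd_of_dvd_of_dvd (Nat.gcd_dvd_right _ _) (Nat.gcd_dvd_right _ _))
  have hprod' : (Nat.gcd u.val q : ℝ) * (Nat.gcd v.val q : ℝ) ≤ q := by exact_mod_cast hprod
  have hgu : (0 : ℝ) ≤ Nat.gcd u.val q := by positivity
  have hgv : (0 : ℝ) ≤ Nat.gcd v.val q := by positivity
  have hsq : (q : ℝ) ^ (1/2 : ℝ) * (q : ℝ) ^ (1/2 : ℝ) = q := by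
    rw [← Real.rpow_add hq']; norm_num
  have hs0 : (0 : ℝ) < (q : ℝ) ^ (1/2 : ℝ) := by positivity
  have h4 : ‖S u v‖ ^ 4 ≤ 2 * (q : ℝ) ^ (1/2 : ℝ) * (q : ℝ) ^ 3 * (q.divisors.card : ℝ) ^ 3 := by
    rcases le_total (Nat.gcd v.val q : ℝ) ((q : ℝ) ^ (1/2 : ℝ)) with h | h
    · refine (four_le u v).trans ?_
      gcongr
    · have h' : (Nat.gcd u.val q : ℝ) ≤ (q : ℝ) ^ (1/2 : ℝ) := by
        by_contra hc
        push Not at hc
        have : (q : ℝ) < (Nat.gcd u.val q : ℝ) * (Nat.gcd v.val q : ℝ) := by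
          calc (q : ℝ) = (q : ℝ) ^ (1/2 : ℝ) * (q : ℝ) ^ (1/2 : ℝ) := hsq.symm
            _ < (Nat.gcd u.val q : ℝ) * (q : ℝ) ^ (1/2 : ℝ) := by gcongr
            _ ≤ (Nat.gcd u.val q : ℝ) * (Nat.gcd v.val q : ℝ) := by gcongr
        linarith
      rw [S_comm]
      refine (four_le v u).trans ?_
      gcongr
  set d : ℝ := (q.divisors.card : ℝ) with hdd
  set φ : ℝ := (q.totient : ℝ) with hφφ
  have hφ0 : 0 ≤ φ := by positivity
  have hd7 : d ^ 7 ≤ C₀ ^ 7 * (q : ℝ) ^ (1/4 : ℝ) := by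
    calc d ^ 7 ≤ (C₀ * (q : ℝ) ^ (1/28 : ℝ)) ^ 7 := by gcongr
      _ = C₀ ^ 7 * (q : ℝ) ^ (1/4 : ℝ) := by
          rw [mul_pow, ← Real.rpow_natCast ((q : ℝ) ^ (1/28 : ℝ)), ← Real.rpow_mul hq'.le]
          norm_num
  have hgoal : ‖S u v‖ ^ 4 ≤ (2 * (1 + C₀) ^ 2 * φ * (q : ℝ) ^ (-(1/16) : ℝ)) ^ 4 := by
    have e1 : ((q : ℝ) ^ (-(1/16) : ℝ)) ^ 4 = (q : ℝ) ^ (-(1/4) : ℝ) := by
      rw [← Real.rpow_natCast, ← Real.rpow_mul hq'.le]; norm_num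
    have e2 : (q : ℝ) ^ (-(1/4) : ℝ) * (q : ℝ) ^ (1/2 : ℝ) = (q : ℝ) ^ (1/4 : ℝ) := by
      rw [← Real.rpow_add hq']; norm_num
    have e3 : (q : ℝ) ^ (-(1/4) : ℝ) * (q : ℝ) ^ (1/4 : ℝ) = 1 := by
      rw [← Real.rpow_add hq']; norm_num
    have hm0 : (0 : ℝ) < (q : ℝ) ^ (-(1/4) : ℝ) := by positivity
    have hp0 : (0 : ℝ) < (q : ℝ) ^ (1/4 : ℝ) := by positivity
    rw [mul_pow, mul_pow, e1]
    -- multiply by `d ^ 4`
    have hd4 : 0 < d ^ 4 := by positivity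
    have h6 : d ^ 4 * ‖S u v‖ ^ 4 ≤ d ^ 4 * ((2 * (1 + C₀) ^ 2) ^ 4 * φ ^ 4 * (q : ℝ) ^ (-(1/4) : ℝ)) := by
      have hφ4 : (q : ℝ) ^ 4 ≤ d ^ 4 * φ ^ 4 := by
        rw [← mul_pow]; gcongr
      calc d ^ 4 * ‖S u v‖ ^ 4 ≤ d ^ 4 * (2 * (q : ℝ) ^ (1/2 : ℝ) * (q : ℝ) ^ 3 * d ^ 3) := by gcongr
        _ = 2 * (q : ℝ) ^ (1/2 : ℝ) * (q : ℝ) ^ 3 * d ^ 7 := by ring
        _ ≤ 2 * (q : ℝ) ^ (1/2 : ℝ) * (q : ℝ) ^ 3 * (C₀ ^ 7 * (q : ℝ) ^ (1/4 : ℝ)) := by gcongr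
        _ = 2 * C₀ ^ 7 * (q : ℝ) ^ 4 * (q : ℝ) ^ (-(1/4) : ℝ) := by
            have e4 : (q : ℝ) ^ (1/2 : ℝ) * (q : ℝ) ^ (1/4 : ℝ) = (q : ℝ) * (q : ℝ) ^ (-(1/4) : ℝ) := by
              nth_rw 3 [← Real.rpow_one (q : ℝ)]
              rw [← Real.rpow_add hq', ← Real.rpow_add hq']; norm_num
            calc 2 * (q : ℝ) ^ (1/2 : ℝ) * (q : ℝ) ^ 3 * (C₀ ^ 7 * (q : ℝ) ^ (1/4 : ℝ)) =
                2 * C₀ ^ 7 * (q : ℝ) ^ 3 * ((q : ℝ) ^ (1/2 : ℝ) * (q : ℝ) ^ (1/4 : ℝ)) := by ring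
              _ = _ := by rw [e4]; ring
        _ ≤ (2 * (1 + C₀) ^ 2) ^ 4 * (d ^ 4 * φ ^ 4) * (q : ℝ) ^ (-(1/4) : ℝ) := by
            have hc : 2 * C₀ ^ 7 ≤ (2 * (1 + C₀) ^ 2) ^ 4 := by
              have h1 : C₀ ^ 7 ≤ (1 + C₀) ^ 8 := by
                calc C₀ ^ 7 ≤ (1 + C₀) ^ 7 := by gcongr; linarith
                  _ ≤ (1 + C₀) ^ 8 := pow_le_pow_right₀ (by linarith) (by norm_num)
              have h2 : (2 * (1 + C₀) ^ 2) ^ 4 = 16 * (1 + C₀) ^ 8 := by ring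
              rw [h2]
              have : 0 ≤ (1 + C₀) ^ 8 := by positivity
              linarith
            gcongr
        _ = _ := by ring
    exact le_of_mul_le_mul_left h6 hd4
  exact le_of_pow_le_pow_left₀ (by norm_num) (by positivity) hgoal

theorem kloo_ratio : ∃ C : ℝ, 0 < C ∧ ∀ (q : ℕ) [NeZero q] (u v : ZMod q),
    ‖Pool.Agent.P07318f.KlooAux.S u v‖ ≤ C * (q.totient : ℝ) *
      ((q / Nat.gcd u.val q : ℕ) : ℝ) ^ (-(1/32) : ℝ) * ((q / Nat.gcd v.val q : ℕ) : ℝ) ^ (-(1/32) : ℝ) := by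
  obtain ⟨C, hC, hb⟩ := prim_bound
  refine ⟨C, hC, ?_⟩
  intro q _ u v
  have hq : 0 < q := NeZero.pos q
  set g := Nat.gcd (Nat.gcd u.val v.val) q with hg
  have hg0 : 0 < g := Nat.gcd_pos_of_pos_right _ hq
  have hgq : g ∣ q := Nat.gcd_dvd_right _ _
  have hgu : g ∣ u.val := (Nat.gcd_dvd_left _ _).trans (Nat.gcd_dvd_left _ _)
  have hgv : g ∣ v.val := (Nat.gcd_dvd_left _ _).trans (Nat.gcd_dvd_right _ _)
  set q1 := q / g with hq1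
  have hqg : q = g * q1 := (Nat.mul_div_cancel' hgq).symm
  have hq1pos : 0 < q1 := Nat.div_pos (Nat.le_of_dvd hq hgq) hg0
  have : NeZero q1 := ⟨hq1pos.ne'⟩
  have hdvd : q1 ∣ q := Nat.div_dvd_of_dvd hgq
  set a := u.val / g with ha
  set b := v.val / g with hb'
  have hua : u.val = g * a := (Nat.mul_div_cancel' hgu).symm
  have hvb : v.val = g * b := (Nat.mul_div_cancel' hgv).symm
  have hu : u = ((g * a : ℕ) : ZMod q) := by rw [← hua, ZMod.natCast_zmod_val]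
  have hv : v = ((g * b : ℕ) : ZMod q) := by rw [← hvb, ZMod.natCast_zmod_val]
  have haq : a < q1 := Nat.div_lt_div_of_lt_of_dvd hgq (ZMod.val_lt u)
  have hbq : b < q1 := Nat.div_lt_div_of_lt_of_dvd hgq (ZMod.val_lt v)
  obtain ⟨c, hc⟩ := sum_units q q1 hdvd
  have hS : S u v = (c : ℂ) * S (a : ZMod q1) (b : ZMod q1) := by
    have := hc (fun y => ZMod.stdAddChar ((a : ZMod q1) * ((y : (ZMod q1)ˣ) : ZMod q1) +
        (b : ZMod q1) * ((y⁻¹ : (ZMod q1)ˣ) : ZMod q1)))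
    unfold S
    rw [← this]
    refine Finset.sum_congr rfl fun x _ => ?_
    conv_lhs => rw [hu, hv]
    exact char_red q g q1 hdvd hqg a b x
  have hφ : (q.totient : ℝ) = c * q1.totient := by
    have := hc (fun _ => 1)
    simp only [Finset.sum_const, Finset.card_univ, ZMod.card_units_eq_totient, nsmul_eq_mul, mul_one] at this
    exact_mod_cast this
  have hcop : Nat.Coprime (Nat.gcd (a : ZMod q1).val q1) (Nat.gcd (b : ZMod q1).val q1) := by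
    rw [ZMod.val_cast_of_lt haq, ZMod.val_cast_of_lt hbq]
    have h1 : Nat.Coprime (Nat.gcd u.val v.val / g) (q / g) := Nat.coprime_div_gcd_div_gcd hg0
    rw [← Nat.gcd_div hgu hgv] at h1
    have h2 : Nat.gcd (Nat.gcd a q1) (Nat.gcd b q1) ∣ Nat.gcd (Nat.gcd a b) q1 :=
      Nat.dvd_gcd (Nat.dvd_gcd ((Nat.gcd_dvd_left _ _).trans (Nat.gcd_dvd_left _ _))
        ((Nat.gcd_dvd_right _ _).trans (Nat.gcd_dvd_left _ _)))
        ((Nat.gcd_dvd_left _ _).trans (Nat.gcd_dvd_right _ _))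
    have h3 : Nat.gcd (Nat.gcd a b) q1 = 1 := h1
    rw [h3] at h2
    exact Nat.eq_one_of_dvd_one h2
  have hmain := hb q1 (a : ZMod q1) (b : ZMod q1) hcop
  have hq1' : (0 : ℝ) < q1 := by exact_mod_cast hq1pos
  have key : ∀ w : ZMod q, g ∣ w.val → (q1 : ℝ) ^ (-(1/32) : ℝ) ≤ ((q / Nat.gcd w.val q : ℕ) : ℝ) ^ (-(1/32) : ℝ) := by
    intro w hw
    have hgg : g ∣ Nat.gcd w.val q := Nat.dvd_gcd hw hgq
    have hpos : 0 < Nat.gcd w.val q := Nat.gcd_pos_of_pos_right _ hq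
    have h1 : q / Nat.gcd w.val q ≤ q1 := Nat.div_le_div_left (Nat.le_of_dvd hpos hgg) hg0
    have h2 : 0 < q / Nat.gcd w.val q := Nat.div_pos (Nat.le_of_dvd hq (Nat.gcd_dvd_right _ _)) hpos
    refine Real.rpow_le_rpow_of_nonpos (by exact_mod_cast h2) (by exact_mod_cast h1) (by norm_num)
  have hsplit : (q1 : ℝ) ^ (-(1/16) : ℝ) = (q1 : ℝ) ^ (-(1/32) : ℝ) * (q1 : ℝ) ^ (-(1/32) : ℝ) := by
    rw [← Real.rpow_add hq1']; norm_num
  calc ‖S u v‖ = c * ‖S (a : ZMod q1) (b : ZMod q1)‖ := by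
        rw [hS, norm_mul, Complex.norm_natCast]
    _ ≤ c * (C * (q1.totient : ℝ) * (q1 : ℝ) ^ (-(1/16) : ℝ)) := by gcongr
    _ = C * (q.totient : ℝ) * (q1 : ℝ) ^ (-(1/32) : ℝ) * (q1 : ℝ) ^ (-(1/32) : ℝ) := by
        rw [hφ, hsplit]; ring
    _ ≤ _ := by
        have k1 := key u hgu
        have k2 := key v hgv
        gcongr

end Pool.Agent.Lib.P1aceP
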