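import Mathlib
import Pool.Agent.Lib.P1aceP.KlooR

/-!
# Pairs `(x, y)` of elements of a finite set with `x y = l` modulo `q`

`#{(x,y) ∈ K × K : xy = l} = q⁻² ∑_{r,u} Kh(r) Kh(u) S(-r, -ul)`, `Kh` the exponential sum of `K`, `S` the Kloosterman sum.
-/

set_option autoImplicit false

namespace Pool.Agent.Lib.P1aceP

open Finset Pool.Agent.P07318f.KlooAux

section

variable {q : ℕ} [NeZero q]

/-- the exponential sum of a finite set -/
noncomputable def Kh (K : Finset ℕ) (r : ZMod q) : ℂ :=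
  ∑ x ∈ K, ZMod.stdAddChar (r * (x : ZMod q))

/-- the number of elements of `K` in a class -/
def cnK (K : Finset ℕ) (z : ZMod q) : ℕ := (K.filter fun x : ℕ => (x : ZMod q) = z).card

lemma cnK_eq (K : Finset ℕ) (z : ZMod q) :
    (q : ℂ) * (cnK K z : ℂ) = ∑ r : ZMod q, Kh K r * ZMod.stdAddChar (-(r * z)) := by
  have hψ := ZMod.isPrimitive_stdAddChar q
  calc (q : ℂ) * (cnK K z : ℂ) = ∑ x ∈ K, if ((x : ZMod q) - z) = 0 then (q : ℂ) else 0 := by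
        unfold cnK
        rw [← Finset.sum_filter, Finset.sum_const, nsmul_eq_mul, mul_comm]
        simp only [sub_eq_zero]
    _ = ∑ x ∈ K, ∑ r : ZMod q, ZMod.stdAddChar (r * ((x : ZMod q) - z)) := by
        refine Finset.sum_congr rfl fun x _ => ?_
        rw [AddChar.sum_mulShift _ hψ, ZMod.card]
        simp
    _ = ∑ r : ZMod q, ∑ x ∈ K, ZMod.stdAddChar (r * ((x : ZMod q) - z)) := Finset.sum_comm
    _ = _ := by
        refine Finset.sum_congr rfl fun r _ => ?_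
        unfold Kh
        rw [Finset.sum_mul]
        refine Finset.sum_congr rfl fun x _ => ?_
        rw [← AddChar.map_add_eq_mul]
        congr 1
        ring

/-- the number of pairs with a given product -/
def pr (K : Finset ℕ) (l : ZMod q) : ℕ :=
  ((K ×ˢ K).filter fun p : ℕ × ℕ => ((p.1 : ZMod q) * (p.2 : ZMod q)) = l).card

lemma pr_eq_sum (K : Finset ℕ) (l : (ZMod q)ˣ) :
    pr K (l : ZMod q) = ∑ x : (ZMod q)ˣ, cnK K (x : ZMod q) * cnK K ((l : ZMod q) * ((x⁻¹ : (ZMod q)ˣ) : ZMod q)) := by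
  classical
  unfold pr cnK
  simp_rw [← Finset.card_product]
  rw [← Finset.card_biUnion]
  · congr 1
    ext ⟨a, b⟩
    simp only [mem_filter, mem_product, mem_biUnion, mem_univ, true_and]
    constructor
    · rintro ⟨⟨ha, hb⟩, hab⟩
      have hu : IsUnit (a : ZMod q) := by
        have : IsUnit ((a : ZMod q) * (b : ZMod q)) := by rw [hab]; exact l.isUnit
        exact isUnit_of_mul_isUnit_left this
      obtain ⟨x, hx⟩ := hu
      refine ⟨x, ⟨ha, hx.symm⟩, hb, ?_⟩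
      rw [← hab, ← hx]
      rw [mul_comm (x : ZMod q) (b : ZMod q), mul_assoc, Units.mul_inv, mul_one]
    · rintro ⟨x, ⟨ha, hax⟩, hb, hbx⟩
      refine ⟨⟨ha, hb⟩, ?_⟩
      rw [hax, hbx, mul_comm (l : ZMod q), ← mul_assoc, Units.mul_inv, one_mul]
  · intro x _ y _ hxy
    rw [Function.onFun, Finset.disjoint_left]
    rintro ⟨a, b⟩ h1 h2
    simp only [mem_filter, mem_product] at h1 h2
    exact hxy (Units.ext (h1.1.2.symm.trans h2.1.2))

lemma pr_eq (K : Finset ℕ) (l : (ZMod q)ˣ) :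
    (q : ℂ) ^ 2 * (pr K (l : ZMod q) : ℂ) =
      ∑ r : ZMod q, ∑ u : ZMod q, Kh K r * Kh K u * S (-r) (-(u * (l : ZMod q))) := by
  rw [pr_eq_sum]
  push_cast
  rw [Finset.mul_sum]
  calc ∑ x : (ZMod q)ˣ, (q : ℂ) ^ 2 * ((cnK K (x : ZMod q) : ℂ) * (cnK K ((l : ZMod q) * ((x⁻¹ : (ZMod q)ˣ) : ZMod q)) : ℂ))
      = ∑ x : (ZMod q)ˣ, (∑ r : ZMod q, Kh K r * ZMod.stdAddChar (-(r * (x : ZMod q)))) *
          ∑ u : ZMod q, Kh K u * ZMod.stdAddChar (-(u * ((l : ZMod q) * ((x⁻¹ : (ZMod q)ˣ) : ZMod q)))) := by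
        refine Finset.sum_congr rfl fun x _ => ?_
        rw [← cnK_eq, ← cnK_eq]
        ring
    _ = ∑ x : (ZMod q)ˣ, ∑ r : ZMod q, ∑ u : ZMod q, Kh K r * Kh K u *
          ZMod.stdAddChar ((-r) * (x : ZMod q) + (-(u * (l : ZMod q))) * ((x⁻¹ : (ZMod q)ˣ) : ZMod q)) := by
        refine Finset.sum_congr rfl fun x _ => ?_
        rw [Finset.sum_mul_sum]
        refine Finset.sum_congr rfl fun r _ => Finset.sum_congr rfl fun u _ => ?_
        have : ((-r) * (x : ZMod q) + (-(u * (l : ZMod q))) * ((x⁻¹ : (ZMod q)ˣ) : ZMod q)) =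
            (-(r * (x : ZMod q))) + (-(u * ((l : ZMod q) * ((x⁻¹ : (ZMod q)ˣ) : ZMod q)))) := by ring
        rw [this, AddChar.map_add_eq_mul]
        ring
    _ = ∑ r : ZMod q, ∑ u : ZMod q, ∑ x : (ZMod q)ˣ, Kh K r * Kh K u *
          ZMod.stdAddChar ((-r) * (x : ZMod q) + (-(u * (l : ZMod q))) * ((x⁻¹ : (ZMod q)ˣ) : ZMod q)) := by
        rw [Finset.sum_comm]
        exact Finset.sum_congr rfl fun r _ => Finset.sum_comm
    _ = _ := by
        refine Finset.sum_congr rfl fun r _ => Finset.sum_congr rfl fun u _ => ?_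
        unfold S
        rw [Finset.mul_sum]

omit [NeZero q] in
lemma gcd_mul_unit (u : ZMod q) (l : (ZMod q)ˣ) : Nat.gcd (u * (l : ZMod q)).val q = Nat.gcd u.val q := by
  rw [ZMod.val_mul, ← Nat.gcd_rec, Nat.gcd_comm, Nat.Coprime.gcd_mul_right_cancel]
  exact ZMod.val_coe_unit_coprime l

lemma gcd_neg (u : ZMod q) : Nat.gcd (-u).val q = Nat.gcd u.val q := by
  have := gcd_mul_unit u (-1 : (ZMod q)ˣ)
  simpa using this

lemma Kh_zero (K : Finset ℕ) : Kh K (0 : ZMod q) = (K.card : ℂ) := by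
  unfold Kh
  simp

/-- **The count of pairs.** -/
theorem pairs_le {C : ℝ} (hC : 0 < C) (hb : ∀ u v : ZMod q,
    ‖S u v‖ ≤ C * (q.totient : ℝ) *
      ((q / Nat.gcd u.val q : ℕ) : ℝ) ^ (-(1/32) : ℝ) * ((q / Nat.gcd v.val q : ℕ) : ℝ) ^ (-(1/32) : ℝ))
    (K : Finset ℕ) (X : ℝ)
    (hX : ∑ r ∈ (univ : Finset (ZMod q)).erase 0, ‖Kh K r‖ * ((q / Nat.gcd r.val q : ℕ) : ℝ) ^ (-(1/32) : ℝ) ≤ X * K.card)
    (l : (ZMod q)ˣ) :
    |(pr K (l : ZMod q) : ℝ) - (q.totient : ℝ) / (q : ℝ) ^ 2 * (K.card : ℝ) ^ 2| ≤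
      C * ((1 + X) ^ 2 - 1) * ((q.totient : ℝ) / (q : ℝ) ^ 2 * (K.card : ℝ) ^ 2) := by
  classical
  have hq : 0 < q := NeZero.pos q
  have hq' : (0 : ℝ) < q := by exact_mod_cast hq
  set a : ZMod q → ℝ := fun r => ‖Kh K r‖ * ((q / Nat.gcd r.val q : ℕ) : ℝ) ^ (-(1/32) : ℝ) with ha
  have ha0 : ∀ r, 0 ≤ a r := fun r => by simp only [ha]; positivity
  have haz : a 0 = K.card := by
    simp only [ha, Kh_zero, ZMod.val_zero, Nat.gcd_zero_left, Nat.div_self hq]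
    simp
  have hsum : ∑ r : ZMod q, a r ≤ (1 + X) * K.card := by
    rw [← Finset.add_sum_erase univ a (mem_univ 0), haz]
    linarith
  have hsum0 : 0 ≤ ∑ r : ZMod q, a r := Finset.sum_nonneg fun r _ => ha0 r
  have hsum2 : (∑ r : ZMod q, a r) ^ 2 ≤ (1 + X) ^ 2 * (K.card : ℝ) ^ 2 := by
    rw [← mul_pow]
    exact pow_le_pow_left₀ hsum0 hsum 2
  have hS0 : S (0 : ZMod q) 0 = (q.totient : ℂ) := by
    unfold S
    simp [ZMod.card_units_eq_totient]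
  -- the error
  have hE := pr_eq K l
  rw [← Fintype.sum_prod_type' (fun r u => Kh K r * Kh K u * S (-r) (-(u * (l : ZMod q))))] at hE
  rw [← Finset.add_sum_erase univ _ (mem_univ ((0 : ZMod q), (0 : ZMod q)))] at hE
  simp only [neg_zero, zero_mul, Kh_zero, hS0] at hE
  have hE2 : ((q : ℂ) ^ 2 * (pr K (l : ZMod q) : ℂ) - (K.card : ℂ) * (K.card : ℂ) * (q.totient : ℂ)) =
      ∑ p ∈ (univ : Finset (ZMod q × ZMod q)).erase (0, 0), Kh K p.1 * Kh K p.2 * S (-p.1) (-(p.2 * (l : ZMod q))) := by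
    rw [hE]; ring
  have hE3 : |(q : ℝ) ^ 2 * (pr K (l : ZMod q) : ℝ) - (K.card : ℝ) * (K.card : ℝ) * (q.totient : ℝ)| ≤
      ∑ p ∈ (univ : Finset (ZMod q × ZMod q)).erase (0, 0), C * (q.totient : ℝ) * (a p.1 * a p.2) := by
    have h1 : |(q : ℝ) ^ 2 * (pr K (l : ZMod q) : ℝ) - (K.card : ℝ) * (K.card : ℝ) * (q.totient : ℝ)| =
        ‖((q : ℂ) ^ 2 * (pr K (l : ZMod q) : ℂ) - (K.card : ℂ) * (K.card : ℂ) * (q.totient : ℂ))‖ := by
      rw [← Real.norm_eq_abs, ← Complex.norm_real]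
      push_cast
      rfl
    rw [h1, hE2]
    refine (norm_sum_le _ _).trans (Finset.sum_le_sum fun p _ => ?_)
    rw [norm_mul, norm_mul]
    have h2 := hb (-p.1) (-(p.2 * (l : ZMod q)))
    rw [gcd_neg, gcd_neg, gcd_mul_unit] at h2
    calc ‖Kh K p.1‖ * ‖Kh K p.2‖ * ‖S (-p.1) (-(p.2 * (l : ZMod q)))‖ ≤ ‖Kh K p.1‖ * ‖Kh K p.2‖ * (C * (q.totient : ℝ) *
      ((q / Nat.gcd p.1.val q : ℕ) : ℝ) ^ (-(1/32) : ℝ) * ((q / Nat.gcd p.2.val q : ℕ) : ℝ) ^ (-(1/32) : ℝ)) := by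
          gcongr
      _ = _ := by simp only [ha]; ring
  have hE4 : ∑ p ∈ (univ : Finset (ZMod q × ZMod q)).erase (0, 0), C * (q.totient : ℝ) * (a p.1 * a p.2) =
      C * (q.totient : ℝ) * ((∑ r : ZMod q, a r) ^ 2 - (K.card : ℝ) ^ 2) := by
    rw [← Finset.mul_sum]
    congr 1
    have h1 : ∑ p : ZMod q × ZMod q, a p.1 * a p.2 = (∑ r : ZMod q, a r) ^ 2 := by
      rw [sq, Finset.sum_mul_sum, Fintype.sum_prod_type]
    rw [← Finset.add_sum_erase univ _ (mem_univ ((0 : ZMod q), (0 : ZMod q)))] at h1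
    simp only [haz] at h1
    linarith
  rw [hE4] at hE3
  have hE5 : |(q : ℝ) ^ 2 * (pr K (l : ZMod q) : ℝ) - (K.card : ℝ) * (K.card : ℝ) * (q.totient : ℝ)| ≤
      C * (q.totient : ℝ) * (((1 + X) ^ 2 - 1) * (K.card : ℝ) ^ 2) := by
    refine hE3.trans ?_
    have : (∑ r : ZMod q, a r) ^ 2 - (K.card : ℝ) ^ 2 ≤ ((1 + X) ^ 2 - 1) * (K.card : ℝ) ^ 2 := by linarith
    gcongr
  have hq2 : (0 : ℝ) < (q : ℝ) ^ 2 := by positivity
  have h7 : (pr K (l : ZMod q) : ℝ) - (q.totient : ℝ) / (q : ℝ) ^ 2 * (K.card : ℝ) ^ 2 =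
      ((q : ℝ) ^ 2 * (pr K (l : ZMod q) : ℝ) - (K.card : ℝ) * (K.card : ℝ) * (q.totient : ℝ)) / (q : ℝ) ^ 2 := by
    field_simp
  rw [h7, abs_div, abs_of_pos hq2, div_le_iff₀ hq2]
  refine hE5.trans (le_of_eq ?_)
  field_simp

end

/-- **The count of pairs**, with the constant of `kloo_ratio`. -/
theorem pairs : ∃ C : ℝ, 0 < C ∧ ∀ (q : ℕ) [NeZero q] (K : Finset ℕ) (X : ℝ),
    ∑ r ∈ (univ : Finset (ZMod q)).erase 0, ‖Kh K r‖ * ((q / Nat.gcd r.val q : ℕ) : ℝ) ^ (-(1/32) : ℝ) ≤ X * K.card →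
    ∀ l : (ZMod q)ˣ, |(pr K (l : ZMod q) : ℝ) - (q.totient : ℝ) / (q : ℝ) ^ 2 * (K.card : ℝ) ^ 2| ≤
      C * ((1 + X) ^ 2 - 1) * ((q.totient : ℝ) / (q : ℝ) ^ 2 * (K.card : ℝ) ^ 2) := by
  obtain ⟨C, hC, hb⟩ := kloo_ratio
  exact ⟨C, hC, fun q _ K X hX l => pairs_le hC (fun u v => hb q u v) K X hX l⟩

end Pool.Agent.Lib.P1aceP
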