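import Mathlib
import Pool.Agent.Lib.P1aceP.Defs
import Pool.Agent.Lib.P1aceP.KeyL
import Pool.Agent.Lib.P1aceP.Pairs

set_option autoImplicit false

/-!
# Products of two integers with restricted digits
-/

namespace Pool.Agent.Lib.P1aceP

open Finset Pool.Agent.Lib.P1aceS

lemma card_D_ge {D : Finset ℕ} (h0D : 0 ∈ D) (hg : D.gcd id = 1) : 2 ≤ D.card := by
  by_contra hcon
  have h1 : D.card ≤ 1 := by omega
  have h2 : D = {0} := by
    refine (Finset.eq_singleton_iff_unique_mem).2 ⟨h0D, fun x hx => ?_⟩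
    exact Finset.card_le_one.1 h1 x hx 0 h0D
  rw [h2] at hg
  simp at hg

lemma s_ge {s : ℕ} {D : Finset ℕ} (h0D : 0 ∈ D) (hD : ∀ d ∈ D, d < s) (hg : D.gcd id = 1) :
    2 ≤ s := by
  have h2 := card_D_ge h0D hg
  have h3 : D ⊆ range s := fun d hd => mem_range.2 (hD d hd)
  have h4 := card_le_card h3
  rw [card_range] at h4
  omega

lemma clog_le_log {s q : ℕ} (hs : 2 ≤ s) (hq : 2 ≤ q) :
    (Nat.clog s q : ℝ) ≤ 3 * Real.log q := by
  have hqr : (2 : ℝ) ≤ q := by exact_mod_cast hq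
  have hsr : (2 : ℝ) ≤ s := by exact_mod_cast hs
  have hn : 0 < Nat.clog s q := Nat.clog_pos (by omega) hq
  obtain ⟨m, hm⟩ : ∃ m, Nat.clog s q = m + 1 := ⟨_, (Nat.sub_add_cancel hn).symm⟩
  have h1 := Nat.pow_pred_clog_lt_self (b := s) (by omega) hq
  rw [hm] at h1
  have h2 : ((s : ℝ) ^ m) ≤ q := by exact_mod_cast h1.le
  have h3 : (m : ℝ) * Real.log s ≤ Real.log q := by
    rw [← Real.log_pow]
    exact Real.log_le_log (by positivity) h2
  have hl2 : 0.6931471803 < Real.log 2 := Real.log_two_gt_d9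
  have h4 : Real.log 2 ≤ Real.log s := Real.log_le_log (by norm_num) hsr
  have h5 : Real.log 2 ≤ Real.log q := Real.log_le_log (by norm_num) hqr
  have h6 : (m : ℝ) * Real.log 2 ≤ Real.log q :=
    (mul_le_mul_of_nonneg_left h4 (Nat.cast_nonneg m)).trans h3
  rw [hm]
  push_cast
  have hm0 : (0 : ℝ) ≤ m := Nat.cast_nonneg m
  nlinarith

/-- **The number of pairs**, internal form. -/
theorem prod_main {s : ℕ} {D : Finset ℕ} (h0D : 0 ∈ D) (hD : ∀ d ∈ D, d < s)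
    (hg : D.gcd id = 1) {ε : ℝ} (hε : 0 < ε) : ∃ C : ℝ, 0 < C ∧ ∀ (q : ℕ) [NeZero q], 2 ≤ q →
      Nat.Coprime s q → ∀ L : ℕ, C * Real.log q ≤ L → ∀ l : (ZMod q)ˣ,
        |(pr (KS s D L) (l : ZMod q) : ℝ) -
            (q.totient : ℝ) / (q : ℝ) ^ 2 * (D.card : ℝ) ^ (2 * L)| ≤
          ε * ((q.totient : ℝ) / (q : ℝ) ^ 2 * (D.card : ℝ) ^ (2 * L)) := by
  have hs := s_ge h0D hD hg
  obtain ⟨ρ, hρ0, hρ1, hρ⟩ := exists_rho D h0D hg hs
  obtain ⟨C₀, hC₀, hpairs⟩ := pairs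
  set X : ℝ := min 1 (ε / (3 * C₀)) with hX
  have hX0 : 0 < X := lt_min one_pos (by positivity)
  have hX1 : X ≤ 1 := min_le_left _ _
  have hX2 : C₀ * ((1 + X) ^ 2 - 1) ≤ ε := by
    have h1 : X ≤ ε / (3 * C₀) := min_le_right _ _
    rw [le_div_iff₀ (by positivity)] at h1
    nlinarith
  obtain ⟨A, hA, hkey⟩ := key hs hρ0 hρ1 (η := 1 / 32) (by norm_num) hX0
  refine ⟨A * 3, by positivity, fun q _ hq hcop L hL l => ?_⟩
  have hL' : A * Nat.clog s q ≤ L := by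
    have h1 : (A : ℝ) * Nat.clog s q ≤ L := by
      calc (A : ℝ) * Nat.clog s q ≤ A * (3 * Real.log q) :=
            mul_le_mul_of_nonneg_left (clog_le_log hs hq) (Nat.cast_nonneg A)
        _ = A * 3 * Real.log q := by ring
        _ ≤ L := hL
    exact_mod_cast h1
  have hsum := hkey q hcop L hL'
  have hcard : ((KS s D L).card : ℝ) = (D.card : ℝ) ^ L := by
    rw [card_KS hs h0D hD]; push_cast; rfl
  have hK : ∑ r ∈ (univ : Finset (ZMod q)).erase 0,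
      ‖Kh (KS s D L) r‖ * ((q / Nat.gcd r.val q : ℕ) : ℝ) ^ (-(1/32) : ℝ) ≤
        X * (KS s D L).card := by
    rw [hcard]
    calc ∑ r ∈ (univ : Finset (ZMod q)).erase 0,
          ‖Kh (KS s D L) r‖ * ((q / Nat.gcd r.val q : ℕ) : ℝ) ^ (-(1/32) : ℝ)
        ≤ ∑ r ∈ (univ : Finset (ZMod q)).erase 0, (D.card : ℝ) ^ L *
            (ρ ^ fq s r.val q L * ((den q r : ℕ) : ℝ) ^ (-(1/32) : ℝ)) := by
          refine sum_le_sum fun r _ => ?_
          rw [← mul_assoc]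
          refine mul_le_mul_of_nonneg_right ?_ (by positivity)
          exact norm_kh_le hs h0D hD hρ L r
      _ = (D.card : ℝ) ^ L * ∑ r ∈ (univ : Finset (ZMod q)).erase 0,
            (ρ ^ fq s r.val q L * ((den q r : ℕ) : ℝ) ^ (-(1/32) : ℝ)) := by rw [mul_sum]
      _ ≤ (D.card : ℝ) ^ L * X := mul_le_mul_of_nonneg_left hsum (by positivity)
      _ = _ := by ring
  have h1 := hpairs q (KS s D L) X hK l
  rw [hcard] at h1
  have e : ((D.card : ℝ) ^ L) ^ 2 = (D.card : ℝ) ^ (2 * L) := by rw [← pow_mul, mul_comm]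
  rw [e] at h1
  refine h1.trans (mul_le_mul_of_nonneg_right hX2 (by positivity))

/-- The set of pairs. -/
lemma ncard_pairs {s : ℕ} {D : Finset ℕ} {q : ℕ} [NeZero q] (L : ℕ) (lam : ℤ) (l : (ZMod q)ˣ)
    (hl : (l : ZMod q) = (lam : ZMod q)) :
    {p : ℕ × ℕ | p.1 < s ^ L ∧ p.2 < s ^ L ∧ (∀ i, p.1 / s ^ i % s ∈ D) ∧
      (∀ i, p.2 / s ^ i % s ∈ D) ∧ ((p.1 : ℤ) * (p.2 : ℤ)) ≡ lam [ZMOD q]}.ncard =
        pr (KS s D L) (l : ZMod q) := by
  unfold pr
  rw [← Set.ncard_coe_finset]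
  congr 1
  ext p
  rw [Set.mem_ofPred_eq, mem_coe, mem_filter, mem_product, mem_KS, mem_KS, hl,
    ← ZMod.intCast_eq_intCast_iff]
  push_cast
  tauto

/-- Powers of `s` and powers of `q`. -/
lemma pow_le_rpow {s q : ℕ} (hs : 2 ≤ s) (hq : 2 ≤ q) {C : ℝ} (hC : 0 < C) :
    (s : ℝ) ^ (⌊C * Real.log q⌋₊ + 1) ≤
      (q : ℝ) ^ (C * Real.log s + Real.log s / Real.log 2) := by
  have hqr : (2 : ℝ) ≤ q := by exact_mod_cast hq
  have hsr : (2 : ℝ) ≤ s := by exact_mod_cast hs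
  have hq0 : (0 : ℝ) < q := by linarith
  have hs0 : (0 : ℝ) < s := by linarith
  have hlq : 0 ≤ Real.log q := Real.log_nonneg (by linarith)
  have hls : 0 < Real.log s := Real.log_pos (by linarith)
  have hl2 : 0 < Real.log 2 := Real.log_pos (by norm_num)
  have h5 : Real.log 2 ≤ Real.log q := Real.log_le_log (by norm_num) hqr
  have h1 : ((⌊C * Real.log q⌋₊ : ℕ) : ℝ) ≤ C * Real.log q := Nat.floor_le (by positivity)
  rw [← Real.rpow_natCast, Real.rpow_def_of_pos hs0, Real.rpow_def_of_pos hq0]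
  refine Real.exp_le_exp.2 ?_
  push_cast
  have h2 : Real.log s * ((⌊C * Real.log q⌋₊ : ℕ) : ℝ) ≤ Real.log s * (C * Real.log q) :=
    mul_le_mul_of_nonneg_left h1 hls.le
  have h3 : Real.log s ≤ Real.log q * (Real.log s / Real.log 2) := by
    rw [mul_div_assoc', le_div_iff₀ hl2]
    nlinarith
  nlinarith

end Pool.Agent.Lib.P1aceP
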