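import Mathlib
import Pool.Agent.Lib.P1aceP.Dil
import Pool.Agent.Lib.P1aceP.Mult
import Pool.Agent.Lib.P1aceP.KeyV
import Pool.Agent.Lib.P1aceP.ProdMain

set_option autoImplicit false

/-!
# Sums `x + a y` for almost all multipliers `a`
-/

namespace Pool.Agent.Lib.P1aceP

open Finset Pool.Agent.Lib.P1aceS

/-- A general set of multipliers. -/
theorem dil_T {s : ℕ} {D : Finset ℕ} (h0D : 0 ∈ D) (hD : ∀ d ∈ D, d < s) (hg : D.gcd id = 1) :
    ∃ R : ℝ, 0 < R ∧ ∀ ε : ℝ, 0 < ε → ε ≤ 1 → ∀ (q : ℕ) [NeZero q], 2 ≤ q → Nat.Coprime s q →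
      ∀ (T : Finset ℕ) (η : ℝ), 0 < η → η ≤ 1 →
        (∀ d : ℕ, 0 < d → d ≤ q → ∀ z : ℕ, ((T.filter fun a => a % d = z).card : ℝ) ≤
          2 * T.card * (d : ℝ) ^ (-(2 * η))) →
        ∀ L : ℕ, R * (1 + Real.log (1 / (ε * η))) * Real.log q ≤ L →
          ∃ B : Finset ℕ, B ⊆ T ∧ (B.card : ℝ) ≤ ε * T.card ∧ ∀ a ∈ T, a ∉ B →
            ∀ lam : ZMod q, |(q : ℝ) * dil D s L a lam - (D.card : ℝ) ^ (2 * L)| ≤
              ε * (D.card : ℝ) ^ (2 * L) := by
  have hs := s_ge h0D hD hg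
  obtain ⟨ρ, hρ0, hρ1, hρ⟩ := exists_rho D h0D hg hs
  obtain ⟨R, hR, hkey⟩ := key_eps hs hρ0 hρ1
  refine ⟨R * 9, by positivity, fun ε hε hε1 q _ hq hcop T η hη hη1 hmult L hL => ?_⟩
  have hqr : (2 : ℝ) ≤ q := by exact_mod_cast hq
  have hlq : 0 < Real.log q := Real.log_pos (by linarith)
  set ε' : ℝ := ε ^ 2 / 4 with hε'
  have hε'0 : 0 < ε' := by positivity
  have hε'1 : ε' ≤ 1 := by rw [hε']; nlinarith
  have hεη : 0 < ε * η := by positivity
  have hεη1 : ε * η ≤ 1 := by nlinarith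
  have hlog : 0 ≤ Real.log (1 / (ε * η)) := Real.log_nonneg (by rw [le_div_iff₀ hεη]; linarith)
  have hlog' : 1 + Real.log (1 / (ε' * η)) ≤ 3 * (1 + Real.log (1 / (ε * η))) := by
    have h1 : 1 / (ε' * η) ≤ 4 * (1 / (ε * η)) ^ 2 := by
      have e : 4 * (1 / (ε * η)) ^ 2 = 1 / (ε' * η) * (1 / η) := by
        rw [hε']; field_simp; try ring
      rw [e]
      refine le_mul_of_one_le_right (by positivity) ?_
      rw [le_div_iff₀ hη]; linarith
    have h2 : Real.log (1 / (ε' * η)) ≤ Real.log 4 + 2 * Real.log (1 / (ε * η)) := by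
      refine (Real.log_le_log (by positivity) h1).trans (le_of_eq ?_)
      rw [Real.log_mul (by norm_num) (by positivity), Real.log_pow]
      push_cast; ring
    have h3 : Real.log 4 ≤ 2 := by
      have e : (4 : ℝ) = 2 ^ 2 := by norm_num
      rw [e, Real.log_pow]
      have := Real.log_two_lt_d9
      push_cast
      linarith
    linarith
  have hL' : R * (1 + Real.log (1 / (ε' * η))) * Nat.clog s q ≤ L := by
    calc R * (1 + Real.log (1 / (ε' * η))) * Nat.clog s q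
        ≤ R * (3 * (1 + Real.log (1 / (ε * η)))) * Nat.clog s q := by gcongr
      _ ≤ R * (3 * (1 + Real.log (1 / (ε * η)))) * (3 * Real.log q) :=
          mul_le_mul_of_nonneg_left (clog_le_log hs hq) (by positivity)
      _ = R * 9 * (1 + Real.log (1 / (ε * η))) * Real.log q := by ring
      _ ≤ L := hL
  have hX := hkey ε' η hε'0 hε'1 hη hη1 q hcop L hL'
  refine dil_bad hs h0D hD hρ0 hρ1 hρ T hη hε hmult hX hε'1 ?_
  rw [hε']
  linarith

lemma one_add_log_le {Z : ℝ} (hZ : 2 ≤ Z) : 1 + Real.log Z ≤ 3 * Real.log Z := by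
  have h1 : Real.log 2 ≤ Real.log Z := Real.log_le_log (by norm_num) hZ
  have h2 := Real.log_two_gt_d9
  linarith

/-- Multipliers in an interval. -/
theorem dil_interval {s : ℕ} {D : Finset ℕ} (h0D : 0 ∈ D) (hD : ∀ d ∈ D, d < s)
    (hg : D.gcd id = 1) : ∃ C : ℝ, 0 < C ∧ ∀ ε : ℝ, 0 < ε → ε ≤ 1 → ∀ (q : ℕ) [NeZero q],
      2 ≤ q → Nat.Coprime s q → ∀ H : ℕ, 2 ≤ H → H ≤ q → ∀ L : ℕ,
        C * Real.log (2 * Real.log q / (ε * Real.log H)) * Real.log q ≤ L →
          ∃ B : Finset ℕ, (B.card : ℝ) ≤ ε * H ∧ ∀ a : ℕ, 0 < a → a ≤ H → a ∉ B →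
            ∀ lam : ZMod q, |(q : ℝ) * dil D s L a lam - (D.card : ℝ) ^ (2 * L)| ≤
              ε * (D.card : ℝ) ^ (2 * L) := by
  obtain ⟨R, hR, h⟩ := dil_T h0D hD hg
  refine ⟨R * 3, by positivity, fun ε hε hε1 q _ hq hcop H hH hHq L hL => ?_⟩
  have hqr : (2 : ℝ) ≤ q := by exact_mod_cast hq
  have hHr : (2 : ℝ) ≤ H := by exact_mod_cast hH
  have hHqr : (H : ℝ) ≤ q := by exact_mod_cast hHq
  have hlq : 0 < Real.log q := Real.log_pos (by linarith)
  have hlH : 0 < Real.log H := Real.log_pos (by linarith)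
  have hlHq : Real.log H ≤ Real.log q := Real.log_le_log (by linarith) hHqr
  set η : ℝ := Real.log H / (2 * Real.log q) with hη
  have hη0 : 0 < η := by positivity
  have hη1 : η ≤ 1 := by
    rw [hη, div_le_one (by positivity)]; linarith
  set Z : ℝ := 2 * Real.log q / (ε * Real.log H) with hZ
  have hZ2 : 2 ≤ Z := by
    rw [hZ, le_div_iff₀ (by positivity)]
    nlinarith
  have e1 : 1 / (ε * η) = Z := by
    rw [hη, hZ]; field_simp
  have hL' : R * (1 + Real.log (1 / (ε * η))) * Real.log q ≤ L := by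
    refine le_trans ?_ hL
    rw [e1]
    calc R * (1 + Real.log Z) * Real.log q ≤ R * (3 * Real.log Z) * Real.log q :=
          mul_le_mul_of_nonneg_right
            (mul_le_mul_of_nonneg_left (one_add_log_le hZ2) hR.le) hlq.le
      _ = _ := by ring
  obtain ⟨B, hBT, hB, hgood⟩ := h ε hε hε1 q hq hcop (Icc 1 H) η hη0 hη1
    (fun d hd hdq z => mult_Icc hH hHq d hd hdq z) L hL'
  refine ⟨B, ?_, fun a ha haH haB => hgood a (mem_Icc.2 ⟨ha, haH⟩) haB⟩
  rw [Nat.card_Icc, Nat.add_sub_cancel] at hB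
  exact hB

/-- Multipliers with restricted digits. -/
theorem dil_digits {s : ℕ} {D : Finset ℕ} (h0D : 0 ∈ D) (hD : ∀ d ∈ D, d < s)
    (hg : D.gcd id = 1) : ∃ C : ℝ, 0 < C ∧ ∀ ε : ℝ, 0 < ε → ε ≤ 1 → ∀ (q : ℕ) [NeZero q],
      2 ≤ q → Nat.Coprime s q → ∀ l : ℕ, 1 ≤ l → s ^ l ≤ q → ∀ L : ℕ,
        C * Real.log (2 * Real.log q / (ε * (l * Real.log s))) * Real.log q ≤ L →
          ∃ B : Finset ℕ, (B.card : ℝ) ≤ ε * (D.card : ℝ) ^ l ∧ ∀ a ∈ KS s D l, a ∉ B →
            ∀ lam : ZMod q, |(q : ℝ) * dil D s L a lam - (D.card : ℝ) ^ (2 * L)| ≤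
              ε * (D.card : ℝ) ^ (2 * L) := by
  have hs := s_ge h0D hD hg
  have h2 := card_D_ge h0D hg
  have hsr : (2 : ℝ) ≤ s := by exact_mod_cast hs
  have hls : 0 < Real.log s := Real.log_pos (by linarith)
  have hl2 : 0 < Real.log 2 := Real.log_pos (by norm_num)
  have hls2 : Real.log 2 ≤ Real.log s := Real.log_le_log (by norm_num) hsr
  have hl2' : 0.6931471803 < Real.log 2 := Real.log_two_gt_d9
  have hl2'' : Real.log 2 < 0.6931471808 := Real.log_two_lt_d9
  obtain ⟨R, hR, h⟩ := dil_T h0D hD hg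
  set K : ℝ := 3 * Real.log s ^ 2 / Real.log 2 with hK
  have hK1 : 1 ≤ K := by
    rw [hK, le_div_iff₀ hl2]
    nlinarith
  have hlK : 0 ≤ Real.log K := Real.log_nonneg hK1
  refine ⟨R * (1 + Real.log K) * 3, by positivity,
    fun ε hε hε1 q _ hq hcop l hl hslq L hL => ?_⟩
  have hqr : (2 : ℝ) ≤ q := by exact_mod_cast hq
  have hlq : 0 < Real.log q := Real.log_pos (by linarith)
  have hlr : (1 : ℝ) ≤ l := by exact_mod_cast hl
  have hlr0 : (0 : ℝ) < l := by linarith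
  have hlcl : l ≤ Nat.clog s q := by
    by_contra hcon
    push Not at hcon
    have h1 : s ^ Nat.clog s q < s ^ l := Nat.pow_lt_pow_right (by omega) hcon
    have h3 := Nat.le_pow_clog (b := s) (by omega) q
    omega
  have hcl1 : (l : ℝ) ≤ Nat.clog s q := by exact_mod_cast hlcl
  have hcl0 : (0 : ℝ) < Nat.clog s q := by linarith
  have hclq := clog_le_log hs hq
  have hllog : (l : ℝ) * Real.log s ≤ Real.log q := by
    rw [← Real.log_pow]
    refine Real.log_le_log (by positivity) ?_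
    exact_mod_cast hslq
  set β : ℝ := (l : ℝ) / Nat.clog s q with hβ
  have hβ0 : 0 < β := by positivity
  have hβ1 : β ≤ 1 := by rw [hβ, div_le_one hcl0]; exact hcl1
  have hlb : β * Nat.clog s q ≤ l := by rw [hβ, div_mul_cancel₀ _ hcl0.ne']
  set η : ℝ := β * (Real.log 2 / (2 * Real.log s)) with hη
  have hη0 : 0 < η := by positivity
  have hη1 : η ≤ 1 := by
    have h1 : Real.log 2 / (2 * Real.log s) ≤ 1 := by
      rw [div_le_one (by positivity)]; linarith
    rw [hη]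
    calc β * (Real.log 2 / (2 * Real.log s)) ≤ 1 * 1 :=
          mul_le_mul hβ1 h1 (by positivity) (by norm_num)
      _ = 1 := one_mul 1
  set Z : ℝ := 2 * Real.log q / (ε * (l * Real.log s)) with hZ
  have hZ2 : 2 ≤ Z := by
    rw [hZ, le_div_iff₀ (by positivity)]
    have : 0 < (l : ℝ) * Real.log s := by positivity
    nlinarith
  have hlZ : 0 ≤ Real.log Z := Real.log_nonneg (by linarith)
  have hinv : 1 / (ε * η) ≤ K * Z := by
    have e1 : 1 / (ε * η) = Nat.clog s q * (2 * Real.log s / (ε * l * Real.log 2)) := by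
      rw [hη, hβ]; field_simp
    have e2 : K * Z = (3 * Real.log q) * (2 * Real.log s / (ε * l * Real.log 2)) := by
      rw [hK, hZ]; field_simp
    rw [e1, e2]
    exact mul_le_mul_of_nonneg_right hclq (by positivity)
  have hL' : R * (1 + Real.log (1 / (ε * η))) * Real.log q ≤ L := by
    refine le_trans ?_ hL
    have e1 : Real.log (1 / (ε * η)) ≤ Real.log K + Real.log Z := by
      rw [← Real.log_mul (by positivity) (by positivity)]
      exact Real.log_le_log (by positivity) hinv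
    have e2 : 1 + Real.log (1 / (ε * η)) ≤ (1 + Real.log K) * (1 + Real.log Z) := by
      nlinarith [mul_nonneg hlK hlZ]
    have e3 : (1 + Real.log K) * (1 + Real.log Z) ≤ (1 + Real.log K) * (3 * Real.log Z) :=
      mul_le_mul_of_nonneg_left (one_add_log_le hZ2) (by positivity)
    calc R * (1 + Real.log (1 / (ε * η))) * Real.log q
        ≤ R * ((1 + Real.log K) * (3 * Real.log Z)) * Real.log q :=
          mul_le_mul_of_nonneg_right (mul_le_mul_of_nonneg_left (e2.trans e3) hR.le) hlq.le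
      _ = _ := by ring
  obtain ⟨B, hBT, hB, hgood⟩ := h ε hε hε1 q hq hcop (KS s D l) η hη0 hη1
    (fun d hd hdq z => mult_KS hs h0D hD h2 hβ0 hβ1 hlb d hd hdq z) L hL'
  refine ⟨B, ?_, fun a ha haB => hgood a ha haB⟩
  rw [card_KS hs h0D hD] at hB
  push_cast at hB
  exact hB

end Pool.Agent.Lib.P1aceP
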