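import Mathlib
import Pool.Agent.Lib.P1aceP.DilMain

set_option autoImplicit false

/-!
# Sums `x + a y`: the final statements
-/

namespace Pool.Agent.Lib.P1aceP

open Finset Pool.Agent.Lib.P1aceS

lemma ncard_dil {s : ℕ} {D : Finset ℕ} {q : ℕ} [NeZero q] (L a : ℕ) (lam : ℤ) :
    {p : ℕ × ℕ | p.1 < s ^ L ∧ p.2 < s ^ L ∧ (∀ i, p.1 / s ^ i % s ∈ D) ∧
      (∀ i, p.2 / s ^ i % s ∈ D) ∧ ((p.1 : ℤ) + (a : ℤ) * (p.2 : ℤ)) ≡ lam [ZMOD q]}.ncard =
        dil D s L a (lam : ZMod q) := by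
  unfold dil
  rw [← Set.ncard_coe_finset]
  congr 1
  ext p
  rw [Set.mem_ofPred_eq, mem_coe, mem_filter, mem_product, mem_KS, mem_KS,
    ← ZMod.intCast_eq_intCast_iff]
  push_cast
  tauto

lemma div_form {q N : ℕ} (hq : 0 < q) {M ε : ℝ} (h : |(q : ℝ) * N - M| ≤ ε * M) :
    |(N : ℝ) - M / q| ≤ ε * (M / q) := by
  have hqr : (0 : ℝ) < q := by exact_mod_cast hq
  have e : (N : ℝ) - M / q = ((q : ℝ) * N - M) / q := by field_simp
  rw [e, abs_div, abs_of_pos hqr, div_le_iff₀ hqr]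
  calc |(q : ℝ) * N - M| ≤ ε * M := h
    _ = _ := by field_simp

lemma exists_pos {q : ℕ} [NeZero q] {D : Finset ℕ} {s L a : ℕ} {lam : ZMod q}
    (h : 2 * (KS s D L).card < dil D s L a lam) : ∃ x ∈ KS s D L, ∃ y ∈ KS s D L,
      0 < x ∧ 0 < y ∧ ((x + a * y : ℕ) : ZMod q) = lam := by
  classical
  by_contra hcon
  push Not at hcon
  have hsub : ((KS s D L ×ˢ KS s D L).filter fun p : ℕ × ℕ =>
      ((p.1 + a * p.2 : ℕ) : ZMod q) = lam) ⊆
        (({0} : Finset ℕ) ×ˢ KS s D L) ∪ (KS s D L ×ˢ ({0} : Finset ℕ)) := by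
    rintro ⟨x, y⟩ hp
    rw [mem_filter, mem_product] at hp
    obtain ⟨⟨hx, hy⟩, hxy⟩ := hp
    simp only at hx hy hxy
    rw [mem_union, mem_product, mem_product, mem_singleton, mem_singleton]
    simp only
    rcases Nat.eq_zero_or_pos x with h1 | h1
    · left; exact ⟨h1, hy⟩
    · rcases Nat.eq_zero_or_pos y with h2 | h2
      · right; exact ⟨hx, h2⟩
      · exact absurd hxy (hcon x hx y hy h1 h2)
  have h1 := (card_le_card hsub).trans (card_union_le _ _)
  rw [card_product, card_product, card_singleton, one_mul, mul_one] at h1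
  unfold dil at h
  omega

open Real in
theorem dilates_main {s : ℕ} {D : Finset ℕ} (h0 : 0 ∈ D) (hD : ∀ d ∈ D, d < s)
    (hg : D.gcd id = 1) :
    (∃ C : ℝ, 0 < C ∧ ∀ ε : ℝ, 0 < ε → ε ≤ 1 → ∀ q H L : ℕ, 2 ≤ q → Nat.Coprime s q → 2 ≤ H →
      H ≤ q → C * log (2 * log q / (ε * log H)) * log q ≤ L →
        ∃ B : Finset ℕ, (B.card : ℝ) ≤ ε * H ∧ ∀ a : ℕ, 0 < a → a ≤ H → a ∉ B → ∀ lam : ℤ,
          |({p : ℕ × ℕ | p.1 < s ^ L ∧ p.2 < s ^ L ∧ (∀ i, p.1 / s ^ i % s ∈ D) ∧
              (∀ i, p.2 / s ^ i % s ∈ D) ∧ (p.1 + a * p.2 : ℤ) ≡ lam [ZMOD q]}.ncard : ℝ) -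
              (D.card : ℝ) ^ (2 * L) / q| ≤ ε * ((D.card : ℝ) ^ (2 * L) / q)) ∧
    (∃ C : ℝ, 0 < C ∧ ∀ ε : ℝ, 0 < ε → ε ≤ 1 → ∀ q l L : ℕ, 2 ≤ q → Nat.Coprime s q → 1 ≤ l →
      s ^ l ≤ q → C * log (2 * log q / (ε * log (s ^ l))) * log q ≤ L →
        ∃ B : Finset ℕ, (B.card : ℝ) ≤ ε * (D.card : ℝ) ^ l ∧ ∀ a : ℕ, a < s ^ l →
          (∀ i, a / s ^ i % s ∈ D) → a ∉ B → ∀ lam : ℤ,
          |({p : ℕ × ℕ | p.1 < s ^ L ∧ p.2 < s ^ L ∧ (∀ i, p.1 / s ^ i % s ∈ D) ∧
              (∀ i, p.2 / s ^ i % s ∈ D) ∧ (p.1 + a * p.2 : ℤ) ≡ lam [ZMOD q]}.ncard : ℝ) -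
              (D.card : ℝ) ^ (2 * L) / q| ≤ ε * ((D.card : ℝ) ^ (2 * L) / q)) ∧
    ∃ C : ℝ, 0 < C ∧ ∀ q H N : ℕ, 2 ≤ q → Nat.Coprime s q → s ≤ H → H ≤ q →
      (q : ℝ) ^ (C * log (2 * log q / log H)) ≤ N →
        ∃ a : ℕ, 0 < a ∧ a < H ∧ (∀ i, a / s ^ i % s ∈ D) ∧ ∀ lam : ℤ, ∃ x y : ℕ,
          0 < x ∧ x < N ∧ 0 < y ∧ y < N ∧ (∀ i, x / s ^ i % s ∈ D) ∧
            (∀ i, y / s ^ i % s ∈ D) ∧ (x + a * y : ℤ) ≡ lam [ZMOD q] := by
  have hs := s_ge h0 hD hg
  have h2 := card_D_ge h0 hg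
  have hsr : (2 : ℝ) ≤ s := by exact_mod_cast hs
  have hls : 0 < log s := log_pos (by linarith)
  have hl2 : 0 < log 2 := log_pos (by norm_num)
  have hl2' : 0.6931471803 < log 2 := Real.log_two_gt_d9
  refine ⟨?_, ?_, ?_⟩
  · obtain ⟨C, hC, h⟩ := dil_interval h0 hD hg
    refine ⟨C, hC, fun ε hε hε1 q H L hq hcop hH hHq hL => ?_⟩
    have : NeZero q := ⟨by omega⟩
    obtain ⟨B, hB, hgood⟩ := h ε hε hε1 q hq hcop H hH hHq L hL
    refine ⟨B, hB, fun a ha haH haB lam => ?_⟩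
    rw [ncard_dil]
    exact div_form (by omega) (hgood a ha haH haB (lam : ZMod q))
  · obtain ⟨C, hC, h⟩ := dil_digits h0 hD hg
    refine ⟨C, hC, fun ε hε hε1 q l L hq hcop hl hlq hL => ?_⟩
    have : NeZero q := ⟨by omega⟩
    rw [log_pow] at hL
    obtain ⟨B, hB, hgood⟩ := h ε hε hε1 q hq hcop l hl hlq L hL
    refine ⟨B, hB, fun a ha haD haB lam => ?_⟩
    rw [ncard_dil]
    exact div_form (by omega) (hgood a (mem_KS.2 ⟨ha, haD⟩) haB (lam : ZMod q))
  · obtain ⟨C, hC, h⟩ := dil_digits h0 hD hg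
    set C' : ℝ := 4 * C + 8 with hC'
    refine ⟨C' * log s + log s / log 2 ^ 2, by positivity, fun q H N hq hcop hH hHq hN => ?_⟩
    have : NeZero q := ⟨by omega⟩
    have hqr : (2 : ℝ) ≤ q := by exact_mod_cast hq
    have hlq : 0 < log q := log_pos (by linarith)
    have hsH : (s : ℝ) ≤ H := by exact_mod_cast hH
    have hHqr : (H : ℝ) ≤ q := by exact_mod_cast hHq
    have hlH : 0 < log H := log_pos (by linarith)
    have hlHq : log H ≤ log q := log_le_log (by linarith) hHqr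
    set x : ℝ := log (2 * log q / log H) with hx
    have hx0 : log 2 ≤ x := by
      refine log_le_log (by norm_num) ?_
      rw [le_div_iff₀ hlH]; linarith
    have hx1 : 0 < x := by linarith
    set l := Nat.log s H with hl
    have hl1 : 1 ≤ l := by
      rw [hl]
      exact Nat.log_pos (by omega) hH
    have hslH : s ^ l ≤ H := Nat.pow_log_le_self s (by omega)
    have hHsl : H < s ^ (l + 1) := Nat.lt_pow_succ_log_self (by omega) H
    have hlr : (1 : ℝ) ≤ l := by exact_mod_cast hl1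
    have hlog : log H ≤ 2 * (l * log s) := by
      have h1 : (H : ℝ) ≤ (s : ℝ) ^ (l + 1) := by exact_mod_cast hHsl.le
      calc log H ≤ log ((s : ℝ) ^ (l + 1)) := log_le_log (by linarith) h1
        _ = (l + 1 : ℕ) * log s := by rw [log_pow]
        _ ≤ 2 * (l * log s) := by push_cast; nlinarith
    have hcmp : log (2 * log q / (1 / 4 * (l * log s))) ≤ 4 * x := by
      have h1 : 2 * log q / (1 / 4 * (l * log s)) ≤ 2 ^ 3 * (2 * log q / log H) := by
        rw [div_le_iff₀ (by positivity)]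
        have e : 2 ^ 3 * (2 * log q / log H) * (1 / 4 * (l * log s)) =
            2 * log q * (2 * (l * log s)) / log H := by
          field_simp
          ring
        rw [e, le_div_iff₀ hlH]
        exact mul_le_mul_of_nonneg_left hlog (by positivity)
      calc log (2 * log q / (1 / 4 * (l * log s))) ≤ log (2 ^ 3 * (2 * log q / log H)) :=
            log_le_log (by positivity) h1
        _ = 3 * log 2 + x := by
            rw [log_mul (by norm_num) (by positivity), log_pow]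
            push_cast
            ring
        _ ≤ 4 * x := by linarith
    set L := ⌊C' * x * log q⌋₊ + 1 with hL
    have hLC : C' * x * log q ≤ L := by
      rw [hL]; push_cast; exact (Nat.lt_floor_add_one _).le
    have hL1 : C * log (2 * log q / (1 / 4 * (l * log s))) * log q ≤ L := by
      refine le_trans ?_ hLC
      refine mul_le_mul_of_nonneg_right ?_ hlq.le
      rw [hC']
      nlinarith
    have hL2 : 5 * log q ≤ L := by
      refine le_trans ?_ hLC
      refine mul_le_mul_of_nonneg_right ?_ hlq.le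
      rw [hC']
      nlinarith
    obtain ⟨B, hB, hgood⟩ := h (1 / 4) (by norm_num) (by norm_num) q hq hcop l hl1
      (hslH.trans hHq) L hL1
    -- a good multiplier
    obtain ⟨a, haK, ha0, haB⟩ : ∃ a ∈ KS s D l, 0 < a ∧ a ∉ B := by
      by_contra hcon
      push Not at hcon
      have hsub : (KS s D l).erase 0 ⊆ B := by
        intro a ha
        rw [mem_erase] at ha
        exact hcon a ha.2 (Nat.pos_of_ne_zero ha.1)
      have h1 := card_le_card hsub
      have h3 : (KS s D l).card ≤ B.card + 1 := by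
        have := pred_card_le_card_erase (s := KS s D l) (a := 0)
        omega
      rw [card_KS hs h0 hD] at h3
      have h4 : ((D.card : ℝ)) ^ l ≤ B.card + 1 := by exact_mod_cast h3
      have h5 : (2 : ℝ) ≤ (D.card : ℝ) ^ l := by
        have h6 : (2 : ℝ) ≤ D.card := by exact_mod_cast h2
        calc (2 : ℝ) ≤ D.card := h6
          _ = (D.card : ℝ) ^ 1 := (pow_one _).symm
          _ ≤ (D.card : ℝ) ^ l := pow_le_pow_right₀ (by linarith) hl1
      linarith
    refine ⟨a, ha0, lt_of_lt_of_le (mem_KS.1 haK).1 hslH, (mem_KS.1 haK).2, fun lam => ?_⟩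
    have hcount := hgood a haK haB (lam : ZMod q)
    -- large powers
    have hDr : (2 : ℝ) ≤ D.card := by exact_mod_cast h2
    have hq3 : (q : ℝ) ^ 3 ≤ (D.card : ℝ) ^ L := by
      calc (q : ℝ) ^ 3 = exp (3 * log q) := by
            rw [mul_comm, ← Real.rpow_def_of_pos (by linarith)]
            exact (Real.rpow_natCast _ 3).symm
        _ ≤ exp (log 2 * L) := by
            refine exp_le_exp.2 ?_
            nlinarith
        _ = (2 : ℝ) ^ L := by
            rw [← Real.rpow_def_of_pos (by norm_num)]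
            exact Real.rpow_natCast _ L
        _ ≤ _ := pow_le_pow_left₀ (by norm_num) hDr L
    have hbig : 2 * (KS s D L).card < dil D s L a (lam : ZMod q) := by
      by_contra hcon
      push Not at hcon
      have h1 : (dil D s L a (lam : ZMod q) : ℝ) ≤ 2 * (D.card : ℝ) ^ L := by
        have h3 : ((KS s D L).card : ℝ) = (D.card : ℝ) ^ L := by
          rw [card_KS hs h0 hD]; push_cast; rfl
        rw [← h3]
        exact_mod_cast hcon
      have h3 := (abs_le.1 hcount).1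
      set M : ℝ := (D.card : ℝ) ^ L with hM
      have hM2 : (D.card : ℝ) ^ (2 * L) = M ^ 2 := by rw [hM, ← pow_mul, mul_comm]
      rw [hM2] at h3
      have hM0 : 0 < M := by positivity
      have h4 : (q : ℝ) * dil D s L a (lam : ZMod q) ≤ q * (2 * M) :=
        mul_le_mul_of_nonneg_left h1 (by linarith)
      have h5 : 3 / 4 * M ^ 2 ≤ q * (2 * M) := by linarith
      have h6 : 3 / 4 * M ≤ 2 * q := by
        by_contra hc
        push Not at hc
        nlinarith
      have h7 : 4 * (q : ℝ) ≤ (q : ℝ) ^ 3 := by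
        have h8 : (4 : ℝ) ≤ (q : ℝ) ^ 2 := by nlinarith
        calc 4 * (q : ℝ) ≤ (q : ℝ) ^ 2 * q := mul_le_mul_of_nonneg_right h8 (by linarith)
          _ = (q : ℝ) ^ 3 := by ring
      linarith
    obtain ⟨x', hx', y', hy', hx0', hy0', hxy⟩ := exists_pos hbig
    have hsN : s ^ L ≤ N := by
      have e1 : (s : ℝ) ^ L ≤ (q : ℝ) ^ (C' * x * log s + log s / log 2) :=
        pow_le_rpow hs hq (C := C' * x) (by positivity)
      have e2 : (q : ℝ) ^ (C' * x * log s + log s / log 2) ≤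
          (q : ℝ) ^ ((C' * log s + log s / log 2 ^ 2) * x) := by
        refine Real.rpow_le_rpow_of_exponent_le (by linarith) ?_
        have h7 : log s / log 2 ≤ log s / log 2 ^ 2 * x := by
          have e : log s / log 2 = log s / log 2 ^ 2 * log 2 := by field_simp
          rw [e]
          exact mul_le_mul_of_nonneg_left hx0 (by positivity)
        nlinarith
      have e3 := (e1.trans e2).trans hN
      exact_mod_cast e3
    refine ⟨x', y', hx0', lt_of_lt_of_le (mem_KS.1 hx').1 hsN, hy0',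
      lt_of_lt_of_le (mem_KS.1 hy').1 hsN, (mem_KS.1 hx').2, (mem_KS.1 hy').2, ?_⟩
    rw [← ZMod.intCast_eq_intCast_iff, ← hxy]
    push_cast
    rfl

end Pool.Agent.Lib.P1aceP
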