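import Mathlib
import Pool.Agent.Lib.P1aceP.KeyU

set_option autoImplicit false

/-!
# The sum over the frequencies: an exponentially small bound

A class with denominators of `n'` digits is divided into `L / (4 n')` windows, so that its sum is
at most `exp (- a L / (16 n') - y n')` up to constants.
-/

namespace Pool.Agent.Lib.P1aceP

open Finset Pool.Agent.Lib.P1aceS

/-- **The sum over the frequencies**, exponentially small. -/
theorem key_exp {s : ℕ} (hs : 2 ≤ s) {ρ : ℝ} (hρ0 : 0 < ρ) (hρ1 : ρ < 1) :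
    ∃ R c : ℝ, 0 < R ∧ 0 < c ∧ ∀ η : ℝ, 0 < η → η ≤ 1 → ∀ (q : ℕ) [NeZero q], 2 ≤ q →
      Nat.Coprime s q → ∀ L : ℕ, R * (1 + Real.log (1 / η)) * Nat.clog s q ≤ L →
        ∑ r ∈ univ.erase (0 : ZMod q), ρ ^ fq s r.val q L * ((den q r : ℕ) : ℝ) ^ (-η) ≤
          Real.exp (-(c * ((L : ℝ) / Nat.clog s q + √(η * L)))) := by
  have hsr : (2 : ℝ) ≤ s := by exact_mod_cast hs
  have hs0 : (0 : ℝ) < s := by linarith
  set a : ℝ := -Real.log ρ with ha
  have ha0 : 0 < a := by rw [ha]; linarith [Real.log_neg hρ0 hρ1]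
  set c₀ : ℝ := 1 / (8 * s) with hc₀
  have hc0 : 0 < c₀ := by positivity
  set M : ℝ := max 0 (Real.log (2 / (a * c₀))) with hM
  have hM0 : 0 ≤ M := le_max_left _ _
  have hM1 : Real.log (2 / (a * c₀)) ≤ M := le_max_right _ _
  set R₀ : ℝ := 2 / a * (1 + M) with hR₀
  have hR0 : 0 < R₀ := by positivity
  set M' : ℝ := max 0 (Real.log (28 * s ^ 2 / a)) with hM'
  have hM'0 : 0 ≤ M' := le_max_left _ _
  have hM'1 : Real.log (28 * s ^ 2 / a) ≤ M' := le_max_right _ _
  set R : ℝ := 4 * (R₀ + 1) + 64 / a * (1 + M') with hR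
  have hRpos : 0 < R := by positivity
  set c : ℝ := min (a / 64) (√(a / 3) / 4) with hc
  have hcpos : 0 < c := lt_min (by positivity) (by positivity)
  refine ⟨R, c, hRpos, hcpos, ?_⟩
  intro η hη hη1 q _ hq2 hcop L hL
  have hn0 : 0 < Nat.clog s q := Nat.clog_pos (by omega) hq2
  set n := Nat.clog s q with hn
  have hnr : (0 : ℝ) < n := by exact_mod_cast hn0
  have hlog : 0 ≤ Real.log (1 / η) := Real.log_nonneg (by rw [le_div_iff₀ hη]; linarith)
  set T : ℝ := 1 + Real.log (1 / η) with hT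
  have hT1 : 1 ≤ T := by linarith
  set J₀ : ℕ := ⌈R₀ * T⌉₊ with hJ
  have hJpos : 0 < J₀ := Nat.ceil_pos.2 (by positivity)
  have hJge : R₀ * T ≤ J₀ := Nat.le_ceil _
  have hJle : (J₀ : ℝ) ≤ (R₀ + 1) * T := by
    have h1 : (J₀ : ℝ) < R₀ * T + 1 := Nat.ceil_lt_add_one (by positivity)
    nlinarith
  have hJr : (1 : ℝ) ≤ J₀ := by exact_mod_cast hJpos
  -- the size of `ρ ^ J₀`
  have hρexp : ∀ J : ℕ, ρ ^ J = Real.exp (-(a * J)) := by
    intro J
    rw [← Real.rpow_natCast, Real.rpow_def_of_pos hρ0, ha]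
    congr 1; ring
  have hJexp : ∀ J : ℕ, (J : ℝ) * Real.exp (-(a * J / 2)) ≤ 2 / a := by
    intro J
    have h1 : a * J / 2 ≤ Real.exp (a * J / 2) := by
      have := Real.add_one_le_exp (a * J / 2)
      linarith
    rw [Real.exp_neg, le_div_iff₀ ha0]
    have hpos := Real.exp_pos (a * J / 2)
    rw [← div_eq_mul_inv, div_mul_eq_mul_div, div_le_iff₀ hpos]
    linarith
  have hmain : (J₀ : ℝ) * ρ ^ J₀ ≤ c₀ * η := by
    have h2 : Real.exp (-(a * J₀)) = Real.exp (-(a * J₀ / 2)) * Real.exp (-(a * J₀ / 2)) := by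
      rw [← Real.exp_add]; congr 1; ring
    have h4 : Real.exp (-(a * J₀ / 2)) ≤ a * c₀ / 2 * η := by
      have h5 : Real.log (2 / (a * c₀)) + Real.log (1 / η) ≤ a * J₀ / 2 := by
        have h6 : (1 + M) * T ≤ a * J₀ / 2 := by
          have : a / 2 * (R₀ * T) ≤ a / 2 * J₀ := mul_le_mul_of_nonneg_left hJge (by positivity)
          have h7 : a / 2 * (R₀ * T) = (1 + M) * T := by
            rw [hR₀]; field_simp
          linarith
        have h8 : Real.log (2 / (a * c₀)) + Real.log (1 / η) ≤ (1 + M) * T := by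
          rw [hT]; nlinarith
        linarith
      have h9 : Real.exp (-(a * J₀ / 2)) ≤
          Real.exp (-(Real.log (2 / (a * c₀)) + Real.log (1 / η))) :=
        Real.exp_le_exp.2 (by linarith)
      refine h9.trans (le_of_eq ?_)
      rw [Real.exp_neg, Real.exp_add, Real.exp_log (by positivity), Real.exp_log (by positivity)]
      field_simp
    calc (J₀ : ℝ) * ρ ^ J₀ = ((J₀ : ℝ) * Real.exp (-(a * J₀ / 2))) * Real.exp (-(a * J₀ / 2)) := by
          rw [hρexp, h2]; ring
      _ ≤ 2 / a * (a * c₀ / 2 * η) := mul_le_mul (hJexp J₀) h4 (Real.exp_pos _).le (by positivity)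
      _ = c₀ * η := by field_simp
  -- `γ`
  set y : ℝ := η / 2 * Real.log s with hy
  have hlog2' : (2 : ℝ) / 3 ≤ Real.log 2 := by linarith [Real.log_two_gt_d9]
  have hlogs : Real.log 2 ≤ Real.log s := Real.log_le_log (by norm_num) hsr
  have hls0 : 0 < Real.log s := by linarith
  have hy0 : 0 < y := by positivity
  have hyη : η / 3 ≤ y := by
    have : η / 2 * (2 / 3) ≤ η / 2 * Real.log s :=
      mul_le_mul_of_nonneg_left (by linarith) (by positivity)
    linarith
  have hey : 1 + y ≤ Real.exp y := by linarith [Real.add_one_le_exp y]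
  have hJ1 : (1 + ρ ^ J₀ * s) ^ 2 ≤ Real.exp y := by
    have h1 : ρ ^ J₀ * s ≤ η / 8 := by
      have h3 : ρ ^ J₀ ≤ (J₀ : ℝ) * ρ ^ J₀ := le_mul_of_one_le_left (by positivity) hJr
      calc ρ ^ J₀ * s ≤ (1 / (8 * s) * η) * s :=
            mul_le_mul_of_nonneg_right (h3.trans hmain) hs0.le
        _ = η / 8 := by field_simp
    have h0 : 0 ≤ ρ ^ J₀ * s := by positivity
    calc (1 + ρ ^ J₀ * s) ^ 2 ≤ (1 + η / 8) ^ 2 := by gcongr
      _ ≤ 1 + y := by nlinarith
      _ ≤ Real.exp y := hey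
  have hγη : (s : ℝ) ^ (-η) = Real.exp (-(2 * y)) := by
    rw [Real.rpow_def_of_pos hs0, hy]; congr 1; ring
  have hs2 : Real.exp (2 * y) ≤ s := by
    have : Real.exp (2 * y) = (s : ℝ) ^ η := by
      rw [Real.rpow_def_of_pos hs0, hy]; congr 1; ring
    rw [this]
    calc (s : ℝ) ^ η ≤ (s : ℝ) ^ (1 : ℝ) := Real.rpow_le_rpow_of_exponent_le (by linarith) hη1
      _ = s := Real.rpow_one _
  have hLr : (0 : ℝ) ≤ L := Nat.cast_nonneg L
  -- the exponent
  set E : ℝ := a / 32 * (L / n) + √(a / 3) / 4 * √(η * L) with hE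
  classical
  -- the classes
  have hsplit : ∑ r ∈ univ.erase (0 : ZMod q), ρ ^ fq s r.val q L * ((den q r : ℕ) : ℝ) ^ (-η) =
      ∑ m ∈ range (n + 1), ∑ r ∈ cls s q m,
        ρ ^ fq s r.val q L * ((den q r : ℕ) : ℝ) ^ (-η) := by
    rw [← Finset.sum_fiberwise_of_maps_to (s := univ.erase (0 : ZMod q))
      (t := range (n + 1)) (g := fun r => Nat.clog s (den q r))]
    · refine sum_congr rfl fun m _ => sum_congr ?_ fun _ _ => rfl
      ext r
      rw [mem_filter, mem_erase, mem_cls]
      simp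
    · intro r _
      rw [mem_range, Nat.lt_succ_iff]
      exact Nat.clog_mono_right _ (den_le r)
  have hcls : ∀ m ∈ range (n + 1), ∑ r ∈ cls s q m,
      ρ ^ fq s r.val q L * ((den q r : ℕ) : ℝ) ^ (-η) ≤
        4 * s ^ 2 / a * Real.exp (-E) * Real.exp (-(y / 2)) ^ m := by
    intro m hm
    rw [mem_range, Nat.lt_succ_iff] at hm
    rcases Nat.eq_zero_or_pos m with rfl | hm0
    · have h0 : cls s q 0 = ∅ := by
        rw [eq_empty_iff_forall_notMem]
        intro r hr
        exact absurd (cls_pos hs hr) (lt_irrefl 0)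
      rw [h0, sum_empty]
      positivity
    have hmr : (0 : ℝ) < m := by exact_mod_cast hm0
    have hmr1 : (1 : ℝ) ≤ m := by exact_mod_cast hm0
    have hmn : (m : ℝ) ≤ n := by exact_mod_cast hm
    obtain ⟨J, hJdef⟩ : ∃ J, J = L / (4 * m) := ⟨_, rfl⟩
    have hJL : 2 * J * (2 * m) ≤ L := by
      have := Nat.div_mul_le_self L (4 * m)
      rw [← hJdef] at this
      calc 2 * J * (2 * m) = J * (4 * m) := by ring
        _ ≤ L := this
    have hL0 : 4 * J₀ * n ≤ L := by
      have h1 : (4 : ℝ) * J₀ * n ≤ L := by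
        refine le_trans ?_ hL
        have h2 : (4 : ℝ) * J₀ ≤ R * T := by
          have h3 : 0 ≤ 64 / a * (1 + M') * T := by positivity
          calc (4 : ℝ) * J₀ ≤ 4 * ((R₀ + 1) * T) := by linarith
            _ ≤ 4 * ((R₀ + 1) * T) + 64 / a * (1 + M') * T := by linarith
            _ = R * T := by rw [hR]; ring
        exact mul_le_mul_of_nonneg_right h2 hnr.le
      exact_mod_cast h1
    have hJJ : J₀ ≤ J := by
      rw [hJdef, Nat.le_div_iff_mul_le (by omega)]
      calc J₀ * (4 * m) ≤ J₀ * (4 * n) := Nat.mul_le_mul_left _ (by omega)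
        _ = 4 * J₀ * n := by ring
        _ ≤ L := hL0
    have hJ0 : 0 < J := by omega
    have hJr0 : (1 : ℝ) ≤ J := by exact_mod_cast hJ0
    have hJlow : (L : ℝ) / (8 * m) ≤ J := by
      have h1 : L < (J + 1) * (4 * m) := by
        have := Nat.lt_div_mul_add (a := L) (b := 4 * m) (by omega)
        rw [← hJdef] at this
        calc L < J * (4 * m) + 4 * m := this
          _ = (J + 1) * (4 * m) := by ring
      have h2 : (L : ℝ) < (J + 1) * (4 * m) := by exact_mod_cast h1
      rw [div_le_iff₀ (by positivity)]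
      nlinarith
    have hden : ∀ r ∈ cls s q m, ((den q r : ℕ) : ℝ) ^ (-η) ≤
        Real.exp (2 * y) * Real.exp (-(2 * y * m)) := by
      intro r hr
      have hr' := mem_cls.1 hr
      have h1 : (s : ℝ) ^ m / s ≤ ((den q r : ℕ) : ℝ) := by
        obtain ⟨k, hk⟩ : ∃ k, m = k + 1 := ⟨m - 1, by omega⟩
        have h2 := Nat.pow_pred_clog_lt_self (b := s) (by omega) (one_lt_den hr'.1)
        rw [hr'.2, hk, Nat.pred_succ] at h2
        have h3 : ((s : ℝ) ^ k) ≤ ((den q r : ℕ) : ℝ) := by exact_mod_cast h2.le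
        rw [hk, pow_succ, mul_div_cancel_right₀ _ hs0.ne']
        exact h3
      calc ((den q r : ℕ) : ℝ) ^ (-η) ≤ ((s : ℝ) ^ m / s) ^ (-η) :=
            Real.rpow_le_rpow_of_nonpos (by positivity) h1 (by linarith)
        _ = Real.exp (2 * y) * Real.exp (-(2 * y * m)) := by
            rw [Real.div_rpow (by positivity) hs0.le, ← Real.rpow_natCast, ← Real.rpow_mul hs0.le,
              mul_comm (m : ℝ), Real.rpow_mul hs0.le, Real.rpow_natCast, hγη, ← Real.exp_nat_mul,
              div_eq_mul_inv, ← Real.exp_neg, mul_comm]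
            congr 2 <;> ring
    have hτ : ρ ^ J * s ≤ ρ ^ J₀ * s :=
      mul_le_mul_of_nonneg_right (pow_le_pow_of_le_one hρ0.le hρ1.le hJJ) hs0.le
    have hpow : (1 + ρ ^ J * s) ^ (2 * m) ≤ Real.exp (y * m) := by
      have h0 : 0 ≤ ρ ^ J * s := by positivity
      calc (1 + ρ ^ J * s) ^ (2 * m) = ((1 + ρ ^ J * s) ^ 2) ^ m := by rw [pow_mul]
        _ ≤ (Real.exp y) ^ m := by
            refine pow_le_pow_left₀ (by positivity) ?_ m
            refine le_trans ?_ hJ1
            gcongr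
        _ = Real.exp (y * m) := by rw [← Real.exp_nat_mul]; congr 1; ring
    have hJρ : 2 * J * ρ ^ J ≤ 4 / a * Real.exp (-(a * L / (16 * m))) := by
      have h2 : Real.exp (-(a * J)) = Real.exp (-(a * J / 2)) * Real.exp (-(a * J / 2)) := by
        rw [← Real.exp_add]; congr 1; ring
      have h3 : Real.exp (-(a * J / 2)) ≤ Real.exp (-(a * L / (16 * m))) := by
        refine Real.exp_le_exp.2 (neg_le_neg ?_)
        have h4 : a * L / (16 * m) = a / 2 * (L / (8 * m)) := by field_simp; ring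
        rw [h4]
        calc a / 2 * (L / (8 * m)) ≤ a / 2 * J := mul_le_mul_of_nonneg_left hJlow (by positivity)
          _ = a * J / 2 := by ring
      calc 2 * J * ρ ^ J = 2 * ((J : ℝ) * Real.exp (-(a * J / 2))) * Real.exp (-(a * J / 2)) := by
            rw [hρexp, h2]; ring
        _ ≤ 2 * (2 / a) * Real.exp (-(a * L / (16 * m))) :=
            mul_le_mul (mul_le_mul_of_nonneg_left (hJexp J) (by norm_num)) h3
              (Real.exp_pos _).le (by positivity)
        _ = _ := by ring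
    have hexpo : -(a * L / (16 * m)) + y * m + 2 * y * 0 - 2 * y * m ≤
        -E - y / 2 * m := by
      have h1 : a / 32 * (L / n) ≤ a / 32 * (L / m) := by
        refine mul_le_mul_of_nonneg_left ?_ (by positivity)
        exact div_le_div_of_nonneg_left hLr hmr hmn
      have h2 : √(a / 3) / 4 * √(η * L) ≤ a / 32 * (L / m) + y / 2 * m := by
        have e1 : √(a / 3) / 4 * √(η * L) = √(a / 3 * (η * L)) / 4 := by
          rw [Real.sqrt_mul (show (0 : ℝ) ≤ a / 3 by positivity)]; ring
        rw [e1, div_le_iff₀ (by norm_num)]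
        refine Real.sqrt_le_iff.2 ⟨by positivity, ?_⟩
        have e2 : a / 3 * (η * L) ≤ a * L * y := by
          calc a / 3 * (η * L) = a * L * (η / 3) := by ring
            _ ≤ a * L * y := mul_le_mul_of_nonneg_left hyη (by positivity)
        refine e2.trans ?_
        have e3 : 4 * ((a / 32 * (L / m)) * (y / 2 * m)) ≤
            (a / 32 * (L / m) + y / 2 * m) ^ 2 := by
          have e5 := sq_nonneg (a / 32 * (L / m) - y / 2 * m)
          calc 4 * ((a / 32 * (L / m)) * (y / 2 * m)) ≤ 4 * ((a / 32 * (L / m)) * (y / 2 * m)) +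
                (a / 32 * (L / m) - y / 2 * m) ^ 2 := by linarith
            _ = _ := by ring
        have e4 : (a / 32 * (L / m)) * (y / 2 * m) = a * L * y / 64 := by field_simp; ring
        rw [e4] at e3
        have e6 : ((a / 32 * (L / m) + y / 2 * m) * 4) ^ 2 =
            16 * (a / 32 * (L / m) + y / 2 * m) ^ 2 := by ring
        rw [e6]
        linarith
      have h3 : a * L / (16 * m) = 2 * (a / 32 * (L / m)) := by field_simp; ring
      rw [h3, hE]
      linarith
    calc ∑ r ∈ cls s q m, ρ ^ fq s r.val q L * ((den q r : ℕ) : ℝ) ^ (-η)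
        ≤ ∑ r ∈ cls s q m, ρ ^ fq s r.val q L * (Real.exp (2 * y) * Real.exp (-(2 * y * m))) :=
          sum_le_sum fun r hr => mul_le_mul_of_nonneg_left (hden r hr) (by positivity)
      _ = (∑ r ∈ cls s q m, ρ ^ fq s r.val q L) *
            (Real.exp (2 * y) * Real.exp (-(2 * y * m))) := by rw [sum_mul]
      _ ≤ (2 * J * ρ ^ J * s * (1 + ρ ^ J * s) ^ (2 * m)) *
            (Real.exp (2 * y) * Real.exp (-(2 * y * m))) :=
          mul_le_mul_of_nonneg_right (cls_bound hs hcop hρ0 hρ1 hJ0 hJL) (by positivity)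
      _ ≤ (4 / a * Real.exp (-(a * L / (16 * m))) * s * Real.exp (y * m)) *
            (s * Real.exp (-(2 * y * m))) := by
          gcongr
      _ = 4 * s ^ 2 / a * Real.exp (-(a * L / (16 * m)) + y * m + 2 * y * 0 - 2 * y * m) := by
          rw [Real.exp_sub, Real.exp_add, Real.exp_add, mul_zero, Real.exp_zero, Real.exp_neg (2 * y * m)]
          ring
      _ ≤ 4 * s ^ 2 / a * Real.exp (-E - y / 2 * m) :=
          mul_le_mul_of_nonneg_left (Real.exp_le_exp.2 hexpo) (by positivity)
      _ = _ := by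
          rw [← Real.exp_nat_mul, mul_assoc, ← Real.exp_add]
          congr 2; ring
  rw [hsplit]
  have hg0 : 0 < Real.exp (-(y / 2)) := Real.exp_pos _
  have hg1 : Real.exp (-(y / 2)) < 1 := by rw [Real.exp_lt_one_iff]; linarith
  have hgeom : ∑ m ∈ range (n + 1), Real.exp (-(y / 2)) ^ m ≤ 7 / η := by
    have h1 : ∑ m ∈ range (n + 1), Real.exp (-(y / 2)) ^ m ≤ (1 - Real.exp (-(y / 2)))⁻¹ := by
      rw [← tsum_geometric_of_lt_one hg0.le hg1]
      exact (summable_geometric_of_lt_one hg0.le hg1).sum_le_tsum _ fun m _ => by positivity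
    refine h1.trans ?_
    have h2 : Real.exp (-(y / 2)) ≤ 1 / (1 + η / 6) := by
      rw [Real.exp_neg, one_div]
      refine inv_anti₀ (by positivity) ?_
      have := Real.add_one_le_exp (y / 2)
      linarith
    have h3 : η / 7 ≤ 1 - Real.exp (-(y / 2)) := by
      have h4 : 1 / (1 + η / 6) ≤ 1 - η / 7 := by
        rw [div_le_iff₀ (by positivity)]
        nlinarith
      linarith
    calc (1 - Real.exp (-(y / 2)))⁻¹ ≤ (η / 7)⁻¹ := inv_anti₀ (by positivity) h3
      _ = 7 / η := by rw [inv_div]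
  calc ∑ m ∈ range (n + 1), ∑ r ∈ cls s q m,
        ρ ^ fq s r.val q L * ((den q r : ℕ) : ℝ) ^ (-η)
      ≤ ∑ m ∈ range (n + 1), 4 * s ^ 2 / a * Real.exp (-E) * Real.exp (-(y / 2)) ^ m :=
        sum_le_sum hcls
    _ = 4 * s ^ 2 / a * Real.exp (-E) * ∑ m ∈ range (n + 1), Real.exp (-(y / 2)) ^ m := by
        rw [mul_sum]
    _ ≤ 4 * s ^ 2 / a * Real.exp (-E) * (7 / η) :=
        mul_le_mul_of_nonneg_left hgeom (by positivity)
    _ = (28 * s ^ 2 / a) * (1 / η) * Real.exp (-E) := by ring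
    _ = Real.exp (Real.log (28 * s ^ 2 / a) + Real.log (1 / η) - E) := by
        rw [Real.exp_sub, Real.exp_add, Real.exp_log (by positivity), Real.exp_log (by positivity),
          Real.exp_neg]
        ring
    _ ≤ Real.exp (-(c * ((L : ℝ) / n + √(η * L)))) := by
        refine Real.exp_le_exp.2 ?_
        have h1 : Real.log (28 * s ^ 2 / a) + Real.log (1 / η) ≤ a / 64 * (L / n) := by
          have h2 : R * T ≤ L / n := by
            rw [le_div_iff₀ hnr]; exact hL
          have h3 : 64 / a * (1 + M') * T ≤ L / n := by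
            refine le_trans ?_ h2
            refine mul_le_mul_of_nonneg_right ?_ (by linarith)
            rw [hR]
            linarith
          have h4 : a / 64 * (64 / a * (1 + M') * T) ≤ a / 64 * (L / n) :=
            mul_le_mul_of_nonneg_left h3 (by positivity)
          have h5 : a / 64 * (64 / a * (1 + M') * T) = (1 + M') * T := by field_simp
          have h6 : Real.log (28 * s ^ 2 / a) + Real.log (1 / η) ≤ (1 + M') * T := by
            rw [hT]; nlinarith
          linarith
        have h2 : c * ((L : ℝ) / n) ≤ a / 64 * (L / n) :=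
          mul_le_mul_of_nonneg_right (min_le_left _ _) (by positivity)
        have h3 : c * √(η * L) ≤ √(a / 3) / 4 * √(η * L) :=
          mul_le_mul_of_nonneg_right (min_le_right _ _) (Real.sqrt_nonneg _)
        have h4 : a / 32 * ((L : ℝ) / n) = 2 * (a / 64 * (L / n)) := by ring
        rw [hE, mul_add, h4]
        linarith

end Pool.Agent.Lib.P1aceP
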