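import Mathlib
import Pool.Agent.Lib.P1aceP.KeyW
import Pool.Agent.Lib.P1aceP.DilFin

set_option autoImplicit false

/-!
# Sums `x + a y` and products: exponentially small errors
-/

namespace Pool.Agent.Lib.P1aceP

open Finset Pool.Agent.Lib.P1aceS

/-- A general set of multipliers. -/
theorem dil_T_exp {s : ℕ} {D : Finset ℕ} (h0D : 0 ∈ D) (hD : ∀ d ∈ D, d < s)
    (hg : D.gcd id = 1) : ∃ R c : ℝ, 0 < R ∧ 0 < c ∧ ∀ (q : ℕ) [NeZero q], 2 ≤ q →
      Nat.Coprime s q → ∀ (T : Finset ℕ) (η : ℝ), 0 < η → η ≤ 1 →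
        (∀ d : ℕ, 0 < d → d ≤ q → ∀ z : ℕ, ((T.filter fun a => a % d = z).card : ℝ) ≤
          2 * T.card * (d : ℝ) ^ (-(2 * η))) →
        ∀ L : ℕ, R * (1 + Real.log (1 / η)) * Real.log q ≤ L → ∀ E : ℝ, 0 ≤ E →
          E ≤ (L : ℝ) / Real.log q + √(η * L) →
          ∃ B : Finset ℕ, B ⊆ T ∧ (B.card : ℝ) ≤ Real.exp (-(c * E)) * T.card ∧
            ∀ a ∈ T, a ∉ B → ∀ lam : ZMod q,
              |(q : ℝ) * dil D s L a lam - (D.card : ℝ) ^ (2 * L)| ≤
                Real.exp (-(c * E)) * (D.card : ℝ) ^ (2 * L) := by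
  have hs := s_ge h0D hD hg
  obtain ⟨ρ, hρ0, hρ1, hρ⟩ := exists_rho D h0D hg hs
  obtain ⟨R, c₁, hR, hc₁, hkey⟩ := key_exp hs hρ0 hρ1
  refine ⟨R * 3 + 12 / c₁, c₁ / 12, by positivity, by positivity,
    fun q _ hq hcop T η hη hη1 hmult L hL E hE0 hE => ?_⟩
  have hqr : (2 : ℝ) ≤ q := by exact_mod_cast hq
  have hlq : 0 < Real.log q := Real.log_pos (by linarith)
  have hn0 : 0 < Nat.clog s q := Nat.clog_pos (by omega) hq
  have hnr : (0 : ℝ) < Nat.clog s q := by exact_mod_cast hn0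
  have hnq := clog_le_log hs hq
  have hlog : 0 ≤ Real.log (1 / η) := Real.log_nonneg (by rw [le_div_iff₀ hη]; linarith)
  have hLr : (0 : ℝ) ≤ L := Nat.cast_nonneg L
  have hL1 : R * (1 + Real.log (1 / η)) * Nat.clog s q ≤ L := by
    calc R * (1 + Real.log (1 / η)) * Nat.clog s q
        ≤ R * (1 + Real.log (1 / η)) * (3 * Real.log q) :=
          mul_le_mul_of_nonneg_left hnq (by positivity)
      _ = R * 3 * (1 + Real.log (1 / η)) * Real.log q := by ring
      _ ≤ (R * 3 + 12 / c₁) * (1 + Real.log (1 / η)) * Real.log q := by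
          have : 0 < 12 / c₁ := by positivity
          gcongr
          linarith
      _ ≤ L := hL
  have hL2 : 12 / c₁ ≤ L / Real.log q := by
    rw [le_div_iff₀ hlq]
    refine le_trans ?_ hL
    refine mul_le_mul_of_nonneg_right ?_ hlq.le
    calc 12 / c₁ ≤ (R * 3 + 12 / c₁) * 1 := by linarith
      _ ≤ (R * 3 + 12 / c₁) * (1 + Real.log (1 / η)) :=
          mul_le_mul_of_nonneg_left (by linarith) (by positivity)
  set E' : ℝ := (L : ℝ) / Real.log q + √(η * L) with hE'
  have hE'0 : 12 / c₁ ≤ E' := by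
    have := Real.sqrt_nonneg (η * L)
    linarith
  have hX := hkey η hη hη1 q hq hcop L hL1
  have hX2 : Real.exp (-(c₁ * ((L : ℝ) / Nat.clog s q + √(η * L)))) ≤
      Real.exp (-(c₁ / 3 * E')) := by
    refine Real.exp_le_exp.2 (neg_le_neg ?_)
    have h1 : (L : ℝ) / (3 * Real.log q) ≤ L / Nat.clog s q :=
      div_le_div_of_nonneg_left hLr hnr hnq
    have h2 : (L : ℝ) / (3 * Real.log q) = 1 / 3 * (L / Real.log q) := by field_simp
    rw [h2] at h1
    have h3 := Real.sqrt_nonneg (η * L)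
    calc c₁ / 3 * E' = c₁ * (1 / 3 * (L / Real.log q) + 1 / 3 * √(η * L)) := by rw [hE']; ring
      _ ≤ c₁ * ((L : ℝ) / Nat.clog s q + √(η * L)) :=
          mul_le_mul_of_nonneg_left (by linarith) hc₁.le
  have hX3 := hX.trans hX2
  have hε1 : Real.exp (-(c₁ / 3 * E')) ≤ 1 := by
    rw [Real.exp_le_one_iff]
    have : 0 ≤ c₁ / 3 * E' := by
      have : 0 < 12 / c₁ := by positivity
      have : 0 ≤ E' := by linarith
      positivity
    linarith
  have h4 : 4 * Real.exp (-(c₁ / 3 * E')) ≤ Real.exp (-(c₁ / 12 * E')) ^ 2 := by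
    have e1 : Real.exp (-(c₁ / 12 * E')) ^ 2 = Real.exp (-(c₁ / 6 * E')) := by
      rw [← Real.exp_nat_mul]; congr 1; push_cast; ring
    have e2 : Real.exp (-(c₁ / 3 * E')) = Real.exp (-(c₁ / 6 * E')) * Real.exp (-(c₁ / 6 * E')) := by
      rw [← Real.exp_add]; congr 1; ring
    have e3 : 4 * Real.exp (-(c₁ / 6 * E')) ≤ 1 := by
      have h5 : 2 ≤ c₁ / 6 * E' := by
        have h6 : c₁ / 6 * (12 / c₁) = 2 := by field_simp; norm_num
        rw [← h6]
        exact mul_le_mul_of_nonneg_left hE'0 (by positivity)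
      have h7 : Real.exp (-(c₁ / 6 * E')) ≤ Real.exp (-2) := Real.exp_le_exp.2 (by linarith)
      have h8 : Real.exp (-2) ≤ 1 / 4 := by
        rw [Real.exp_neg, ← one_div]
        refine one_div_le_one_div_of_le (by norm_num) ?_
        have h9 : Real.exp 2 = Real.exp 1 ^ 2 := by
          rw [← Real.exp_nat_mul]; norm_num
        rw [h9]
        have := Real.exp_one_gt_d9
        nlinarith
      linarith
    rw [e1, e2]
    have := Real.exp_pos (-(c₁ / 6 * E'))
    nlinarith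
  obtain ⟨B, hBT, hB, hgood⟩ := dil_bad hs h0D hD hρ0 hρ1 hρ T hη
    (Real.exp_pos (-(c₁ / 12 * E'))) hmult hX3 hε1 h4
  have hmono : Real.exp (-(c₁ / 12 * E')) ≤ Real.exp (-(c₁ / 12 * E)) :=
    Real.exp_le_exp.2 (neg_le_neg (mul_le_mul_of_nonneg_left hE (by positivity)))
  refine ⟨B, hBT, hB.trans (mul_le_mul_of_nonneg_right hmono (Nat.cast_nonneg _)),
    fun a ha haB lam => (hgood a ha haB lam).trans
      (mul_le_mul_of_nonneg_right hmono (by positivity))⟩

/-- Multipliers in an interval. -/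
theorem dil_interval_exp {s : ℕ} {D : Finset ℕ} (h0D : 0 ∈ D) (hD : ∀ d ∈ D, d < s)
    (hg : D.gcd id = 1) : ∃ C c : ℝ, 0 < C ∧ 0 < c ∧ ∀ (q : ℕ) [NeZero q],
      2 ≤ q → Nat.Coprime s q → ∀ H : ℕ, 2 ≤ H → H ≤ q → ∀ L : ℕ,
        C * Real.log (2 * Real.log q / Real.log H) * Real.log q ≤ L →
          ∃ B : Finset ℕ, (B.card : ℝ) ≤
              Real.exp (-(c * (L / Real.log q + √(L * Real.log H / Real.log q)))) * H ∧
            ∀ a : ℕ, 0 < a → a ≤ H → a ∉ B → ∀ lam : ZMod q,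
              |(q : ℝ) * dil D s L a lam - (D.card : ℝ) ^ (2 * L)| ≤
                Real.exp (-(c * (L / Real.log q + √(L * Real.log H / Real.log q)))) *
                  (D.card : ℝ) ^ (2 * L) := by
  obtain ⟨R, c, hR, hc, h⟩ := dil_T_exp h0D hD hg
  refine ⟨R * 3, c / 2, by positivity, by positivity, fun q _ hq hcop H hH hHq L hL => ?_⟩
  have hqr : (2 : ℝ) ≤ q := by exact_mod_cast hq
  have hHr : (2 : ℝ) ≤ H := by exact_mod_cast hH
  have hHqr : (H : ℝ) ≤ q := by exact_mod_cast hHq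
  have hlq : 0 < Real.log q := Real.log_pos (by linarith)
  have hlH : 0 < Real.log H := Real.log_pos (by linarith)
  have hlHq : Real.log H ≤ Real.log q := Real.log_le_log (by linarith) hHqr
  have hLr : (0 : ℝ) ≤ L := Nat.cast_nonneg L
  set η : ℝ := Real.log H / (2 * Real.log q) with hη
  have hη0 : 0 < η := by positivity
  have hη1 : η ≤ 1 := by
    rw [hη, div_le_one (by positivity)]; linarith
  set Z : ℝ := 2 * Real.log q / Real.log H with hZ
  have hZ2 : 2 ≤ Z := by
    rw [hZ, le_div_iff₀ (by positivity)]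
    nlinarith
  have e1 : 1 / η = Z := by
    rw [hη, hZ]; field_simp
  have hL' : R * (1 + Real.log (1 / η)) * Real.log q ≤ L := by
    refine le_trans ?_ hL
    rw [e1]
    calc R * (1 + Real.log Z) * Real.log q ≤ R * (3 * Real.log Z) * Real.log q :=
          mul_le_mul_of_nonneg_right
            (mul_le_mul_of_nonneg_left (one_add_log_le hZ2) hR.le) hlq.le
      _ = _ := by ring
  set E₀ : ℝ := (L : ℝ) / Real.log q + √(L * Real.log H / Real.log q) with hE₀
  have hE00 : 0 ≤ E₀ := by positivity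
  have hE : 1 / 2 * E₀ ≤ (L : ℝ) / Real.log q + √(η * L) := by
    have h1 : 1 / 2 * √(L * Real.log H / Real.log q) ≤ √(η * L) := by
      refine Real.le_sqrt_of_sq_le ?_
      rw [mul_pow, Real.sq_sqrt (by positivity)]
      have e2 : η * L = 1 / 2 * (L * Real.log H / Real.log q) := by rw [hη]; field_simp
      rw [e2]
      have : 0 ≤ L * Real.log H / Real.log q := by positivity
      linarith
    have h2 : 0 ≤ (L : ℝ) / Real.log q := by positivity
    rw [hE₀]
    linarith
  obtain ⟨B, hBT, hB, hgood⟩ := h q hq hcop (Icc 1 H) η hη0 hη1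
    (fun d hd hdq z => mult_Icc hH hHq d hd hdq z) L hL' (1 / 2 * E₀) (by positivity) hE
  have e3 : c * (1 / 2 * E₀) = c / 2 * E₀ := by ring
  rw [e3] at hB hgood
  refine ⟨B, ?_, fun a ha haH haB => hgood a (mem_Icc.2 ⟨ha, haH⟩) haB⟩
  rw [Nat.card_Icc, Nat.add_sub_cancel] at hB
  exact hB

/-- Multipliers with restricted digits. -/
theorem dil_digits_exp {s : ℕ} {D : Finset ℕ} (h0D : 0 ∈ D) (hD : ∀ d ∈ D, d < s)
    (hg : D.gcd id = 1) : ∃ C c : ℝ, 0 < C ∧ 0 < c ∧ ∀ (q : ℕ) [NeZero q],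
      2 ≤ q → Nat.Coprime s q → ∀ l : ℕ, 1 ≤ l → s ^ l ≤ q → ∀ L : ℕ,
        C * Real.log (2 * Real.log q / (l * Real.log s)) * Real.log q ≤ L →
          ∃ B : Finset ℕ, (B.card : ℝ) ≤
              Real.exp (-(c * (L / Real.log q + √(L * (l * Real.log s) / Real.log q)))) *
                (D.card : ℝ) ^ l ∧
            ∀ a ∈ KS s D l, a ∉ B → ∀ lam : ZMod q,
              |(q : ℝ) * dil D s L a lam - (D.card : ℝ) ^ (2 * L)| ≤
                Real.exp (-(c * (L / Real.log q + √(L * (l * Real.log s) / Real.log q)))) *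
                  (D.card : ℝ) ^ (2 * L) := by
  have hs := s_ge h0D hD hg
  have h2 := card_D_ge h0D hg
  have hsr : (2 : ℝ) ≤ s := by exact_mod_cast hs
  have hls : 0 < Real.log s := Real.log_pos (by linarith)
  have hl2 : 0 < Real.log 2 := Real.log_pos (by norm_num)
  have hls2 : Real.log 2 ≤ Real.log s := Real.log_le_log (by norm_num) hsr
  have hl2' : 0.6931471803 < Real.log 2 := Real.log_two_gt_d9
  have hl2'' : Real.log 2 < 0.6931471808 := Real.log_two_lt_d9
  obtain ⟨R, c, hR, hc, h⟩ := dil_T_exp h0D hD hg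
  set K : ℝ := 6 * Real.log s ^ 2 / Real.log 2 with hK
  have hK1 : 1 ≤ K := by
    rw [hK, le_div_iff₀ hl2]
    nlinarith
  have hlK : 0 ≤ Real.log K := Real.log_nonneg hK1
  refine ⟨R * (1 + Real.log K) * 3, c / K, by positivity, by positivity,
    fun q _ hq hcop l hl hslq L hL => ?_⟩
  have hqr : (2 : ℝ) ≤ q := by exact_mod_cast hq
  have hlq : 0 < Real.log q := Real.log_pos (by linarith)
  have hLr : (0 : ℝ) ≤ L := Nat.cast_nonneg L
  have hlr : (1 : ℝ) ≤ l := by exact_mod_cast hl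
  have hlr0 : (0 : ℝ) < l := by linarith
  have hlcl : l ≤ Nat.clog s q := by
    by_contra hcon
    push Not at hcon
    have h1 : s ^ Nat.clog s q < s ^ l := Nat.pow_lt_pow_right (by omega) hcon
    have h3 := Nat.le_pow_clog (b := s) (by omega) q
    omega
  have hcl1 : (l : ℝ) ≤ Nat.clog s q := by exact_mod_cast hlcl
  have hcl0 : (0 : ℝ) < Nat.clog s q := by linarith
  have hclq := clog_le_log hs hq
  have hllog : (l : ℝ) * Real.log s ≤ Real.log q := by
    rw [← Real.log_pow]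
    refine Real.log_le_log (by positivity) ?_
    exact_mod_cast hslq
  set β : ℝ := (l : ℝ) / Nat.clog s q with hβ
  have hβ0 : 0 < β := by positivity
  have hβ1 : β ≤ 1 := by rw [hβ, div_le_one hcl0]; exact hcl1
  have hlb : β * Nat.clog s q ≤ l := by rw [hβ, div_mul_cancel₀ _ hcl0.ne']
  set η : ℝ := β * (Real.log 2 / (2 * Real.log s)) with hη
  have hη0 : 0 < η := by positivity
  have hη1 : η ≤ 1 := by
    have h1 : Real.log 2 / (2 * Real.log s) ≤ 1 := by
      rw [div_le_one (by positivity)]; linarith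
    rw [hη]
    calc β * (Real.log 2 / (2 * Real.log s)) ≤ 1 * 1 :=
          mul_le_mul hβ1 h1 (by positivity) (by norm_num)
      _ = 1 := one_mul 1
  set Z : ℝ := 2 * Real.log q / (l * Real.log s) with hZ
  have hZ2 : 2 ≤ Z := by
    rw [hZ, le_div_iff₀ (by positivity)]
    linarith
  have hlZ : 0 ≤ Real.log Z := Real.log_nonneg (by linarith)
  have hinv0 : 1 / η ≤ K * (Real.log q / (l * Real.log s)) := by
    have e1 : 1 / η = Nat.clog s q * (2 * Real.log s / (l * Real.log 2)) := by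
      rw [hη, hβ]; field_simp
    have e2 : K * (Real.log q / (l * Real.log s)) =
        (3 * Real.log q) * (2 * Real.log s / (l * Real.log 2)) := by
      rw [hK]; field_simp; ring
    rw [e1, e2]
    exact mul_le_mul_of_nonneg_right hclq (by positivity)
  have hinv : 1 / η ≤ K * Z := by
    refine hinv0.trans (mul_le_mul_of_nonneg_left ?_ (by positivity))
    rw [hZ]
    have : 0 ≤ Real.log q / (l * Real.log s) := by positivity
    have e : 2 * Real.log q / (l * Real.log s) = 2 * (Real.log q / (l * Real.log s)) := by ring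
    rw [e]
    linarith
  have hL' : R * (1 + Real.log (1 / η)) * Real.log q ≤ L := by
    refine le_trans ?_ hL
    have e1 : Real.log (1 / η) ≤ Real.log K + Real.log Z := by
      rw [← Real.log_mul (by positivity) (by positivity)]
      exact Real.log_le_log (by positivity) hinv
    have e2 : 1 + Real.log (1 / η) ≤ (1 + Real.log K) * (1 + Real.log Z) := by
      nlinarith [mul_nonneg hlK hlZ]
    have e3 : (1 + Real.log K) * (1 + Real.log Z) ≤ (1 + Real.log K) * (3 * Real.log Z) :=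
      mul_le_mul_of_nonneg_left (one_add_log_le hZ2) (by positivity)
    calc R * (1 + Real.log (1 / η)) * Real.log q
        ≤ R * ((1 + Real.log K) * (3 * Real.log Z)) * Real.log q :=
          mul_le_mul_of_nonneg_right (mul_le_mul_of_nonneg_left (e2.trans e3) hR.le) hlq.le
      _ = _ := by ring
  set E₀ : ℝ := (L : ℝ) / Real.log q + √(L * (l * Real.log s) / Real.log q) with hE₀
  have hE00 : 0 ≤ E₀ := by positivity
  have hE : 1 / K * E₀ ≤ (L : ℝ) / Real.log q + √(η * L) := by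
    have hK1' : 1 / K ≤ 1 := by rw [div_le_one (by positivity)]; exact hK1
    have h1 : 1 / K * √(L * (l * Real.log s) / Real.log q) ≤ √(η * L) := by
      refine Real.le_sqrt_of_sq_le ?_
      rw [mul_pow, Real.sq_sqrt (by positivity)]
      have h3 : 1 / K * (l * Real.log s / Real.log q) ≤ η := by
        have h4 : 1 / (K * (Real.log q / (l * Real.log s))) ≤ 1 / (1 / η) :=
          one_div_le_one_div_of_le (by positivity) hinv0
        rw [one_div_one_div] at h4
        refine le_trans (le_of_eq ?_) h4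
        field_simp
      have h5 : (1 / K) ^ 2 ≤ 1 / K := by
        have : 0 < 1 / K := by positivity
        nlinarith
      calc (1 / K) ^ 2 * (L * (l * Real.log s) / Real.log q)
          ≤ 1 / K * (L * (l * Real.log s) / Real.log q) :=
            mul_le_mul_of_nonneg_right h5 (by positivity)
        _ = (1 / K * (l * Real.log s / Real.log q)) * L := by ring
        _ ≤ η * L := mul_le_mul_of_nonneg_right h3 hLr
    have h2 : 0 ≤ (L : ℝ) / Real.log q := by positivity
    have h3 : 1 / K * ((L : ℝ) / Real.log q) ≤ (L : ℝ) / Real.log q := by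
      calc 1 / K * ((L : ℝ) / Real.log q) ≤ 1 * ((L : ℝ) / Real.log q) :=
            mul_le_mul_of_nonneg_right hK1' h2
        _ = _ := one_mul _
    rw [hE₀, mul_add]
    linarith
  obtain ⟨B, hBT, hB, hgood⟩ := h q hq hcop (KS s D l) η hη0 hη1
    (fun d hd hdq z => mult_KS hs h0D hD h2 hβ0 hβ1 hlb d hd hdq z) L hL' (1 / K * E₀)
      (by positivity) hE
  have e3 : c * (1 / K * E₀) = c / K * E₀ := by ring
  rw [e3] at hB hgood
  refine ⟨B, ?_, fun a ha haB => hgood a ha haB⟩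
  rw [card_KS hs h0D hD] at hB
  push_cast at hB
  exact hB

/-- **The number of pairs**, with an exponentially small error. -/
theorem prod_exp {s : ℕ} {D : Finset ℕ} (h0D : 0 ∈ D) (hD : ∀ d ∈ D, d < s)
    (hg : D.gcd id = 1) : ∃ C c : ℝ, 0 < C ∧ 0 < c ∧ ∀ (q : ℕ) [NeZero q], 2 ≤ q →
      Nat.Coprime s q → ∀ L : ℕ, C * Real.log q ≤ L → ∀ l : (ZMod q)ˣ,
        |(pr (KS s D L) (l : ZMod q) : ℝ) -
            (q.totient : ℝ) / (q : ℝ) ^ 2 * (D.card : ℝ) ^ (2 * L)| ≤
          Real.exp (-(c * √L)) * ((q.totient : ℝ) / (q : ℝ) ^ 2 * (D.card : ℝ) ^ (2 * L)) := by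
  have hs := s_ge h0D hD hg
  obtain ⟨ρ, hρ0, hρ1, hρ⟩ := exists_rho D h0D hg hs
  obtain ⟨C₀, hC₀, hpairs⟩ := pairs
  obtain ⟨R, c₁, hR, hc₁, hkey⟩ := key_exp hs hρ0 hρ1
  have hlog32 : 0 ≤ Real.log (1 / (1 / 32)) := Real.log_nonneg (by norm_num)
  set M : ℝ := max 1 (Real.log (3 * C₀)) with hM
  have hM1 : 1 ≤ M := le_max_left _ _
  have hM2 : Real.log (3 * C₀) ≤ M := le_max_right _ _
  set K : ℝ := (12 * M / c₁) ^ 2 with hK
  have hK0 : 0 < K := by positivity
  refine ⟨R * (1 + Real.log (1 / (1 / 32))) * 3 + 2 * K, c₁ / 12, by positivity, by positivity,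
    fun q _ hq hcop L hL l => ?_⟩
  have hqr : (2 : ℝ) ≤ q := by exact_mod_cast hq
  have hlq : 0 < Real.log q := Real.log_pos (by linarith)
  have hlq2 : 1 / 2 ≤ Real.log q := by
    have h1 : Real.log 2 ≤ Real.log q := Real.log_le_log (by norm_num) hqr
    have := Real.log_two_gt_d9
    linarith
  have hL1 : R * (1 + Real.log (1 / (1 / 32))) * Nat.clog s q ≤ L := by
    calc R * (1 + Real.log (1 / (1 / 32))) * Nat.clog s q
        ≤ R * (1 + Real.log (1 / (1 / 32))) * (3 * Real.log q) :=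
          mul_le_mul_of_nonneg_left (clog_le_log hs hq) (by positivity)
      _ ≤ (R * (1 + Real.log (1 / (1 / 32))) * 3 + 2 * K) * Real.log q := by
          have h0 : 0 ≤ 2 * K * Real.log q := by positivity
          have e0 : (R * (1 + Real.log (1 / (1 / 32))) * 3 + 2 * K) * Real.log q =
              R * (1 + Real.log (1 / (1 / 32))) * (3 * Real.log q) + 2 * K * Real.log q := by ring
          rw [e0]
          exact le_add_of_nonneg_right h0
      _ ≤ L := hL
  have hL2 : K ≤ L := by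
    refine le_trans ?_ hL
    have h1 : 0 ≤ R * (1 + Real.log (1 / (1 / 32))) * 3 * Real.log q := by positivity
    nlinarith
  have hLr : (0 : ℝ) ≤ L := Nat.cast_nonneg L
  have hX := hkey (1 / 32) (by norm_num) (by norm_num) q hq hcop L hL1
  -- the bound
  set X : ℝ := Real.exp (-(c₁ / 6 * √L)) with hXdef
  have hsq : √(1 / 32 * L) ≥ 1 / 6 * √L := by
    refine Real.le_sqrt_of_sq_le ?_
    rw [mul_pow, Real.sq_sqrt hLr]
    nlinarith
  have hX' : ∑ r ∈ univ.erase (0 : ZMod q), ρ ^ fq s r.val q L *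
      ((den q r : ℕ) : ℝ) ^ (-(1/32) : ℝ) ≤ X := by
    refine hX.trans (Real.exp_le_exp.2 (neg_le_neg ?_))
    have h1 : 0 ≤ (L : ℝ) / Nat.clog s q := by positivity
    calc c₁ / 6 * √L = c₁ * (1 / 6 * √L) := by ring
      _ ≤ c₁ * ((L : ℝ) / Nat.clog s q + √(1 / 32 * L)) :=
          mul_le_mul_of_nonneg_left (by linarith) hc₁.le
  have hX0 : 0 < X := Real.exp_pos _
  have hX1 : X ≤ 1 := by
    rw [hXdef, Real.exp_le_one_iff]
    have := Real.sqrt_nonneg (L : ℝ)
    have : 0 ≤ c₁ / 6 * √L := by positivity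
    linarith
  have hX2 : C₀ * ((1 + X) ^ 2 - 1) ≤ Real.exp (-(c₁ / 12 * √L)) := by
    have h1 : C₀ * ((1 + X) ^ 2 - 1) ≤ 3 * C₀ * X := by
      have h0 : 0 ≤ C₀ * (X * (1 - X)) :=
        mul_nonneg hC₀.le (mul_nonneg hX0.le (by linarith))
      calc C₀ * ((1 + X) ^ 2 - 1) = 3 * C₀ * X - C₀ * (X * (1 - X)) := by ring
        _ ≤ 3 * C₀ * X := by linarith
    refine h1.trans ?_
    have h2 : 3 * C₀ ≤ Real.exp (c₁ / 12 * √L) := by
      rw [← Real.exp_log (show (0 : ℝ) < 3 * C₀ by positivity)]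
      refine Real.exp_le_exp.2 (hM2.trans ?_)
      have h3 : 12 * M / c₁ ≤ √L := by
        refine Real.le_sqrt_of_sq_le ?_
        rw [← hK]; exact hL2
      calc M = c₁ / 12 * (12 * M / c₁) := by field_simp
        _ ≤ c₁ / 12 * √L := mul_le_mul_of_nonneg_left h3 (by positivity)
    calc 3 * C₀ * X ≤ Real.exp (c₁ / 12 * √L) * X := mul_le_mul_of_nonneg_right h2 hX0.le
      _ = Real.exp (-(c₁ / 12 * √L)) := by
          rw [hXdef, ← Real.exp_add]; congr 1; ring
  have hcard : ((KS s D L).card : ℝ) = (D.card : ℝ) ^ L := by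
    rw [card_KS hs h0D hD]; push_cast; rfl
  have hKs : ∑ r ∈ (univ : Finset (ZMod q)).erase 0,
      ‖Kh (KS s D L) r‖ * ((q / Nat.gcd r.val q : ℕ) : ℝ) ^ (-(1/32) : ℝ) ≤
        X * (KS s D L).card := by
    rw [hcard]
    calc ∑ r ∈ (univ : Finset (ZMod q)).erase 0,
          ‖Kh (KS s D L) r‖ * ((q / Nat.gcd r.val q : ℕ) : ℝ) ^ (-(1/32) : ℝ)
        ≤ ∑ r ∈ (univ : Finset (ZMod q)).erase 0, (D.card : ℝ) ^ L *
            (ρ ^ fq s r.val q L * ((den q r : ℕ) : ℝ) ^ (-(1/32) : ℝ)) := by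
          refine sum_le_sum fun r _ => ?_
          rw [← mul_assoc]
          refine mul_le_mul_of_nonneg_right ?_ (by positivity)
          exact norm_kh_le hs h0D hD hρ L r
      _ = (D.card : ℝ) ^ L * ∑ r ∈ (univ : Finset (ZMod q)).erase 0,
            (ρ ^ fq s r.val q L * ((den q r : ℕ) : ℝ) ^ (-(1/32) : ℝ)) := by rw [mul_sum]
      _ ≤ (D.card : ℝ) ^ L * X := mul_le_mul_of_nonneg_left hX' (by positivity)
      _ = _ := by ring
  have h1 := hpairs q (KS s D L) X hKs l
  rw [hcard] at h1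
  have e : ((D.card : ℝ) ^ L) ^ 2 = (D.card : ℝ) ^ (2 * L) := by rw [← pow_mul, mul_comm]
  rw [e] at h1
  exact h1.trans (mul_le_mul_of_nonneg_right hX2 (by positivity))

end Pool.Agent.Lib.P1aceP
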