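import Mathlib
import Pool.Agent.Lib.P1aceP.DilExp

set_option autoImplicit false

/-!
# Sums `x + a y`: the final statements, with exponentially small errors
-/

namespace Pool.Agent.Lib.P1aceP

open Finset Pool.Agent.Lib.P1aceS

open Real in
theorem dilates_exp {s : ℕ} {D : Finset ℕ} (h0 : 0 ∈ D) (hD : ∀ d ∈ D, d < s)
    (hg : D.gcd id = 1) :
    (∃ C c : ℝ, 0 < C ∧ 0 < c ∧ ∀ q H L : ℕ, 2 ≤ q → Nat.Coprime s q → 2 ≤ H → H ≤ q →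
      C * log (2 * log q / log H) * log q ≤ L →
        ∃ B : Finset ℕ, (B.card : ℝ) ≤ exp (-(c * (L / log q + √(L * log H / log q)))) * H ∧
          ∀ a : ℕ, 0 < a → a ≤ H → a ∉ B → ∀ lam : ℤ,
          |({p : ℕ × ℕ | p.1 < s ^ L ∧ p.2 < s ^ L ∧ (∀ i, p.1 / s ^ i % s ∈ D) ∧
              (∀ i, p.2 / s ^ i % s ∈ D) ∧ (p.1 + a * p.2 : ℤ) ≡ lam [ZMOD q]}.ncard : ℝ) -
              (D.card : ℝ) ^ (2 * L) / q| ≤
            exp (-(c * (L / log q + √(L * log H / log q)))) * ((D.card : ℝ) ^ (2 * L) / q)) ∧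
    (∃ C c : ℝ, 0 < C ∧ 0 < c ∧ ∀ q l L : ℕ, 2 ≤ q → Nat.Coprime s q → 1 ≤ l → s ^ l ≤ q →
      C * log (2 * log q / log (s ^ l)) * log q ≤ L →
        ∃ B : Finset ℕ, (B.card : ℝ) ≤
            exp (-(c * (L / log q + √(L * log (s ^ l) / log q)))) * (D.card : ℝ) ^ l ∧
          ∀ a : ℕ, a < s ^ l → (∀ i, a / s ^ i % s ∈ D) → a ∉ B → ∀ lam : ℤ,
          |({p : ℕ × ℕ | p.1 < s ^ L ∧ p.2 < s ^ L ∧ (∀ i, p.1 / s ^ i % s ∈ D) ∧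
              (∀ i, p.2 / s ^ i % s ∈ D) ∧ (p.1 + a * p.2 : ℤ) ≡ lam [ZMOD q]}.ncard : ℝ) -
              (D.card : ℝ) ^ (2 * L) / q| ≤
            exp (-(c * (L / log q + √(L * log (s ^ l) / log q)))) *
              ((D.card : ℝ) ^ (2 * L) / q)) ∧
    ∃ C : ℝ, 0 < C ∧ ∀ q H N : ℕ, 2 ≤ q → Nat.Coprime s q → s ≤ H → H ≤ q →
      (q : ℝ) ^ (C * log (2 * log q / log H)) ≤ N →
        ∃ a : ℕ, 0 < a ∧ a < H ∧ (∀ i, a / s ^ i % s ∈ D) ∧ ∀ lam : ℤ, ∃ x y : ℕ,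
          0 < x ∧ x < N ∧ 0 < y ∧ y < N ∧ (∀ i, x / s ^ i % s ∈ D) ∧
            (∀ i, y / s ^ i % s ∈ D) ∧ (x + a * y : ℤ) ≡ lam [ZMOD q] := by
  refine ⟨?_, ?_, (dilates_main h0 hD hg).2.2⟩
  · obtain ⟨C, c, hC, hc, h⟩ := dil_interval_exp h0 hD hg
    refine ⟨C, c, hC, hc, fun q H L hq hcop hH hHq hL => ?_⟩
    have : NeZero q := ⟨by omega⟩
    obtain ⟨B, hB, hgood⟩ := h q hq hcop H hH hHq L hL
    refine ⟨B, hB, fun a ha haH haB lam => ?_⟩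
    rw [ncard_dil]
    exact div_form (by omega) (hgood a ha haH haB (lam : ZMod q))
  · obtain ⟨C, c, hC, hc, h⟩ := dil_digits_exp h0 hD hg
    refine ⟨C, c, hC, hc, fun q l L hq hcop hl hlq hL => ?_⟩
    have : NeZero q := ⟨by omega⟩
    rw [log_pow] at hL ⊢
    obtain ⟨B, hB, hgood⟩ := h q hq hcop l hl hlq L hL
    refine ⟨B, hB, fun a ha haD haB lam => ?_⟩
    rw [ncard_dil]
    exact div_form (by omega) (hgood a (mem_KS.2 ⟨ha, haD⟩) haB (lam : ZMod q))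

end Pool.Agent.Lib.P1aceP
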