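import Mathlib
import Pool.Agent.Lib.P1aceP.BilinB

set_option autoImplicit false

/-!
# The sum over the frequencies, with the denominators of the multiples by `μ`
-/

namespace Pool.Agent.Lib.P1aceP

open Finset Pool.Agent.Lib.P1aceS

lemma den_le_mul {q : ℕ} [NeZero q] (u μ : ZMod q) :
    den q u ≤ den q (u * μ) * Nat.gcd μ.val q := by
  have h1 : den q u ∣ den q (u * μ) * μ.val := by
    refine den_dvd_of ?_
    have h2 := den_mul_self (u * μ)
    push_cast
    rw [ZMod.natCast_zmod_val]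
    calc ((den q (u * μ) : ℕ) : ZMod q) * μ * u = ((den q (u * μ) : ℕ) : ZMod q) * (u * μ) := by
          ring
      _ = 0 := h2
  have h2 : den q u ∣ den q (u * μ) * q := (den_dvd u).mul_left _
  have h3 : den q u ∣ den q (u * μ) * Nat.gcd μ.val q := by
    rw [← Nat.gcd_mul_left]
    exact Nat.dvd_gcd h1 h2
  exact Nat.le_of_dvd (Nat.mul_pos (den_pos _) (gcd_pos' μ)) h3

/-- **The sum over the frequencies**, with the denominators of the multiples by `μ`. -/
theorem key_mul {s : ℕ} (hs : 2 ≤ s) {ρ : ℝ} (hρ0 : 0 < ρ) (hρ1 : ρ < 1) {η : ℝ} (hη : 0 < η) :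
    ∃ R c : ℝ, 0 < R ∧ 0 < c ∧ ∀ (q : ℕ) [NeZero q], 2 ≤ q → Nat.Coprime s q →
      ∀ (μ : ZMod q) (L : ℕ),
        R * (1 + Real.log ((Nat.clog s (Nat.gcd μ.val q) : ℝ) + 1)) * Nat.clog s q ≤ L →
          ∑ u ∈ univ.erase (0 : ZMod q), ρ ^ fq s u.val q L *
              ((den q (u * μ) : ℕ) : ℝ) ^ (-η) ≤
            Real.exp (-(c * (L / (√L + ((Nat.clog s (Nat.gcd μ.val q) : ℝ) + 1))))) := by
  have hsr : (2 : ℝ) ≤ s := by exact_mod_cast hs
  have hs0 : (0 : ℝ) < s := by linarith
  set a : ℝ := -Real.log ρ with ha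
  have ha0 : 0 < a := by rw [ha]; linarith [Real.log_neg hρ0 hρ1]
  have hls0 : 0 < Real.log s := Real.log_pos (by linarith)
  set y : ℝ := η / 2 * Real.log s with hy
  have hy0 : 0 < y := by positivity
  -- the constant for the windows
  set x₀ : ℝ := min (1 / 2) (y / 2) / s with hx₀
  have hx0 : 0 < x₀ := by
    have : 0 < min (1 / 2 : ℝ) (y / 2) := lt_min (by norm_num) (by positivity)
    positivity
  have hx1 : x₀ * s ≤ 1 / 2 := by
    rw [hx₀, div_mul_cancel₀ _ hs0.ne']; exact min_le_left _ _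
  have hx2 : x₀ * s ≤ y / 2 := by
    rw [hx₀, div_mul_cancel₀ _ hs0.ne']; exact min_le_right _ _
  set R₀ : ℝ := (1 + max 0 (Real.log (1 / x₀))) / a with hR₀
  have hR0 : 0 < R₀ := by
    have : 0 ≤ max 0 (Real.log (1 / x₀)) := le_max_left _ _
    positivity
  -- the constant of the sum
  set c₂ : ℝ := min (a / 16) (y / 2) with hc₂
  have hc₂0 : 0 < c₂ := lt_min (by positivity) (by positivity)
  set W : ℝ := 4 / a * s * Real.exp 1 * Real.exp (2 * y) * (2 + (1 - Real.exp (-(y / 2)))⁻¹) with hW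
  have hgy : 0 < 1 - Real.exp (-(y / 2)) := by
    have : Real.exp (-(y / 2)) < 1 := by rw [Real.exp_lt_one_iff]; linarith
    linarith
  have hW0 : 0 < W := by positivity
  set R' : ℝ := 2 / c₂ * (1 + max 0 (Real.log W)) with hR'
  have hR'0 : 0 < R' := by
    have : 0 ≤ max 0 (Real.log W) := le_max_left _ _
    positivity
  refine ⟨4 * (R₀ + 1) + 4 * R' + 8 * R' ^ 2, c₂ / 2, by positivity, by positivity,
    fun q _ hq2 hcop μ L hL => ?_⟩
  set n := Nat.clog s q with hn
  set g := Nat.gcd μ.val q with hg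
  have hg0 : 0 < g := gcd_pos' μ
  have hgq : g ≤ q := Nat.le_of_dvd (by omega) (Nat.gcd_dvd_right _ _)
  set mg := Nat.clog s g with hmg
  set M : ℝ := (mg : ℝ) + 1 with hM
  have hM1 : 1 ≤ M := by rw [hM]; have : (0 : ℝ) ≤ mg := Nat.cast_nonneg _; linarith
  have hM0 : 0 < M := by linarith
  have hn0 : 0 < n := Nat.clog_pos (by omega) hq2
  have hnr : (1 : ℝ) ≤ n := by exact_mod_cast hn0
  have hmgn : mg ≤ n := Nat.clog_mono_right _ hgq
  have hMn : M ≤ 2 * n := by
    have : (mg : ℝ) ≤ n := by exact_mod_cast hmgn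
    rw [hM]; linarith
  have hLr : (0 : ℝ) ≤ L := Nat.cast_nonneg L
  set T : ℝ := 1 + Real.log M with hT
  have hlM : 0 ≤ Real.log M := Real.log_nonneg hM1
  have hT1 : 1 ≤ T := by rw [hT]; linarith
  have hTM : T ≤ M := by
    rw [hT]
    have := Real.log_le_sub_one_of_pos hM0
    linarith
  set J₀ : ℕ := ⌈R₀ * T⌉₊ with hJ
  have hJpos : 0 < J₀ := Nat.ceil_pos.2 (by positivity)
  have hJge : R₀ * T ≤ J₀ := Nat.le_ceil _
  have hJle : (J₀ : ℝ) ≤ (R₀ + 1) * T := by
    have h1 : (J₀ : ℝ) < R₀ * T + 1 := Nat.ceil_lt_add_one (by positivity)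
    nlinarith
  have hρexp : ∀ J : ℕ, ρ ^ J = Real.exp (-(a * J)) := by
    intro J
    rw [← Real.rpow_natCast, Real.rpow_def_of_pos hρ0, ha]
    congr 1; ring
  have hJexp : ∀ J : ℕ, (J : ℝ) * Real.exp (-(a * J / 2)) ≤ 2 / a := by
    intro J
    have h1 : a * J / 2 ≤ Real.exp (a * J / 2) := by
      have := Real.add_one_le_exp (a * J / 2)
      linarith
    rw [Real.exp_neg, le_div_iff₀ ha0]
    have hpos := Real.exp_pos (a * J / 2)
    rw [← div_eq_mul_inv, div_mul_eq_mul_div, div_le_iff₀ hpos]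
    linarith
  have hτ0 : ρ ^ J₀ ≤ x₀ / M := by
    rw [hρexp]
    have h1 : Real.log (1 / x₀) + Real.log M ≤ a * J₀ := by
      have h2 : a * (R₀ * T) ≤ a * J₀ := mul_le_mul_of_nonneg_left hJge ha0.le
      have h3 : a * (R₀ * T) = (1 + max 0 (Real.log (1 / x₀))) * T := by
        rw [hR₀]; field_simp
      have h4 : Real.log (1 / x₀) ≤ max 0 (Real.log (1 / x₀)) := le_max_right _ _
      have h5 : 0 ≤ max 0 (Real.log (1 / x₀)) := le_max_left _ _
      have h6 : Real.log (1 / x₀) + Real.log M ≤ (1 + max 0 (Real.log (1 / x₀))) * T := by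
        rw [hT]; nlinarith
      linarith
    calc Real.exp (-(a * J₀)) ≤ Real.exp (-(Real.log (1 / x₀) + Real.log M)) :=
          Real.exp_le_exp.2 (by linarith)
      _ = x₀ / M := by
          rw [Real.exp_neg, Real.exp_add, Real.exp_log (by positivity), Real.exp_log hM0]
          field_simp
  -- the powers
  have hpow : ∀ (J m : ℕ), J₀ ≤ J → (1 + ρ ^ J * s) ^ (2 * m) ≤
      Real.exp 1 * Real.exp (y * max 0 ((m : ℝ) - M)) := by
    intro J m hJJ
    have h0 : 0 ≤ ρ ^ J * s := by positivity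
    have h1 : ρ ^ J * s ≤ x₀ / M * s :=
      mul_le_mul_of_nonneg_right
        ((pow_le_pow_of_le_one hρ0.le hρ1.le hJJ).trans hτ0) hs0.le
    have h2 : (1 + ρ ^ J * s) ^ (2 * m) ≤ Real.exp (ρ ^ J * s * (2 * m)) := by
      calc (1 + ρ ^ J * s) ^ (2 * m) ≤ Real.exp (ρ ^ J * s) ^ (2 * m) :=
            pow_le_pow_left₀ (by positivity)
              (by have := Real.add_one_le_exp (ρ ^ J * s); linarith) _
        _ = Real.exp (ρ ^ J * s * (2 * m)) := by
            rw [← Real.exp_nat_mul]; congr 1; push_cast; ring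
    refine h2.trans ?_
    rw [← Real.exp_add]
    refine Real.exp_le_exp.2 ?_
    have h3 : x₀ / M * s * (2 * m) ≤ 1 + y * max 0 ((m : ℝ) - M) := by
      have hmm : (m : ℝ) ≤ M + max 0 ((m : ℝ) - M) := by
        have := le_max_right 0 ((m : ℝ) - M)
        linarith
      have hmx : 0 ≤ max 0 ((m : ℝ) - M) := le_max_left _ _
      have e1 : x₀ / M * s * (2 * m) ≤ x₀ / M * s * (2 * (M + max 0 ((m : ℝ) - M))) :=
        mul_le_mul_of_nonneg_left (by linarith) (by positivity)
      have e2 : x₀ / M * s * (2 * (M + max 0 ((m : ℝ) - M))) =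
          2 * (x₀ * s) + 2 * (x₀ * s) * (max 0 ((m : ℝ) - M) / M) := by field_simp
      have e3 : max 0 ((m : ℝ) - M) / M ≤ max 0 ((m : ℝ) - M) := div_le_self hmx hM1
      have e4 : 2 * (x₀ * s) * (max 0 ((m : ℝ) - M) / M) ≤ y * max 0 ((m : ℝ) - M) :=
        mul_le_mul (by linarith) e3 (by positivity) hy0.le
      linarith
    calc ρ ^ J * s * (2 * m) ≤ x₀ / M * s * (2 * m) :=
          mul_le_mul_of_nonneg_right h1 (by positivity)
      _ ≤ _ := h3
  have hsη : ∀ k : ℝ, ((s : ℝ) ^ k) ^ (-η) = Real.exp (-(2 * y * k)) := by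
    intro k
    rw [← Real.rpow_mul hs0.le, Real.rpow_def_of_pos hs0, hy]
    congr 1; ring
  classical
  have hsplit : ∑ r ∈ univ.erase (0 : ZMod q), ρ ^ fq s r.val q L *
      ((den q (r * μ) : ℕ) : ℝ) ^ (-η) =
      ∑ m ∈ range (n + 1), ∑ r ∈ cls s q m,
        ρ ^ fq s r.val q L * ((den q (r * μ) : ℕ) : ℝ) ^ (-η) := by
    rw [← Finset.sum_fiberwise_of_maps_to (s := univ.erase (0 : ZMod q))
      (t := range (n + 1)) (g := fun r => Nat.clog s (den q r))]
    · refine sum_congr rfl fun m _ => sum_congr ?_ fun _ _ => rfl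
      ext r
      rw [mem_filter, mem_erase, mem_cls]
      simp
    · intro r _
      rw [mem_range, Nat.lt_succ_iff]
      exact Nat.clog_mono_right _ (den_le r)
  set E : ℝ := L / (√L + M) with hE
  have hsL := Real.sqrt_nonneg (L : ℝ)
  have hE0 : 0 ≤ E := by positivity
  have hcls : ∀ m ∈ range (n + 1), ∑ r ∈ cls s q m,
      ρ ^ fq s r.val q L * ((den q (r * μ) : ℕ) : ℝ) ^ (-η) ≤
        4 / a * s * Real.exp 1 * Real.exp (2 * y) * Real.exp (-(c₂ * E)) *
          Real.exp (-(y / 2 * max 0 ((m : ℝ) - M))) := by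
    intro m hm
    rw [mem_range, Nat.lt_succ_iff] at hm
    rcases Nat.eq_zero_or_pos m with rfl | hm0
    · have h0 : cls s q 0 = ∅ := by
        rw [eq_empty_iff_forall_notMem]
        intro r hr
        exact absurd (cls_pos hs hr) (lt_irrefl 0)
      rw [h0, sum_empty]
      positivity
    have hmr : (0 : ℝ) < m := by exact_mod_cast hm0
    obtain ⟨J, hJdef⟩ : ∃ J, J = L / (4 * m) := ⟨_, rfl⟩
    have hJL : 2 * J * (2 * m) ≤ L := by
      have := Nat.div_mul_le_self L (4 * m)
      rw [← hJdef] at this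
      calc 2 * J * (2 * m) = J * (4 * m) := by ring
        _ ≤ L := this
    have hL0 : 4 * J₀ * n ≤ L := by
      have h1 : (4 : ℝ) * J₀ * n ≤ L := by
        refine le_trans ?_ hL
        refine mul_le_mul_of_nonneg_right ?_ (by linarith)
        have h3 : 0 ≤ (4 * R' + 8 * R' ^ 2) * T := by positivity
        calc (4 : ℝ) * J₀ ≤ 4 * ((R₀ + 1) * T) := by linarith
          _ ≤ 4 * ((R₀ + 1) * T) + (4 * R' + 8 * R' ^ 2) * T := by linarith
          _ = (4 * (R₀ + 1) + 4 * R' + 8 * R' ^ 2) * T := by ring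
      exact_mod_cast h1
    have hJJ : J₀ ≤ J := by
      rw [hJdef, Nat.le_div_iff_mul_le (by omega)]
      calc J₀ * (4 * m) ≤ J₀ * (4 * n) := Nat.mul_le_mul_left _ (by omega)
        _ = 4 * J₀ * n := by ring
        _ ≤ L := hL0
    have hJ0 : 0 < J := by omega
    have hJr0 : (1 : ℝ) ≤ J := by exact_mod_cast hJ0
    have hJlow : (L : ℝ) / (8 * m) ≤ J := by
      have h1 : L < (J + 1) * (4 * m) := by
        have := Nat.lt_div_mul_add (a := L) (b := 4 * m) (by omega)
        rw [← hJdef] at this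
        calc L < J * (4 * m) + 4 * m := this
          _ = (J + 1) * (4 * m) := by ring
      have h2 : (L : ℝ) < (J + 1) * (4 * m) := by exact_mod_cast h1
      rw [div_le_iff₀ (by positivity)]
      nlinarith
    have hJρ : 2 * J * ρ ^ J ≤ 4 / a * Real.exp (-(a * L / (16 * m))) := by
      have h2 : Real.exp (-(a * J)) = Real.exp (-(a * J / 2)) * Real.exp (-(a * J / 2)) := by
        rw [← Real.exp_add]; congr 1; ring
      have h3 : Real.exp (-(a * J / 2)) ≤ Real.exp (-(a * L / (16 * m))) := by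
        refine Real.exp_le_exp.2 (neg_le_neg ?_)
        have h4 : a * L / (16 * m) = a / 2 * (L / (8 * m)) := by field_simp; ring
        rw [h4]
        calc a / 2 * (L / (8 * m)) ≤ a / 2 * J := mul_le_mul_of_nonneg_left hJlow (by positivity)
          _ = a * J / 2 := by ring
      calc 2 * J * ρ ^ J = 2 * ((J : ℝ) * Real.exp (-(a * J / 2))) * Real.exp (-(a * J / 2)) := by
            rw [hρexp, h2]; ring
        _ ≤ 2 * (2 / a) * Real.exp (-(a * L / (16 * m))) :=
            mul_le_mul (mul_le_mul_of_nonneg_left (hJexp J) (by norm_num)) h3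
              (Real.exp_pos _).le (by positivity)
        _ = _ := by ring
    -- the denominators
    have hden : ∀ r ∈ cls s q m, ((den q (r * μ) : ℕ) : ℝ) ^ (-η) ≤
        Real.exp (2 * y) * Real.exp (-(2 * y * max 0 ((m : ℝ) - M))) := by
      intro r hr
      have hr' := mem_cls.1 hr
      have hd1 : (1 : ℝ) ≤ ((den q (r * μ) : ℕ) : ℝ) := by exact_mod_cast den_pos (r * μ)
      rcases le_or_gt ((m : ℝ) - M) 0 with hcase | hcase
      · rw [max_eq_left hcase, mul_zero, neg_zero, Real.exp_zero, mul_one]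
        calc ((den q (r * μ) : ℕ) : ℝ) ^ (-η) ≤ 1 :=
              Real.rpow_le_one_of_one_le_of_nonpos hd1 (by linarith)
          _ ≤ Real.exp (2 * y) := Real.one_le_exp (by positivity)
      · rw [max_eq_right hcase.le]
        have h1 : (s : ℝ) ^ ((m : ℝ) - 1) ≤ ((den q r : ℕ) : ℝ) := by
          obtain ⟨k, hk⟩ : ∃ k, m = k + 1 := ⟨m - 1, by omega⟩
          have h2 := Nat.pow_pred_clog_lt_self (b := s) (by omega) (one_lt_den hr'.1)
          rw [hr'.2, hk, Nat.pred_succ] at h2
          have h3 : ((s : ℝ) ^ k) ≤ ((den q r : ℕ) : ℝ) := by exact_mod_cast h2.le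
          rw [hk]
          push_cast
          rw [add_sub_cancel_right, Real.rpow_natCast]
          exact h3
        have h2 : ((den q r : ℕ) : ℝ) ≤ ((den q (r * μ) : ℕ) : ℝ) * (s : ℝ) ^ (mg : ℝ) := by
          have h3 : ((den q r : ℕ) : ℝ) ≤ ((den q (r * μ) : ℕ) : ℝ) * (g : ℝ) := by
            exact_mod_cast den_le_mul r μ
          have h4 : (g : ℝ) ≤ (s : ℝ) ^ (mg : ℝ) := by
            rw [Real.rpow_natCast]
            exact_mod_cast Nat.le_pow_clog (b := s) (by omega) g
          exact h3.trans (mul_le_mul_of_nonneg_left h4 (by linarith))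
        have h3 : (s : ℝ) ^ ((m : ℝ) - M) ≤ ((den q (r * μ) : ℕ) : ℝ) := by
          have e1 : (s : ℝ) ^ ((m : ℝ) - M) = (s : ℝ) ^ ((m : ℝ) - 1) / (s : ℝ) ^ (mg : ℝ) := by
            rw [← Real.rpow_sub hs0, hM]; congr 1; ring
          rw [e1, div_le_iff₀ (Real.rpow_pos_of_pos hs0 _)]
          exact h1.trans h2
        calc ((den q (r * μ) : ℕ) : ℝ) ^ (-η) ≤ ((s : ℝ) ^ ((m : ℝ) - M)) ^ (-η) :=
              Real.rpow_le_rpow_of_nonpos (Real.rpow_pos_of_pos hs0 _) h3 (by linarith)
          _ = Real.exp (-(2 * y * ((m : ℝ) - M))) := hsη _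
          _ ≤ Real.exp (2 * y) * Real.exp (-(2 * y * ((m : ℝ) - M))) :=
              le_mul_of_one_le_left (Real.exp_pos _).le (Real.one_le_exp (by positivity))
    set t : ℝ := max 0 ((m : ℝ) - M) with ht
    have ht0 : 0 ≤ t := le_max_left _ _
    have hmt : (m : ℝ) ≤ M + t := by
      have := le_max_right 0 ((m : ℝ) - M)
      linarith
    have hexpo : -(a * L / (16 * m)) + y * t - 2 * y * t ≤ -(c₂ * E) - y / 2 * t := by
      have h1 : c₂ * E ≤ a * L / (16 * m) + y / 2 * t := by
        rcases le_or_gt t (√L) with hcase | hcase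
        · have h2 : a / 16 * E ≤ a * L / (16 * m) := by
            have h3 : E ≤ L / m := by
              rw [hE]
              exact div_le_div_of_nonneg_left hLr hmr (by linarith)
            calc a / 16 * E ≤ a / 16 * (L / m) := mul_le_mul_of_nonneg_left h3 (by positivity)
              _ = a * L / (16 * m) := by field_simp
          have h3 : c₂ * E ≤ a / 16 * E := mul_le_mul_of_nonneg_right (min_le_left _ _) hE0
          have h4 : 0 ≤ y / 2 * t := by positivity
          linarith
        · have h2 : E ≤ √L := by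
            rw [hE, div_le_iff₀ (by positivity)]
            have h3 : √(L : ℝ) * √(L : ℝ) = L := Real.mul_self_sqrt hLr
            nlinarith
          have h3 : c₂ * E ≤ y / 2 * t := by
            calc c₂ * E ≤ y / 2 * E := mul_le_mul_of_nonneg_right (min_le_right _ _) hE0
              _ ≤ y / 2 * t := mul_le_mul_of_nonneg_left (by linarith) (by positivity)
          have h4 : 0 ≤ a * L / (16 * m) := by positivity
          linarith
      linarith
    calc ∑ r ∈ cls s q m, ρ ^ fq s r.val q L * ((den q (r * μ) : ℕ) : ℝ) ^ (-η)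
        ≤ ∑ r ∈ cls s q m, ρ ^ fq s r.val q L *
            (Real.exp (2 * y) * Real.exp (-(2 * y * t))) :=
          sum_le_sum fun r hr => mul_le_mul_of_nonneg_left (hden r hr) (by positivity)
      _ = (∑ r ∈ cls s q m, ρ ^ fq s r.val q L) *
            (Real.exp (2 * y) * Real.exp (-(2 * y * t))) := by rw [sum_mul]
      _ ≤ (2 * J * ρ ^ J * s * (1 + ρ ^ J * s) ^ (2 * m)) *
            (Real.exp (2 * y) * Real.exp (-(2 * y * t))) :=
          mul_le_mul_of_nonneg_right (cls_bound hs hcop hρ0 hρ1 hJ0 hJL) (by positivity)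
      _ ≤ (4 / a * Real.exp (-(a * L / (16 * m))) * s * (Real.exp 1 * Real.exp (y * t))) *
            (Real.exp (2 * y) * Real.exp (-(2 * y * t))) := by
          have h5 := hpow J m hJJ
          gcongr
      _ = 4 / a * s * Real.exp 1 * Real.exp (2 * y) *
            Real.exp (-(a * L / (16 * m)) + y * t - 2 * y * t) := by
          rw [Real.exp_sub, Real.exp_add, Real.exp_neg (2 * y * t)]
          ring
      _ ≤ 4 / a * s * Real.exp 1 * Real.exp (2 * y) * Real.exp (-(c₂ * E) - y / 2 * t) :=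
          mul_le_mul_of_nonneg_left (Real.exp_le_exp.2 hexpo) (by positivity)
      _ = _ := by
          rw [mul_assoc (4 / a * s * Real.exp 1 * Real.exp (2 * y)), ← Real.exp_add]
          congr 2
  rw [hsplit]
  -- the sum over the classes
  have hgeom : ∑ m ∈ range (n + 1), Real.exp (-(y / 2 * max 0 ((m : ℝ) - M))) ≤
      (2 + (1 - Real.exp (-(y / 2)))⁻¹) * M := by
    have h1 : ∑ m ∈ range (n + 1), Real.exp (-(y / 2 * max 0 ((m : ℝ) - M))) ≤
        ∑ m ∈ range (mg + 2 + (n + 1)), Real.exp (-(y / 2 * max 0 ((m : ℝ) - M))) :=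
      sum_le_sum_of_subset_of_nonneg (range_mono (by omega)) fun _ _ _ => (Real.exp_pos _).le
    refine h1.trans ?_
    rw [sum_range_add]
    have h2 : ∑ m ∈ range (mg + 2), Real.exp (-(y / 2 * max 0 ((m : ℝ) - M))) ≤ 2 * M := by
      calc ∑ m ∈ range (mg + 2), Real.exp (-(y / 2 * max 0 ((m : ℝ) - M)))
          ≤ ∑ m ∈ range (mg + 2), (1 : ℝ) := by
            refine sum_le_sum fun m _ => ?_
            rw [Real.exp_le_one_iff]
            have : 0 ≤ max 0 ((m : ℝ) - M) := le_max_left _ _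
            have : 0 ≤ y / 2 * max 0 ((m : ℝ) - M) := by positivity
            linarith
        _ = (mg : ℝ) + 2 := by rw [sum_const, card_range, nsmul_eq_mul, mul_one]; push_cast; ring
        _ ≤ 2 * M := by
            rw [hM]
            have : (0 : ℝ) ≤ mg := Nat.cast_nonneg _
            linarith
    have h3 : ∑ k ∈ range (n + 1), Real.exp (-(y / 2 * max 0 (((mg + 2 + k : ℕ) : ℝ) - M))) ≤
        (1 - Real.exp (-(y / 2)))⁻¹ := by
      have hg0' : 0 < Real.exp (-(y / 2)) := Real.exp_pos _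
      have hg1' : Real.exp (-(y / 2)) < 1 := by rw [Real.exp_lt_one_iff]; linarith
      rw [← tsum_geometric_of_lt_one hg0'.le hg1']
      refine le_trans ?_ ((summable_geometric_of_lt_one hg0'.le hg1').sum_le_tsum (range (n + 1))
        fun m _ => by positivity)
      refine sum_le_sum fun k _ => ?_
      rw [← Real.exp_nat_mul]
      refine Real.exp_le_exp.2 ?_
      have h4 : (k : ℝ) ≤ max 0 (((mg + 2 + k : ℕ) : ℝ) - M) := by
        refine le_trans ?_ (le_max_right _ _)
        rw [hM]; push_cast; linarith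
      nlinarith
    have h4 : (1 - Real.exp (-(y / 2)))⁻¹ ≤ (1 - Real.exp (-(y / 2)))⁻¹ * M :=
      le_mul_of_one_le_right (by positivity) hM1
    calc _ ≤ 2 * M + (1 - Real.exp (-(y / 2)))⁻¹ * M := add_le_add h2 (h3.trans h4)
      _ = _ := by ring
  -- the lower bound for `E`
  have hElow : R' * T ≤ E := by
    have hLn : (4 * R' + 8 * R' ^ 2) * T * n ≤ L := by
      refine le_trans ?_ hL
      refine mul_le_mul_of_nonneg_right ?_ (by linarith)
      refine mul_le_mul_of_nonneg_right ?_ (by linarith)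
      linarith
    rcases le_or_gt (√(L : ℝ)) M with hcase | hcase
    · rw [hE, le_div_iff₀ (by positivity)]
      have h1 : R' * T * (√L + M) ≤ R' * T * (2 * M) :=
        mul_le_mul_of_nonneg_left (by linarith) (by positivity)
      have h2 : R' * T * (2 * M) ≤ R' * T * (4 * n) :=
        mul_le_mul_of_nonneg_left (by linarith) (by positivity)
      have h3 : R' * T * (4 * n) ≤ (4 * R' + 8 * R' ^ 2) * T * n := by
        have : 0 ≤ 8 * R' ^ 2 * T * n := by positivity
        nlinarith
      linarith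
    · have h1 : √(L : ℝ) / 2 ≤ E := by
        rw [hE, le_div_iff₀ (by positivity)]
        have h3 : √(L : ℝ) * √(L : ℝ) = L := Real.mul_self_sqrt hLr
        nlinarith
      have h2 : 2 * (R' * T) ≤ √(L : ℝ) := by
        refine Real.le_sqrt_of_sq_le ?_
        have h3 : T * T ≤ T * (2 * n) := mul_le_mul_of_nonneg_left (by linarith) (by linarith)
        have h4 : (2 * (R' * T)) ^ 2 = 4 * R' ^ 2 * (T * T) := by ring
        have h5 : 4 * R' ^ 2 * (T * T) ≤ 4 * R' ^ 2 * (T * (2 * n)) :=
          mul_le_mul_of_nonneg_left h3 (by positivity)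
        have h6 : 4 * R' ^ 2 * (T * (2 * n)) ≤ (4 * R' + 8 * R' ^ 2) * T * n := by
          have : 0 ≤ 4 * R' * T * n := by positivity
          nlinarith
        rw [h4]
        linarith
      linarith
  calc ∑ m ∈ range (n + 1), ∑ r ∈ cls s q m,
        ρ ^ fq s r.val q L * ((den q (r * μ) : ℕ) : ℝ) ^ (-η)
      ≤ ∑ m ∈ range (n + 1), 4 / a * s * Real.exp 1 * Real.exp (2 * y) * Real.exp (-(c₂ * E)) *
          Real.exp (-(y / 2 * max 0 ((m : ℝ) - M))) := sum_le_sum hcls
    _ = 4 / a * s * Real.exp 1 * Real.exp (2 * y) * Real.exp (-(c₂ * E)) *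
          ∑ m ∈ range (n + 1), Real.exp (-(y / 2 * max 0 ((m : ℝ) - M))) := by rw [mul_sum]
    _ ≤ 4 / a * s * Real.exp 1 * Real.exp (2 * y) * Real.exp (-(c₂ * E)) *
          ((2 + (1 - Real.exp (-(y / 2)))⁻¹) * M) :=
        mul_le_mul_of_nonneg_left hgeom (by positivity)
    _ = W * M * Real.exp (-(c₂ * E)) := by rw [hW]; ring
    _ = Real.exp (Real.log W + Real.log M - c₂ * E) := by
        rw [Real.exp_sub, Real.exp_add, Real.exp_log hW0, Real.exp_log hM0, Real.exp_neg]
        ring
    _ ≤ Real.exp (-(c₂ / 2 * E)) := by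
        refine Real.exp_le_exp.2 ?_
        have h1 : Real.log W + Real.log M ≤ c₂ / 2 * E := by
          have h2 : c₂ / 2 * (R' * T) ≤ c₂ / 2 * E := mul_le_mul_of_nonneg_left hElow (by positivity)
          have h3 : c₂ / 2 * (R' * T) = (1 + max 0 (Real.log W)) * T := by
            rw [hR']; field_simp
          have h4 : Real.log W ≤ max 0 (Real.log W) := le_max_right _ _
          have h5 : 0 ≤ max 0 (Real.log W) := le_max_left _ _
          have h6 : Real.log W + Real.log M ≤ (1 + max 0 (Real.log W)) * T := by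
            rw [hT]; nlinarith
          linarith
        linarith

end Pool.Agent.Lib.P1aceP
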