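import Mathlib
import Pool.Agent.Lib.P1aceP.KeyY
import Pool.Agent.Lib.P1aceP.PairsG
import Pool.Agent.Lib.P1aceP.DilExp

set_option autoImplicit false

/-!
# Products of two integers with restricted digits: every class
-/

namespace Pool.Agent.Lib.P1aceP

open Finset Pool.Agent.Lib.P1aceS

lemma clog_le_three {s g : ℕ} (hs : 2 ≤ s) : (Nat.clog s g : ℝ) ≤ 3 * Real.log g := by
  rcases Nat.lt_or_ge g 2 with h | h
  · rw [Nat.clog_of_right_le_one (by omega)]
    have : 0 ≤ Real.log g := Real.log_natCast_nonneg g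
    push_cast
    linarith
  · exact clog_le_log hs h

/-- The lower bound for the exponent. -/
lemma exponent_ge {q g L : ℕ} (hq : 2 ≤ q) (hg0 : 0 < g) (hgq : g ≤ q) {K C : ℝ} (hK : 0 < K)
    (hC1 : 8 * K ^ 2 ≤ C) (hC2 : 2 * K ≤ C) (hL : C * Real.log q ≤ L) :
    K ≤ (L : ℝ) / (√L + Real.log g) := by
  have hqr : (2 : ℝ) ≤ q := by exact_mod_cast hq
  have hgr : (1 : ℝ) ≤ g := by exact_mod_cast hg0
  have hgqr : (g : ℝ) ≤ q := by exact_mod_cast hgq
  have hlq : 1 / 2 ≤ Real.log q := by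
    have h1 : Real.log 2 ≤ Real.log q := Real.log_le_log (by norm_num) hqr
    have := Real.log_two_gt_d9
    linarith
  have hlg : 0 ≤ Real.log g := Real.log_nonneg hgr
  have hlgq : Real.log g ≤ Real.log q := Real.log_le_log (by linarith) hgqr
  have hC0 : 0 < C := by linarith
  have hL1 : C / 2 ≤ L := by nlinarith
  have hL0 : (0 : ℝ) < L := by linarith
  have hsq : √(L : ℝ) * √(L : ℝ) = L := Real.mul_self_sqrt hL0.le
  have hs0 : 0 < √(L : ℝ) := Real.sqrt_pos.2 hL0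
  have h2K : 2 * K ≤ √(L : ℝ) := by
    refine Real.le_sqrt_of_sq_le ?_
    nlinarith
  rw [le_div_iff₀ (by positivity)]
  have h1 : K * √(L : ℝ) ≤ L / 2 := by nlinarith
  have h2 : K * Real.log g ≤ L / 2 := by
    have h3 : K * Real.log g ≤ K * Real.log q := mul_le_mul_of_nonneg_left hlgq hK.le
    nlinarith
  linarith

/-- **The number of pairs**, every class. -/
theorem prod_all {s : ℕ} {D : Finset ℕ} (h0D : 0 ∈ D) (hD : ∀ d ∈ D, d < s)
    (hg : D.gcd id = 1) : ∃ C c : ℝ, 0 < C ∧ 0 < c ∧ ∀ (q : ℕ) [NeZero q], 2 ≤ q →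
      Nat.Coprime s q → ∀ (μ : ZMod q) (L : ℕ),
        C * (1 + Real.log (1 + Real.log (Nat.gcd μ.val q))) * Real.log q ≤ L →
        |(pu (KS s D L) μ : ℝ) - (q.totient : ℝ) / (q : ℝ) ^ 2 * (D.card : ℝ) ^ (2 * L)| ≤
          Real.exp (-(c * (L / (√L + Real.log (Nat.gcd μ.val q))))) *
            ((q.totient : ℝ) / (q : ℝ) ^ 2 * (D.card : ℝ) ^ (2 * L)) := by
  have hs := s_ge h0D hD hg
  obtain ⟨ρ, hρ0, hρ1, hρ⟩ := exists_rho D h0D hg hs
  obtain ⟨C₀, hC₀, hpairs⟩ := pairs_gen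
  obtain ⟨R, c₁, hR, hc₁, hkey⟩ := key_exp hs hρ0 hρ1
  obtain ⟨R₂, c₃, hR₂, hc₃, hkey₂⟩ := key_mul hs hρ0 hρ1 (η := 1 / 32) (by norm_num)
  have hlog32 : 0 ≤ Real.log (1 / (1 / 32)) := Real.log_nonneg (by norm_num)
  set c₄ : ℝ := min (c₁ / 6) (c₃ / 3) with hc₄
  have hc₄0 : 0 < c₄ := lt_min (by positivity) (by positivity)
  set M : ℝ := max 1 (Real.log (3 * C₀)) with hM
  have hM1 : 1 ≤ M := le_max_left _ _
  have hM2 : Real.log (3 * C₀) ≤ M := le_max_right _ _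
  set K : ℝ := 2 / c₄ * M with hK
  have hK0 : 0 < K := by positivity
  set C : ℝ := R * (1 + Real.log (1 / (1 / 32))) * 3 + 9 * R₂ + 8 * K ^ 2 + 2 * K + 1 with hCdef
  refine ⟨C, c₄ / 2, by positivity, by positivity, fun q _ hq hcop μ L hL => ?_⟩
  set g := Nat.gcd μ.val q with hgdef
  have hg0 : 0 < g := gcd_pos' μ
  have hgq : g ≤ q := Nat.le_of_dvd (by omega) (Nat.gcd_dvd_right _ _)
  have hqr : (2 : ℝ) ≤ q := by exact_mod_cast hq
  have hlq : 0 < Real.log q := Real.log_pos (by linarith)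
  have hgr : (1 : ℝ) ≤ g := by exact_mod_cast hg0
  have hlg : 0 ≤ Real.log g := Real.log_nonneg hgr
  have hllg : 0 ≤ Real.log (1 + Real.log g) := Real.log_nonneg (by linarith)
  have hLr : (0 : ℝ) ≤ L := Nat.cast_nonneg L
  have hC1 : R * (1 + Real.log (1 / (1 / 32))) * 3 ≤ C := by
    rw [hCdef]
    have : 0 ≤ 9 * R₂ + 8 * K ^ 2 + 2 * K + 1 := by positivity
    linarith
  have hC2 : 9 * R₂ ≤ C := by
    rw [hCdef]
    have : 0 ≤ R * (1 + Real.log (1 / (1 / 32))) * 3 + 8 * K ^ 2 + 2 * K + 1 := by positivity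
    linarith
  have hC3 : 8 * K ^ 2 ≤ C := by
    rw [hCdef]
    have : 0 ≤ R * (1 + Real.log (1 / (1 / 32))) * 3 + 9 * R₂ + 2 * K + 1 := by positivity
    linarith
  have hC4 : 2 * K ≤ C := by
    rw [hCdef]
    have : 0 ≤ R * (1 + Real.log (1 / (1 / 32))) * 3 + 9 * R₂ + 8 * K ^ 2 + 1 := by positivity
    linarith
  have hC5 : 1 ≤ C := by
    rw [hCdef]
    have : 0 ≤ R * (1 + Real.log (1 / (1 / 32))) * 3 + 9 * R₂ + 8 * K ^ 2 + 2 * K := by positivity
    linarith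
  have hC0 : 0 < C := by linarith
  have hLC : C * Real.log q ≤ L := by
    refine le_trans ?_ hL
    refine mul_le_mul_of_nonneg_right ?_ hlq.le
    exact le_mul_of_one_le_right hC0.le (by linarith)
  have hL1 : R * (1 + Real.log (1 / (1 / 32))) * Nat.clog s q ≤ L := by
    calc R * (1 + Real.log (1 / (1 / 32))) * Nat.clog s q
        ≤ R * (1 + Real.log (1 / (1 / 32))) * (3 * Real.log q) :=
          mul_le_mul_of_nonneg_left (clog_le_log hs hq) (by positivity)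
      _ = R * (1 + Real.log (1 / (1 / 32))) * 3 * Real.log q := by ring
      _ ≤ C * Real.log q := mul_le_mul_of_nonneg_right hC1 hlq.le
      _ ≤ L := hLC
  have hmg := clog_le_three (s := s) (g := g) hs
  have hmg0 : (0 : ℝ) ≤ Nat.clog s g := Nat.cast_nonneg _
  have hL2 : R₂ * (1 + Real.log ((Nat.clog s g : ℝ) + 1)) * Nat.clog s q ≤ L := by
    have h1 : Real.log ((Nat.clog s g : ℝ) + 1) ≤ 2 + Real.log (1 + Real.log g) := by
      have h2 : (Nat.clog s g : ℝ) + 1 ≤ 3 * (1 + Real.log g) := by linarith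
      have h3 : Real.log 3 ≤ 2 := by
        have := Real.log_le_sub_one_of_pos (show (0 : ℝ) < 3 by norm_num)
        linarith
      calc Real.log ((Nat.clog s g : ℝ) + 1) ≤ Real.log (3 * (1 + Real.log g)) :=
            Real.log_le_log (by positivity) h2
        _ = Real.log 3 + Real.log (1 + Real.log g) :=
            Real.log_mul (by norm_num) (by positivity)
        _ ≤ _ := by linarith
    have h0 : 0 ≤ Real.log ((Nat.clog s g : ℝ) + 1) := Real.log_nonneg (by linarith)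
    calc R₂ * (1 + Real.log ((Nat.clog s g : ℝ) + 1)) * Nat.clog s q
        ≤ R₂ * (1 + Real.log ((Nat.clog s g : ℝ) + 1)) * (3 * Real.log q) :=
          mul_le_mul_of_nonneg_left (clog_le_log hs hq) (by positivity)
      _ ≤ R₂ * (3 * (1 + Real.log (1 + Real.log g))) * (3 * Real.log q) := by
          refine mul_le_mul_of_nonneg_right (mul_le_mul_of_nonneg_left ?_ hR₂.le) (by positivity)
          linarith
      _ = 9 * R₂ * (1 + Real.log (1 + Real.log g)) * Real.log q := by ring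
      _ ≤ C * (1 + Real.log (1 + Real.log g)) * Real.log q := by
          refine mul_le_mul_of_nonneg_right (mul_le_mul_of_nonneg_right hC2 (by positivity)) hlq.le
      _ ≤ L := hL
  have hE := exponent_ge hq hg0 hgq hK0 hC3 hC4 hLC
  set E : ℝ := (L : ℝ) / (√L + Real.log g) with hEdef
  have hlq2 : 1 / 2 ≤ Real.log q := by
    have h1 : Real.log 2 ≤ Real.log q := Real.log_le_log (by norm_num) hqr
    have := Real.log_two_gt_d9
    linarith
  have hLhalf : (1 : ℝ) / 2 ≤ L := by nlinarith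
  have hsq : √(L : ℝ) * √(L : ℝ) = L := Real.mul_self_sqrt hLr
  have hsqh : (1 : ℝ) / 2 ≤ √(L : ℝ) := by
    refine Real.le_sqrt_of_sq_le ?_
    linarith
  have hE0 : 0 ≤ E := by linarith
  have hEs : E ≤ √(L : ℝ) := by
    rw [hEdef, div_le_iff₀ (by positivity)]
    have : 0 ≤ √(L : ℝ) * Real.log g := by positivity
    nlinarith
  -- `X`
  have hX := hkey (1 / 32) (by norm_num) (by norm_num) q hq hcop L hL1
  have hY := hkey₂ q hq hcop μ L hL2
  set X : ℝ := Real.exp (-(c₄ * E)) with hXdef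
  have hX' : ∑ r ∈ univ.erase (0 : ZMod q), ρ ^ fq s r.val q L *
      ((den q r : ℕ) : ℝ) ^ (-(1/32) : ℝ) ≤ X := by
    refine hX.trans (Real.exp_le_exp.2 (neg_le_neg ?_))
    have h1 : 0 ≤ (L : ℝ) / Nat.clog s q := by positivity
    have h2 : 1 / 6 * √(L : ℝ) ≤ √(1 / 32 * (L : ℝ)) := by
      refine Real.le_sqrt_of_sq_le ?_
      rw [mul_pow, Real.sq_sqrt hLr]
      nlinarith
    calc c₄ * E ≤ c₁ / 6 * √(L : ℝ) := mul_le_mul (min_le_left _ _) hEs hE0 (by positivity)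
      _ = c₁ * (1 / 6 * √L) := by ring
      _ ≤ c₁ * ((L : ℝ) / Nat.clog s q + √(1 / 32 * L)) :=
          mul_le_mul_of_nonneg_left (by linarith) hc₁.le
  have hY' : ∑ u ∈ univ.erase (0 : ZMod q), ρ ^ fq s u.val q L *
      ((den q (u * μ) : ℕ) : ℝ) ^ (-(1/32) : ℝ) ≤ X := by
    refine hY.trans (Real.exp_le_exp.2 (neg_le_neg ?_))
    have h1 : 1 / 3 * E ≤ (L : ℝ) / (√L + ((Nat.clog s g : ℝ) + 1)) := by
      have h2 : (√(L : ℝ) + ((Nat.clog s g : ℝ) + 1)) ≤ 3 * (√L + Real.log g) := by linarith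
      have h3 : (L : ℝ) / (3 * (√L + Real.log g)) ≤ L / (√L + ((Nat.clog s g : ℝ) + 1)) :=
        div_le_div_of_nonneg_left hLr (by positivity) h2
      refine le_trans (le_of_eq ?_) h3
      rw [hEdef]; field_simp
    calc c₄ * E ≤ c₃ / 3 * E := mul_le_mul_of_nonneg_right (min_le_right _ _) hE0
      _ = c₃ * (1 / 3 * E) := by ring
      _ ≤ c₃ * ((L : ℝ) / (√L + ((Nat.clog s g : ℝ) + 1))) := mul_le_mul_of_nonneg_left h1 hc₃.le
  have hX0 : 0 < X := Real.exp_pos _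
  have hX1 : X ≤ 1 := by
    rw [hXdef, Real.exp_le_one_iff]
    have : 0 ≤ c₄ * E := by positivity
    linarith
  have hX2 : C₀ * ((1 + X) * (1 + X) - 1) ≤ Real.exp (-(c₄ / 2 * E)) := by
    have h1 : C₀ * ((1 + X) * (1 + X) - 1) ≤ 3 * C₀ * X := by
      have h0 : 0 ≤ C₀ * (X * (1 - X)) :=
        mul_nonneg hC₀.le (mul_nonneg hX0.le (by linarith))
      calc C₀ * ((1 + X) * (1 + X) - 1) = 3 * C₀ * X - C₀ * (X * (1 - X)) := by ring
        _ ≤ 3 * C₀ * X := by linarith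
    refine h1.trans ?_
    have h2 : 3 * C₀ ≤ Real.exp (c₄ / 2 * E) := by
      rw [← Real.exp_log (show (0 : ℝ) < 3 * C₀ by positivity)]
      refine Real.exp_le_exp.2 (hM2.trans ?_)
      calc M = c₄ / 2 * K := by rw [hK]; field_simp
        _ ≤ c₄ / 2 * E := mul_le_mul_of_nonneg_left hE (by positivity)
    calc 3 * C₀ * X ≤ Real.exp (c₄ / 2 * E) * X := mul_le_mul_of_nonneg_right h2 hX0.le
      _ = Real.exp (-(c₄ / 2 * E)) := by
          rw [hXdef, ← Real.exp_add]; congr 1; ring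
  have hcard : ((KS s D L).card : ℝ) = (D.card : ℝ) ^ L := by
    rw [card_KS hs h0D hD]; push_cast; rfl
  have hconv : ∀ f : ZMod q → ℕ, ∑ r ∈ univ.erase (0 : ZMod q), ρ ^ fq s r.val q L *
      ((f r : ℕ) : ℝ) ^ (-(1/32) : ℝ) ≤ X →
      ∑ r ∈ (univ : Finset (ZMod q)).erase 0,
        ‖Kh (KS s D L) r‖ * ((f r : ℕ) : ℝ) ^ (-(1/32) : ℝ) ≤ X * (KS s D L).card := by
    intro f hf
    rw [hcard]
    calc ∑ r ∈ (univ : Finset (ZMod q)).erase 0,
          ‖Kh (KS s D L) r‖ * ((f r : ℕ) : ℝ) ^ (-(1/32) : ℝ)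
        ≤ ∑ r ∈ (univ : Finset (ZMod q)).erase 0, (D.card : ℝ) ^ L *
            (ρ ^ fq s r.val q L * ((f r : ℕ) : ℝ) ^ (-(1/32) : ℝ)) := by
          refine sum_le_sum fun r _ => ?_
          rw [← mul_assoc]
          refine mul_le_mul_of_nonneg_right ?_ (by positivity)
          exact norm_kh_le hs h0D hD hρ L r
      _ = (D.card : ℝ) ^ L * ∑ r ∈ (univ : Finset (ZMod q)).erase 0,
            (ρ ^ fq s r.val q L * ((f r : ℕ) : ℝ) ^ (-(1/32) : ℝ)) := by rw [mul_sum]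
      _ ≤ (D.card : ℝ) ^ L * X := mul_le_mul_of_nonneg_left hf (by positivity)
      _ = _ := by ring
  have h1 := hpairs q (KS s D L) X X μ (hconv (fun r => den q r) hX')
    (hconv (fun r => den q (r * μ)) hY')
  rw [hcard] at h1
  have e : ((D.card : ℝ) ^ L) ^ 2 = (D.card : ℝ) ^ (2 * L) := by rw [← pow_mul, mul_comm]
  rw [e] at h1
  exact h1.trans (mul_le_mul_of_nonneg_right hX2 (by positivity))

end Pool.Agent.Lib.P1aceP
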