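import Mathlib
import Pool.Agent.Lib.P1aceP.ProdAll

set_option autoImplicit false

/-!
# Products: the final statement
-/

namespace Pool.Agent.Lib.P1aceP

open Finset Pool.Agent.Lib.P1aceS

lemma gcd_val_eq {q : ℕ} [NeZero q] (lam : ℤ) :
    Nat.gcd ((lam : ZMod q)).val q = Int.gcd lam q := by
  have h1 : (((lam : ZMod q)).val : ℤ) = lam % q := ZMod.val_intCast lam
  have h2 : Nat.gcd ((lam : ZMod q)).val q = Int.gcd (((lam : ZMod q)).val : ℤ) (q : ℤ) :=
    (Int.gcd_natCast_natCast _ _).symm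
  rw [h2, h1]
  apply Nat.dvd_antisymm
  · refine Int.dvd_gcd ?_ (Int.gcd_dvd_right _ _)
    have h3 : ((Int.gcd (lam % q) q : ℕ) : ℤ) ∣ lam % q := Int.gcd_dvd_left _ _
    have h4 : ((Int.gcd (lam % q) q : ℕ) : ℤ) ∣ (q : ℤ) := Int.gcd_dvd_right _ _
    exact (Int.dvd_iff_dvd_of_dvd_sub (by
      have h5 : lam - lam % q = q * (lam / q) := by
        have := Int.emod_add_mul_ediv lam q
        linarith
      rw [h5]
      exact Dvd.dvd.mul_right h4 _)).2 h3
  · refine Int.dvd_gcd ?_ (Int.gcd_dvd_right _ _)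
    have h3 : ((Int.gcd lam q : ℕ) : ℤ) ∣ lam := Int.gcd_dvd_left _ _
    have h4 : ((Int.gcd lam q : ℕ) : ℤ) ∣ (q : ℤ) := Int.gcd_dvd_right _ _
    exact (Int.dvd_iff_dvd_of_dvd_sub (by
      have h5 : lam - lam % q = q * (lam / q) := by
        have := Int.emod_add_mul_ediv lam q
        linarith
      rw [h5]
      exact Dvd.dvd.mul_right h4 _)).1 h3

/-- The set of pairs. -/
lemma ncard_pu {s : ℕ} {D : Finset ℕ} {q : ℕ} [NeZero q] (L : ℕ) (lam : ℤ) :
    {p : ℕ × ℕ | p.1 < s ^ L ∧ p.2 < s ^ L ∧ (∀ i, p.1 / s ^ i % s ∈ D) ∧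
      (∀ i, p.2 / s ^ i % s ∈ D) ∧ Nat.Coprime p.1 q ∧
        ((p.1 : ℤ) * (p.2 : ℤ)) ≡ lam [ZMOD q]}.ncard = pu (KS s D L) (lam : ZMod q) := by
  classical
  unfold pu
  rw [← Set.ncard_coe_finset]
  congr 1
  ext p
  rw [Set.mem_ofPred_eq, mem_coe, mem_filter, mem_product, mem_KS, mem_KS,
    ZMod.isUnit_iff_coprime, ← ZMod.intCast_eq_intCast_iff]
  push_cast
  tauto

open Real in
theorem products_all {s : ℕ} {D : Finset ℕ} (h0 : 0 ∈ D) (hD : ∀ d ∈ D, d < s)
    (hg : D.gcd id = 1) :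
    (∃ C c : ℝ, 0 < C ∧ 0 < c ∧ ∀ q L : ℕ, 2 ≤ q → Nat.Coprime s q → ∀ lam : ℤ,
      C * (1 + log (1 + log (Int.gcd lam q))) * log q ≤ L →
        |({p : ℕ × ℕ | p.1 < s ^ L ∧ p.2 < s ^ L ∧ (∀ i, p.1 / s ^ i % s ∈ D) ∧
              (∀ i, p.2 / s ^ i % s ∈ D) ∧ Nat.Coprime p.1 q ∧
                (p.1 * p.2 : ℤ) ≡ lam [ZMOD q]}.ncard : ℝ) -
            (q.totient : ℝ) / q ^ 2 * (D.card : ℝ) ^ (2 * L)| ≤
          exp (-(c * (L / (√L + log (Int.gcd lam q))))) *
            ((q.totient : ℝ) / q ^ 2 * (D.card : ℝ) ^ (2 * L))) ∧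
    ∃ C : ℝ, 0 < C ∧ ∀ q N : ℕ, 2 ≤ q → Nat.Coprime s q → ∀ lam : ℤ,
      (q : ℝ) ^ (C * (1 + log (1 + log (Int.gcd lam q)))) ≤ N →
        ∃ x y : ℕ, 0 < x ∧ x < N ∧ 0 < y ∧ y < N ∧ (∀ i, x / s ^ i % s ∈ D) ∧
          (∀ i, y / s ^ i % s ∈ D) ∧ (x * y : ℤ) ≡ lam [ZMOD q] := by
  have hs := s_ge h0 hD hg
  have h2 := card_D_ge h0 hg
  have hsr : (2 : ℝ) ≤ s := by exact_mod_cast hs
  have hls : 0 < log s := log_pos (by linarith)
  have hl2 : 0 < log 2 := log_pos (by norm_num)
  have hl2' : 0.6931471803 < log 2 := Real.log_two_gt_d9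
  obtain ⟨C, c, hC, hc, h⟩ := prod_all h0 hD hg
  refine ⟨⟨C, c, hC, hc, fun q L hq hcop lam hL => ?_⟩, ?_⟩
  · have : NeZero q := ⟨by omega⟩
    rw [ncard_pu]
    rw [← gcd_val_eq (q := q) lam] at hL ⊢
    exact h q hq hcop (lam : ZMod q) L hL
  · -- the error is at most `1 / 2`
    set K : ℝ := 1 / c with hK
    have hK0 : 0 < K := by positivity
    set C' : ℝ := C + 8 * K ^ 2 + 2 * K + 8 with hC'
    have hC'0 : 0 < C' := by positivity
    refine ⟨C' * log s + log s / log 2, by positivity, fun q N hq hcop lam hN => ?_⟩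
    have : NeZero q := ⟨by omega⟩
    have hqr : (2 : ℝ) ≤ q := by exact_mod_cast hq
    have hlq : 0 < log q := log_pos (by linarith)
    set g := Int.gcd lam q with hgdef
    have hgv := gcd_val_eq (q := q) lam
    have hg0 : 0 < g := by
      rw [hgdef, ← hgv]; exact gcd_pos' _
    have hgq : g ≤ q := by
      rw [hgdef, ← hgv]; exact Nat.le_of_dvd (by omega) (Nat.gcd_dvd_right _ _)
    have hgr : (1 : ℝ) ≤ g := by exact_mod_cast hg0
    have hlg : 0 ≤ log g := log_nonneg hgr
    set x : ℝ := log (1 + log g) with hx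
    have hx0 : 0 ≤ x := log_nonneg (by linarith)
    set L := ⌊C' * (1 + x) * log q⌋₊ + 1 with hL
    have hLC : C' * (1 + x) * log q ≤ L := by
      rw [hL]; push_cast; exact (Nat.lt_floor_add_one _).le
    have hLC' : C' * log q ≤ L := by
      refine le_trans ?_ hLC
      exact mul_le_mul_of_nonneg_right (le_mul_of_one_le_right hC'0.le (by linarith)) hlq.le
    have hL1 : C * (1 + log (1 + log (Nat.gcd ((lam : ZMod q)).val q))) * log q ≤ L := by
      rw [hgv]
      refine le_trans ?_ hLC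
      refine mul_le_mul_of_nonneg_right ?_ hlq.le
      refine mul_le_mul_of_nonneg_right ?_ (by linarith)
      rw [hC']
      have : 0 ≤ 8 * K ^ 2 + 2 * K + 8 := by positivity
      linarith
    have hE := exponent_ge hq hg0 hgq hK0 (C := C') (L := L)
      (by rw [hC']; have : 0 ≤ C + 2 * K + 8 := by positivity
          linarith)
      (by rw [hC']; have : 0 ≤ C + 8 * K ^ 2 + 8 := by positivity
          linarith) hLC'
    have h1 := h q hq hcop (lam : ZMod q) L hL1
    rw [hgv] at h1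
    have hexp : exp (-(c * (L / (√L + log g)))) ≤ 1 / 2 := by
      have e1 : 1 ≤ c * (L / (√L + log g)) := by
        calc (1 : ℝ) = c * K := by rw [hK]; field_simp
          _ ≤ _ := mul_le_mul_of_nonneg_left hE hc.le
      have e2 : exp (-(c * (L / (√L + log g)))) ≤ exp (-1) := exp_le_exp.2 (by linarith)
      have e3 : exp (-1) ≤ 1 / 2 := by
        rw [exp_neg, ← one_div]
        refine one_div_le_one_div_of_le (by norm_num) ?_
        have := Real.exp_one_gt_d9
        linarith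
      linarith
    set P : ℝ := (D.card : ℝ) ^ L with hP
    have hP2 : (D.card : ℝ) ^ (2 * L) = P ^ 2 := by rw [hP, ← pow_mul, mul_comm]
    rw [hP2] at h1
    have hDr : (2 : ℝ) ≤ D.card := by exact_mod_cast h2
    have hq4 : (q : ℝ) ^ 4 ≤ P := by
      calc (q : ℝ) ^ 4 = exp (4 * log q) := by
            rw [mul_comm, ← Real.rpow_def_of_pos (by linarith)]
            exact (Real.rpow_natCast _ 4).symm
        _ ≤ exp (log 2 * L) := by
            refine exp_le_exp.2 ?_
            have h8 : 8 * log q ≤ L := by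
              refine le_trans (mul_le_mul_of_nonneg_right ?_ hlq.le) hLC'
              rw [hC']
              have : 0 ≤ C + 8 * K ^ 2 + 2 * K := by positivity
              linarith
            nlinarith
        _ = (2 : ℝ) ^ L := by
            rw [← Real.rpow_def_of_pos (by norm_num)]
            exact Real.rpow_natCast _ L
        _ ≤ _ := pow_le_pow_left₀ (by norm_num) hDr L
    have hφ : (1 : ℝ) ≤ q.totient := by exact_mod_cast Nat.totient_pos.2 (by omega)
    have hP0 : 0 < P := by positivity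
    have hbig : (KS s D L).card < pu (KS s D L) (lam : ZMod q) := by
      have hcard : ((KS s D L).card : ℝ) = P := by
        rw [card_KS hs h0 hD]; push_cast; rfl
      have h3 : (1 / 2) * ((q.totient : ℝ) / (q : ℝ) ^ 2 * P ^ 2) ≤
          (pu (KS s D L) (lam : ZMod q) : ℝ) := by
        have h4 := (abs_le.1 h1).1
        have hM0 : 0 ≤ (q.totient : ℝ) / (q : ℝ) ^ 2 * P ^ 2 := by positivity
        have h5 := mul_le_mul_of_nonneg_right hexp hM0
        linarith
      have h6 : P < (1 / 2) * ((q.totient : ℝ) / (q : ℝ) ^ 2 * P ^ 2) := by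
        have h7 : (1 / (q : ℝ) ^ 2) * P ^ 2 ≤ (q.totient : ℝ) / (q : ℝ) ^ 2 * P ^ 2 :=
          mul_le_mul_of_nonneg_right (div_le_div_of_nonneg_right hφ (by positivity))
            (by positivity)
        have h8 : (q : ℝ) ^ 2 * P ≤ (1 / (q : ℝ) ^ 2) * P ^ 2 := by
          have e : (1 / (q : ℝ) ^ 2) * P ^ 2 = P / (q : ℝ) ^ 2 * P := by ring
          rw [e]
          refine mul_le_mul_of_nonneg_right ?_ hP0.le
          rw [le_div_iff₀ (by positivity)]
          calc (q : ℝ) ^ 2 * (q : ℝ) ^ 2 = (q : ℝ) ^ 4 := by ring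
            _ ≤ P := hq4
        have h9 : (4 : ℝ) ≤ (q : ℝ) ^ 2 := by nlinarith
        nlinarith
      have h10 : ((KS s D L).card : ℝ) < (pu (KS s D L) (lam : ZMod q) : ℝ) := by
        rw [hcard]; linarith
      exact_mod_cast h10
    -- a pair with `y ≠ 0`
    classical
    obtain ⟨x', hx', y', hy', hu, hy0, hxy⟩ : ∃ x' ∈ KS s D L, ∃ y' ∈ KS s D L,
        IsUnit (x' : ZMod q) ∧ 0 < y' ∧ (x' : ZMod q) * (y' : ZMod q) = (lam : ZMod q) := by
      by_contra hcon
      push Not at hcon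
      have hsub : ((KS s D L ×ˢ KS s D L).filter fun p : ℕ × ℕ => IsUnit (p.1 : ZMod q) ∧
          (p.1 : ZMod q) * (p.2 : ZMod q) = (lam : ZMod q)) ⊆
            (KS s D L ×ˢ ({0} : Finset ℕ)) := by
        rintro ⟨a, b⟩ hp
        rw [mem_filter, mem_product] at hp
        obtain ⟨⟨ha, hb⟩, hu, hab⟩ := hp
        simp only at ha hb hu hab
        rw [mem_product, mem_singleton]
        refine ⟨ha, ?_⟩
        simp only
        rcases Nat.eq_zero_or_pos b with h0b | h0b
        · exact h0b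
        · exact absurd hab (hcon a ha b hb hu h0b)
      have h3 := card_le_card hsub
      rw [card_product, card_singleton, mul_one] at h3
      unfold pu at hbig
      have h4 : ((KS s D L ×ˢ KS s D L).filter fun p : ℕ × ℕ => IsUnit (p.1 : ZMod q) ∧
          (p.1 : ZMod q) * (p.2 : ZMod q) = (lam : ZMod q)).card =
          (filter (fun p : ℕ × ℕ => IsUnit (p.1 : ZMod q) ∧
          (p.1 : ZMod q) * (p.2 : ZMod q) = (lam : ZMod q)) (KS s D L ×ˢ KS s D L)).card := rfl
      have h5 : (KS s D L).card < ((KS s D L ×ˢ KS s D L).filter fun p : ℕ × ℕ =>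
          IsUnit (p.1 : ZMod q) ∧ (p.1 : ZMod q) * (p.2 : ZMod q) = (lam : ZMod q)).card := by
        convert hbig using 2
      omega
    have hsN : s ^ L ≤ N := by
      have e1 : (s : ℝ) ^ L ≤ (q : ℝ) ^ (C' * (1 + x) * log s + log s / log 2) :=
        pow_le_rpow hs hq (C := C' * (1 + x)) (by positivity)
      have e2 : (q : ℝ) ^ (C' * (1 + x) * log s + log s / log 2) ≤
          (q : ℝ) ^ ((C' * log s + log s / log 2) * (1 + x)) := by
        refine Real.rpow_le_rpow_of_exponent_le (by linarith) ?_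
        have : 0 ≤ log s / log 2 * x := by positivity
        nlinarith
      have e3 := (e1.trans e2).trans hN
      exact_mod_cast e3
    have hx0' : 0 < x' := by
      rcases Nat.eq_zero_or_pos x' with h0x | h0x
      · exfalso
        rw [h0x, Nat.cast_zero] at hu
        have : Fact (1 < q) := ⟨by omega⟩
        exact not_isUnit_zero hu
      · exact h0x
    refine ⟨x', y', hx0', lt_of_lt_of_le (mem_KS.1 hx').1 hsN, hy0,
      lt_of_lt_of_le (mem_KS.1 hy').1 hsN, (mem_KS.1 hx').2, (mem_KS.1 hy').2, ?_⟩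
    rw [← ZMod.intCast_eq_intCast_iff, ← hxy]
    push_cast
    rfl

end Pool.Agent.Lib.P1aceP
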