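import Mathlib
import Pool.Agent.Lib.P1aceP.BilinB
import Pool.Agent.Lib.P1aceP.KeyU

set_option autoImplicit false

/-!
# Products plus one term, one factor short: every class

`q · #{(x₁, x₂, x₃) : x₁ x₂ + x₃ = lam mod q} = (1 + θ) |D| ^ (l + 2 L)`, for every class `lam`; here `x₁` has `l` digits, `x₂` and `x₃` have
`L` digits.
-/

namespace Pool.Agent.Lib.P1aceP

open Finset Pool.Agent.Lib.P1aceS

section

variable {q : ℕ} [NeZero q]

/-- The number of triples of integers with restricted digits with `x₁ x₂ + x₃ = lam` modulo `q`; `x₁` has `l` digits. -/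
noncomputable def trip (D : Finset ℕ) (s l L : ℕ) (lam : ZMod q) : ℕ :=
  ((KS s D l ×ˢ KS s D L ×ˢ KS s D L).filter fun p : ℕ × ℕ × ℕ =>
    ((p.1 * p.2.1 + p.2.2 : ℕ) : ZMod q) = lam).card

lemma trip_eq (D : Finset ℕ) (s l L : ℕ) (lam : ZMod q) :
    trip D s l L lam = ∑ x ∈ KS s D l, ∑ y ∈ KS s D L, cnt D s L (lam - (x : ZMod q) * (y : ZMod q)) := by
  classical
  unfold trip cnt
  rw [card_filter, sum_product]
  refine sum_congr rfl fun x _ => ?_
  rw [sum_product]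
  refine sum_congr rfl fun y _ => ?_
  rw [card_filter]
  refine sum_congr rfl fun z _ => ?_
  congr 1
  push_cast
  rw [eq_sub_iff_add_eq, add_comm]

lemma trip_fourier (D : Finset ℕ) (s l L : ℕ) (lam : ZMod q) :
    (q : ℂ) * (trip D s l L lam : ℂ) = ∑ r : ZMod q, kh D s L r * ZMod.stdAddChar (-(r * lam)) *
      ∑ x ∈ KS s D l, kh D s L (r * (x : ZMod q)) := by
  rw [trip_eq]
  push_cast
  rw [mul_sum]
  calc ∑ x ∈ KS s D l, (q : ℂ) * ∑ y ∈ KS s D L, (cnt D s L (lam - (x : ZMod q) * (y : ZMod q)) : ℂ)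
      = ∑ x ∈ KS s D l, ∑ y ∈ KS s D L, ∑ r : ZMod q,
          kh D s L r * ZMod.stdAddChar (-(r * (lam - (x : ZMod q) * (y : ZMod q)))) := by
        refine sum_congr rfl fun x _ => ?_
        rw [mul_sum]
        exact sum_congr rfl fun y _ => cnt_eq D s L _
    _ = ∑ x ∈ KS s D l, ∑ r : ZMod q, ∑ y ∈ KS s D L,
          kh D s L r * ZMod.stdAddChar (-(r * (lam - (x : ZMod q) * (y : ZMod q)))) :=
        sum_congr rfl fun x _ => sum_comm
    _ = ∑ r : ZMod q, ∑ x ∈ KS s D l, ∑ y ∈ KS s D L,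
          kh D s L r * ZMod.stdAddChar (-(r * (lam - (x : ZMod q) * (y : ZMod q)))) := sum_comm
    _ = _ := by
        refine sum_congr rfl fun r _ => ?_
        rw [mul_sum]
        refine sum_congr rfl fun x _ => ?_
        have h1 : kh D s L (r * (x : ZMod q)) = ∑ y ∈ KS s D L, ZMod.stdAddChar (r * (x : ZMod q) * (y : ZMod q)) := rfl
        rw [h1, mul_sum]
        refine sum_congr rfl fun y _ => ?_
        rw [mul_assoc, ← AddChar.map_add_eq_mul]
        congr 2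
        ring

end

lemma two_le_base {s : ℕ} {D : Finset ℕ} (h0D : 0 ∈ D) (hD : ∀ d ∈ D, d < s)
    (hg : D.gcd id = 1) : 2 ≤ s := by
  have h1 := two_le_card h0D hg
  have h2 : D ⊆ range s := fun d hd => mem_range.2 (hD d hd)
  have h3 := card_le_card h2
  rw [card_range] at h3
  omega

/-- The statement of the uniform key lemma. -/
def KeyU (s : ℕ) (ρ : ℝ) : Prop :=
  ∀ ε : ℝ, 0 < ε → ∃ R : ℝ, 0 < R ∧ ∀ η : ℝ, 0 < η → η ≤ 1 → ∀ (q : ℕ) [NeZero q],
    Nat.Coprime s q → ∀ L : ℕ, R * (1 + Real.log (1 / η)) * Nat.clog s q ≤ L →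
      ∑ r ∈ univ.erase (0 : ZMod q), ρ ^ fq s r.val q L * ((den q r : ℕ) : ℝ) ^ (-η) ≤ ε

theorem triple_short_of {s : ℕ} {D : Finset ℕ} (h0D : 0 ∈ D) (hD : ∀ d ∈ D, d < s)
    (hg : D.gcd id = 1) (hku : ∀ ρ : ℝ, 0 < ρ → ρ < 1 → KeyU s ρ) {ε : ℝ} (hε : 0 < ε) :
    ∃ R : ℝ, 0 < R ∧ ∀ (q : ℕ) [NeZero q], 2 ≤ q → Nat.Coprime s q → ∀ l L : ℕ, 1 ≤ l →
      l ≤ Nat.clog s q →
      R * (1 + Real.log ((Nat.clog s q : ℝ) / l)) * Nat.clog s q ≤ L → ∀ lam : ZMod q,
        |(q : ℝ) * trip D s l L lam - (D.card : ℝ) ^ (l + 2 * L)| ≤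
          ε * (D.card : ℝ) ^ (l + 2 * L) := by
  have hs := two_le_base h0D hD hg
  have h2 := two_le_card h0D hg
  obtain ⟨ρ, hρ0, hρ1, hρ⟩ := exists_rho D h0D hg hs
  obtain ⟨R, hR, hkey⟩ := hku ρ hρ0 hρ1 (min 1 (ε / 4)) (lt_min one_pos (by positivity))
  have hsr : (2 : ℝ) ≤ s := by exact_mod_cast hs
  have hls : 0 < Real.log s := Real.log_pos (by linarith)
  have hl2 : 0 < Real.log 2 := Real.log_pos (by norm_num)
  have hls2 : Real.log 2 ≤ Real.log s := Real.log_le_log (by norm_num) hsr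
  set κ : ℝ := Real.log 2 / (2 * Real.log s) with hκ
  have hκ0 : 0 < κ := by positivity
  have hκ1 : κ ≤ 1 := by
    rw [hκ, div_le_one (by positivity)]
    linarith
  have hlκ : 0 ≤ Real.log (1 / κ) := Real.log_nonneg (by rw [le_div_iff₀ hκ0]; linarith)
  refine ⟨R * (1 + Real.log (1 / κ)), by positivity, ?_⟩
  intro q _ hq2 hcop l L hl1 hlq hL lam
  have hlr : (0 : ℝ) < l := by exact_mod_cast hl1
  have hcl : (l : ℝ) ≤ Nat.clog s q := by exact_mod_cast hlq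
  have hcl0 : (0 : ℝ) < Nat.clog s q := lt_of_lt_of_le hlr hcl
  set β : ℝ := (l : ℝ) / Nat.clog s q with hβ
  have hβ0 : 0 < β := by positivity
  have hβ1 : β ≤ 1 := by rw [hβ, div_le_one hcl0]; exact hcl
  have hlb : β * Nat.clog s q ≤ l := by rw [hβ, div_mul_cancel₀ _ hcl0.ne']
  have hlog : Real.log (1 / (β * κ)) = Real.log ((Nat.clog s q : ℝ) / l) + Real.log (1 / κ) := by
    rw [← Real.log_mul (by positivity) (by positivity)]
    congr 1
    rw [hβ]
    field_simp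
  have hlq0 : 0 ≤ Real.log ((Nat.clog s q : ℝ) / l) :=
    Real.log_nonneg (by rw [le_div_iff₀ hlr]; linarith)
  have hL' : R * (1 + Real.log (1 / (β * κ))) * Nat.clog s q ≤ L := by
    refine le_trans ?_ hL
    rw [hlog]
    have : 1 + (Real.log ((Nat.clog s q : ℝ) / l) + Real.log (1 / κ)) ≤
        (1 + Real.log (1 / κ)) * (1 + Real.log ((Nat.clog s q : ℝ) / l)) := by
      nlinarith [mul_nonneg hlκ hlq0]
    calc R * (1 + (Real.log ((Nat.clog s q : ℝ) / l) + Real.log (1 / κ))) * Nat.clog s q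
        ≤ R * ((1 + Real.log (1 / κ)) * (1 + Real.log ((Nat.clog s q : ℝ) / l))) * Nat.clog s q := by
          gcongr
      _ = _ := by ring
  have hk := hkey (β * κ) (by positivity) (by nlinarith) q hcop L hL'
  have hk1 := hk.trans (min_le_left _ _)
  have hk2 := hk.trans (min_le_right _ _)
  have hb := bilin hs h0D hD h2 hρ0 hρ1 hρ hβ0 hβ1 hlb hk1
  have hc0 : (0 : ℝ) ≤ D.card := by positivity
  have h0 : kh D s L (0 : ZMod q) * ZMod.stdAddChar (-((0 : ZMod q) * lam)) *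
      ∑ x ∈ KS s D l, kh D s L ((0 : ZMod q) * (x : ZMod q)) = (D.card : ℂ) ^ (l + 2 * L) := by
    simp only [zero_mul, neg_zero, AddChar.map_zero_eq_one, mul_one, kh_zero hs h0D hD, sum_const,
      card_KS hs h0D hD, nsmul_eq_mul]
    push_cast
    rw [← pow_add, ← pow_add]
    congr 1
    ring
  have hmain := trip_fourier D s l L lam
  rw [← Finset.add_sum_erase _ _ (mem_univ (0 : ZMod q)), h0] at hmain
  have hdiff : (((q : ℝ) * (trip D s l L lam : ℝ) - (D.card : ℝ) ^ (l + 2 * L) : ℝ) : ℂ) =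
      ∑ r ∈ univ.erase (0 : ZMod q), kh D s L r * ZMod.stdAddChar (-(r * lam)) *
        ∑ x ∈ KS s D l, kh D s L (r * (x : ZMod q)) := by
    push_cast
    rw [hmain]
    ring
  have habs : |(q : ℝ) * (trip D s l L lam : ℝ) - (D.card : ℝ) ^ (l + 2 * L)| =
      ‖∑ r ∈ univ.erase (0 : ZMod q), kh D s L r * ZMod.stdAddChar (-(r * lam)) *
        ∑ x ∈ KS s D l, kh D s L (r * (x : ZMod q))‖ := by
    rw [← hdiff, Complex.norm_real, Real.norm_eq_abs]
  rw [habs]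
  calc ‖∑ r ∈ univ.erase (0 : ZMod q), kh D s L r * ZMod.stdAddChar (-(r * lam)) *
        ∑ x ∈ KS s D l, kh D s L (r * (x : ZMod q))‖
      ≤ ∑ r ∈ univ.erase (0 : ZMod q), (4 * (D.card : ℝ) ^ (l + 2 * L)) *
          (ρ ^ fq s r.val q L * ((den q r : ℕ) : ℝ) ^ (-(β * κ))) := by
        refine norm_sum_le_of_le _ fun r _ => ?_
        rw [norm_mul, norm_mul, AddChar.norm_apply, mul_one]
        have h1 := norm_kh_le hs h0D hD hρ L r
        have h3 := hb r
        calc ‖kh D s L r‖ * ‖∑ x ∈ KS s D l, kh D s L (r * (x : ZMod q))‖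
            ≤ ((D.card : ℝ) ^ L * ρ ^ fq s r.val q L) *
                (4 * (D.card : ℝ) ^ (l + L) * ((den q r : ℕ) : ℝ) ^ (-(β * κ))) :=
              mul_le_mul h1 h3 (norm_nonneg _) (by positivity)
          _ = 4 * ((D.card : ℝ) ^ L * (D.card : ℝ) ^ (l + L)) *
                (ρ ^ fq s r.val q L * ((den q r : ℕ) : ℝ) ^ (-(β * κ))) := by ring
          _ = _ := by
              rw [← pow_add]
              congr 3
              ring
    _ = (4 * (D.card : ℝ) ^ (l + 2 * L)) *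
          ∑ r ∈ univ.erase (0 : ZMod q), ρ ^ fq s r.val q L * ((den q r : ℕ) : ℝ) ^ (-(β * κ)) := by
        rw [mul_sum]
    _ ≤ (4 * (D.card : ℝ) ^ (l + 2 * L)) * (ε / 4) :=
        mul_le_mul_of_nonneg_left hk2 (by positivity)
    _ = _ := by ring

theorem triple_short {s : ℕ} {D : Finset ℕ} (h0D : 0 ∈ D) (hD : ∀ d ∈ D, d < s)
    (hg : D.gcd id = 1) {ε : ℝ} (hε : 0 < ε) :
    ∃ R : ℝ, 0 < R ∧ ∀ (q : ℕ) [NeZero q], 2 ≤ q → Nat.Coprime s q → ∀ l L : ℕ, 1 ≤ l →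
      l ≤ Nat.clog s q →
      R * (1 + Real.log ((Nat.clog s q : ℝ) / l)) * Nat.clog s q ≤ L → ∀ lam : ZMod q,
        |(q : ℝ) * trip D s l L lam - (D.card : ℝ) ^ (l + 2 * L)| ≤
          ε * (D.card : ℝ) ^ (l + 2 * L) :=
  triple_short_of h0D hD hg
    (fun _ hρ0 hρ1 _ h => key_unif (two_le_base h0D hD hg) hρ0 hρ1 h) hε

end Pool.Agent.Lib.P1aceP
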