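import Mathlib
import Pool.Agent.Lib.P1aceP.Defs
import Pool.Agent.Lib.P1aceP.KeyL

set_option autoImplicit false

/-!
# The number of solutions of `x y + z = λ`
-/

namespace Pool.Agent.Lib.P1aceP

open Finset Pool.Agent.Lib.P1aceS

section

variable {q : ℕ} [NeZero q]

/-- The number of triples. -/
noncomputable def N3 (D : Finset ℕ) (s L : ℕ) (lam : ZMod q) : ℕ :=
  ((KS s D L ×ˢ (KS s D L ×ˢ KS s D L)).filter fun p : ℕ × (ℕ × ℕ) =>
    (p.1 : ZMod q) * (p.2.1 : ZMod q) + (p.2.2 : ZMod q) = lam).card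

lemma N3_eq (D : Finset ℕ) (s L : ℕ) (lam : ZMod q) :
    (q : ℂ) * (N3 D s L lam : ℂ) = ∑ r : ZMod q,
      (∑ x ∈ KS s D L, kh D s L (r * (x : ZMod q))) * kh D s L r *
        ZMod.stdAddChar (-(r * lam)) := by
  have h1 : ∀ p : ℕ × (ℕ × ℕ), ∑ r : ZMod q, (ZMod.stdAddChar
      (r * ((p.1 : ZMod q) * (p.2.1 : ZMod q) + (p.2.2 : ZMod q) - lam)) : ℂ) =
      if (p.1 : ZMod q) * (p.2.1 : ZMod q) + (p.2.2 : ZMod q) = lam then (q : ℂ) else 0 := by
    intro p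
    rw [AddChar.sum_mulShift _ (ZMod.isPrimitive_stdAddChar q), ZMod.card]
    by_cases h : (p.1 : ZMod q) * (p.2.1 : ZMod q) + (p.2.2 : ZMod q) = lam
    · rw [if_pos h, if_pos (sub_eq_zero.2 h)]
    · rw [if_neg h, if_neg (sub_ne_zero.2 h)]
      try simp
  calc (q : ℂ) * (N3 D s L lam : ℂ)
      = ∑ p ∈ KS s D L ×ˢ (KS s D L ×ˢ KS s D L),
          if (p.1 : ZMod q) * (p.2.1 : ZMod q) + (p.2.2 : ZMod q) = lam then (q : ℂ) else 0 := by
        unfold N3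
        rw [← sum_filter, sum_const, nsmul_eq_mul, mul_comm]
    _ = ∑ p ∈ KS s D L ×ˢ (KS s D L ×ˢ KS s D L), ∑ r : ZMod q, (ZMod.stdAddChar
          (r * ((p.1 : ZMod q) * (p.2.1 : ZMod q) + (p.2.2 : ZMod q) - lam)) : ℂ) :=
        sum_congr rfl fun p _ => (h1 p).symm
    _ = ∑ r : ZMod q, ∑ p ∈ KS s D L ×ˢ (KS s D L ×ˢ KS s D L), (ZMod.stdAddChar
          (r * ((p.1 : ZMod q) * (p.2.1 : ZMod q) + (p.2.2 : ZMod q) - lam)) : ℂ) := sum_comm
    _ = _ := by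
        refine sum_congr rfl fun r _ => ?_
        unfold kh
        rw [sum_product, sum_mul, sum_mul]
        refine sum_congr rfl fun x _ => ?_
        rw [sum_product, sum_mul, sum_mul]
        refine sum_congr rfl fun y _ => ?_
        rw [mul_sum, sum_mul]
        refine sum_congr rfl fun z _ => ?_
        rw [← AddChar.map_add_eq_mul, ← AddChar.map_add_eq_mul]
        congr 1
        ring

/-- The count from a bound for the bilinear sums. -/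
theorem triples {s : ℕ} (hs : 2 ≤ s) {D : Finset ℕ} (h0D : 0 ∈ D) (hD : ∀ d ∈ D, d < s) {ρ : ℝ}
    (hρ : ∀ θ : ℝ, 1 / (s : ℝ) ^ 2 ≤ θ → θ ≤ 1 - 1 / (s : ℝ) ^ 2 → ‖ph D θ‖ ≤ ρ * D.card)
    (L : ℕ) {C η ε : ℝ} (hC : 0 ≤ C)
    (hB : ∀ r : ZMod q, ‖∑ x ∈ KS s D L, kh D s L (r * (x : ZMod q))‖ ≤
      C * (D.card : ℝ) ^ (2 * L) * ((den q r : ℕ) : ℝ) ^ (-η))
    (hX : ∑ r ∈ univ.erase (0 : ZMod q), ρ ^ fq s r.val q L * ((den q r : ℕ) : ℝ) ^ (-η) ≤ ε)
    (lam : ZMod q) :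
    |(N3 D s L lam : ℝ) - (D.card : ℝ) ^ (3 * L) / q| ≤
      C * ε * ((D.card : ℝ) ^ (3 * L) / q) := by
  classical
  have hq0 : (0 : ℝ) < q := by exact_mod_cast NeZero.pos q
  set F : ZMod q → ℂ := fun r => (∑ x ∈ KS s D L, kh D s L (r * (x : ZMod q))) * kh D s L r *
        ZMod.stdAddChar (-(r * lam)) with hF
  have hF0 : F 0 = (D.card : ℂ) ^ (3 * L) := by
    simp only [hF, zero_mul, neg_zero, AddChar.map_zero_eq_one, mul_one]
    rw [kh_zero hs h0D hD, sum_const, card_KS hs h0D hD, nsmul_eq_mul]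
    push_cast
    ring
  have h1 : (q : ℂ) * (N3 D s L lam : ℂ) - (D.card : ℂ) ^ (3 * L) =
      ∑ r ∈ univ.erase (0 : ZMod q), F r := by
    rw [N3_eq, ← hF0, ← add_sum_erase univ F (mem_univ (0 : ZMod q))]
    ring
  have h2 : ‖(q : ℂ) * (N3 D s L lam : ℂ) - (D.card : ℂ) ^ (3 * L)‖ ≤
      C * ε * (D.card : ℝ) ^ (3 * L) := by
    rw [h1]
    calc ‖∑ r ∈ univ.erase (0 : ZMod q), F r‖ ≤ ∑ r ∈ univ.erase (0 : ZMod q), ‖F r‖ :=
          norm_sum_le _ _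
      _ ≤ ∑ r ∈ univ.erase (0 : ZMod q), C * (D.card : ℝ) ^ (3 * L) *
            (ρ ^ fq s r.val q L * ((den q r : ℕ) : ℝ) ^ (-η)) := by
          refine sum_le_sum fun r _ => ?_
          simp only [hF]
          rw [norm_mul, norm_mul]
          have e1 : ‖(ZMod.stdAddChar (-(r * lam)) : ℂ)‖ = 1 := AddChar.norm_apply _ _
          rw [e1, mul_one]
          calc _ ≤ (C * (D.card : ℝ) ^ (2 * L) * ((den q r : ℕ) : ℝ) ^ (-η)) *
                ((D.card : ℝ) ^ L * ρ ^ fq s r.val q L) :=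
                mul_le_mul (hB r) (norm_kh_le hs h0D hD hρ L r) (norm_nonneg _) (by positivity)
            _ = _ := by
                have e2 : (D.card : ℝ) ^ (3 * L) = (D.card : ℝ) ^ (2 * L) * (D.card : ℝ) ^ L := by
                  rw [← pow_add]; congr 1; ring
                rw [e2]; ring
      _ = C * (D.card : ℝ) ^ (3 * L) * ∑ r ∈ univ.erase (0 : ZMod q),
            (ρ ^ fq s r.val q L * ((den q r : ℕ) : ℝ) ^ (-η)) := by rw [mul_sum]
      _ ≤ C * (D.card : ℝ) ^ (3 * L) * ε := mul_le_mul_of_nonneg_left hX (by positivity)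
      _ = _ := by ring
  have h3 : ‖(q : ℂ) * (N3 D s L lam : ℂ) - (D.card : ℂ) ^ (3 * L)‖ =
      |(q : ℝ) * (N3 D s L lam : ℝ) - (D.card : ℝ) ^ (3 * L)| := by
    rw [← Real.norm_eq_abs, ← Complex.norm_real]
    push_cast
    rfl
  rw [h3] at h2
  have h4 : (N3 D s L lam : ℝ) - (D.card : ℝ) ^ (3 * L) / q =
      ((q : ℝ) * (N3 D s L lam : ℝ) - (D.card : ℝ) ^ (3 * L)) / q := by
    field_simp
  rw [h4, abs_div, abs_of_pos hq0, div_le_iff₀ hq0]
  calc _ ≤ C * ε * (D.card : ℝ) ^ (3 * L) := h2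
    _ = _ := by field_simp

end

end Pool.Agent.Lib.P1aceP
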